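import Pool.Agent.H86.V.Defs

/-! Covering the prefix entries of a group by chunks (no Mathlib, used in the kernel modules). -/

namespace H86V

/-- The prefix entries below `lo` are covered by verified chunks. -/
def Cov (k0 g p j X s bl lo : Nat) : Prop :=
  ∀ t, t < lo → ∃ a b c H, a ≤ t ∧ t < b ∧ 0 < c ∧ c < 4096 ∧ chunk k0 g p a b c j X s bl H = true

/-- The group `g` of the octave `k0`, piece `j`, is verified. -/
def Grp (k0 j X s bl g : Nat) : Prop :=
  ∃ p, p ≤ 12 ∧ 16 + p ≤ k0 ∧ ∀ t, t < 4096 → ∃ a b c H, a ≤ t ∧ t < b ∧ 0 < c ∧ c < 4096 ∧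
    chunk k0 g p a b c j X s bl H = true

theorem cov0 {k0 g p j X s bl : Nat} : Cov k0 g p j X s bl 0 := fun t h => absurd h (Nat.not_lt_zero t)

theorem covS {k0 g p j X s bl a b c H : Nat} (h : Cov k0 g p j X s bl a)
    (hf : chunk k0 g p a b c j X s bl H = true) (hc : Nat.ble 1 c = true) (hc' : Nat.ble c 4095 = true) :
    Cov k0 g p j X s bl b := by
  intro t ht
  rcases Nat.lt_or_ge t a with h1 | h1
  · exact h t h1
  · exact ⟨a, b, c, H, h1, ht, Nat.le_of_ble_eq_true hc, Nat.lt_succ_of_le (Nat.le_of_ble_eq_true hc'), hf⟩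

theorem grp_of {k0 g p j X s bl : Nat} (h : Cov k0 g p j X s bl 4096) (hp : Nat.ble p 12 = true)
    (hk : Nat.ble (16 + p) k0 = true) : Grp k0 j X s bl g :=
  ⟨p, Nat.le_of_ble_eq_true hp, Nat.le_of_ble_eq_true hk, h⟩

theorem andL {a b : Bool} (h : (a && b) = true) : a = true := by
  cases a
  · exact h
  · rfl

theorem andR {a b : Bool} (h : (a && b) = true) : b = true := by
  cases a
  · exact Bool.noConfusion h
  · exact h

end H86V
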