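import Pool.Agent.H86.V.Top
import Pool.Agent.H86.V.Cov
import Pool.Agent.H86.V.K.C01
import Pool.Agent.H86.V.K.C02
import Pool.Agent.H86.V.K.C03
import Pool.Agent.H86.V.K.C04
import Pool.Agent.H86.V.K.C05
import Pool.Agent.H86.V.K.C06
import Pool.Agent.H86.V.K.C07
import Pool.Agent.H86.V.K.C08
import Pool.Agent.H86.V.K.C09
import Pool.Agent.H86.V.K.C10
import Pool.Agent.H86.V.K.C11
import Pool.Agent.H86.V.K.C12
import Pool.Agent.H86.V.K.C13
import Pool.Agent.H86.V.K.C14
import Pool.Agent.H86.V.K.C15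
import Pool.Agent.H86.V.K.C16
import Pool.Agent.H86.V.K.C17
import Pool.Agent.H86.V.K.C18
import Pool.Agent.H86.V.K.C19
import Pool.Agent.H86.V.K.C20
import Pool.Agent.H86.V.K.C21
import Pool.Agent.H86.V.K.C22
import Pool.Agent.H86.V.K.C23
import Pool.Agent.H86.V.K.C24
import Pool.Agent.H86.V.K.C25
import Pool.Agent.H86.V.K.C26
import Pool.Agent.H86.V.K.C27
import Pool.Agent.H86.V.K.C28
import Pool.Agent.H86.V.K.C29
import Pool.Agent.H86.V.K.C30
import Pool.Agent.H86.V.K.C31
import Pool.Agent.H86.V.K.C32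
import Pool.Agent.H86.V.K.C33
import Pool.Agent.H86.V.K.C34
import Pool.Agent.H86.V.K.C35
import Pool.Agent.H86.V.K.C36
import Pool.Agent.H86.V.K.C37
import Pool.Agent.H86.V.K.C38
import Pool.Agent.H86.V.K.C39
import Pool.Agent.H86.V.K.C40
import Pool.Agent.H86.V.K.C41
import Pool.Agent.H86.V.K.C42
import Pool.Agent.H86.V.K.C43
import Pool.Agent.H86.V.K.C44
import Pool.Agent.H86.V.K.C45
import Pool.Agent.H86.V.K.C46
import Pool.Agent.H86.V.K.C47
import Pool.Agent.H86.V.K.C48

/-! The verified pieces. -/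

namespace H86V

theorem piece_18_2 : PieceOK 18 2 14155776 0 70 := by
  intro g hg
  interval_cases g
  · exact C01.g_18_2_0
  · exact C01.g_18_2_1
  · exact C01.g_18_2_2
  · exact C01.g_18_2_3
  · exact C01.g_18_2_4
  · exact C01.g_18_2_5
  · exact C01.g_18_2_6
  · exact C01.g_18_2_7
  · exact C01.g_18_2_8
  · exact C01.g_18_2_9
  · exact C01.g_18_2_10
  · exact C01.g_18_2_11
  · exact C01.g_18_2_12
  · exact C01.g_18_2_13
  · exact C01.g_18_2_14
  · exact C01.g_18_2_15
  · exact C01.g_18_2_16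
  · exact C01.g_18_2_17
  · exact C01.g_18_2_18
  · exact C01.g_18_2_19
  · exact C01.g_18_2_20
  · exact C01.g_18_2_21
  · exact C01.g_18_2_22
  · exact C01.g_18_2_23
  · exact C01.g_18_2_24

theorem piece_18_3 : PieceOK 18 3 21233664 0 68 := by
  intro g hg
  interval_cases g
  · exact C01.g_18_3_0
  · exact C01.g_18_3_1
  · exact C01.g_18_3_2
  · exact C01.g_18_3_3
  · exact C01.g_18_3_4
  · exact C01.g_18_3_5
  · exact C01.g_18_3_6
  · exact C01.g_18_3_7
  · exact C01.g_18_3_8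
  · exact C01.g_18_3_9
  · exact C01.g_18_3_10
  · exact C01.g_18_3_11
  · exact C01.g_18_3_12
  · exact C01.g_18_3_13
  · exact C01.g_18_3_14
  · exact C01.g_18_3_15
  · exact C01.g_18_3_16
  · exact C01.g_18_3_17
  · exact C01.g_18_3_18
  · exact C01.g_18_3_19
  · exact C01.g_18_3_20
  · exact C01.g_18_3_21
  · exact C01.g_18_3_22
  · exact C01.g_18_3_23
  · exact C01.g_18_3_24

theorem piece_19_2 : PieceOK 19 2 28311552 0 77 := by
  intro g hg
  interval_cases g
  · exact C01.g_19_2_0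
  · exact C01.g_19_2_1
  · exact C01.g_19_2_2
  · exact C01.g_19_2_3
  · exact C01.g_19_2_4
  · exact C01.g_19_2_5
  · exact C01.g_19_2_6
  · exact C01.g_19_2_7
  · exact C01.g_19_2_8
  · exact C01.g_19_2_9
  · exact C01.g_19_2_10
  · exact C01.g_19_2_11
  · exact C01.g_19_2_12
  · exact C01.g_19_2_13
  · exact C01.g_19_2_14
  · exact C01.g_19_2_15
  · exact C01.g_19_2_16
  · exact C01.g_19_2_17
  · exact C01.g_19_2_18
  · exact C01.g_19_2_19
  · exact C01.g_19_2_20
  · exact C01.g_19_2_21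
  · exact C01.g_19_2_22
  · exact C01.g_19_2_23
  · exact C01.g_19_2_24

theorem piece_19_3 : PieceOK 19 3 42467328 0 68 := by
  intro g hg
  interval_cases g
  · exact C01.g_19_3_0
  · exact C01.g_19_3_1
  · exact C01.g_19_3_2
  · exact C01.g_19_3_3
  · exact C01.g_19_3_4
  · exact C01.g_19_3_5
  · exact C01.g_19_3_6
  · exact C01.g_19_3_7
  · exact C01.g_19_3_8
  · exact C01.g_19_3_9
  · exact C01.g_19_3_10
  · exact C01.g_19_3_11
  · exact C01.g_19_3_12
  · exact C01.g_19_3_13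
  · exact C01.g_19_3_14
  · exact C01.g_19_3_15
  · exact C01.g_19_3_16
  · exact C01.g_19_3_17
  · exact C01.g_19_3_18
  · exact C01.g_19_3_19
  · exact C01.g_19_3_20
  · exact C01.g_19_3_21
  · exact C01.g_19_3_22
  · exact C01.g_19_3_23
  · exact C01.g_19_3_24

theorem piece_20_2 : PieceOK 20 2 56623104 0 84 := by
  intro g hg
  interval_cases g
  · exact C01.g_20_2_0
  · exact C01.g_20_2_1
  · exact C01.g_20_2_2
  · exact C01.g_20_2_3
  · exact C01.g_20_2_4
  · exact C01.g_20_2_5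
  · exact C01.g_20_2_6
  · exact C01.g_20_2_7
  · exact C01.g_20_2_8
  · exact C01.g_20_2_9
  · exact C01.g_20_2_10
  · exact C01.g_20_2_11
  · exact C01.g_20_2_12
  · exact C01.g_20_2_13
  · exact C01.g_20_2_14
  · exact C01.g_20_2_15
  · exact C01.g_20_2_16
  · exact C01.g_20_2_17
  · exact C01.g_20_2_18
  · exact C01.g_20_2_19
  · exact C01.g_20_2_20
  · exact C01.g_20_2_21
  · exact C01.g_20_2_22
  · exact C01.g_20_2_23
  · exact C01.g_20_2_24

theorem piece_20_3 : PieceOK 20 3 84934656 0 79 := by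
  intro g hg
  interval_cases g
  · exact C01.g_20_3_0
  · exact C01.g_20_3_1
  · exact C01.g_20_3_2
  · exact C01.g_20_3_3
  · exact C01.g_20_3_4
  · exact C01.g_20_3_5
  · exact C01.g_20_3_6
  · exact C01.g_20_3_7
  · exact C01.g_20_3_8
  · exact C01.g_20_3_9
  · exact C01.g_20_3_10
  · exact C01.g_20_3_11
  · exact C01.g_20_3_12
  · exact C01.g_20_3_13
  · exact C01.g_20_3_14
  · exact C01.g_20_3_15
  · exact C01.g_20_3_16
  · exact C01.g_20_3_17
  · exact C01.g_20_3_18
  · exact C01.g_20_3_19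
  · exact C01.g_20_3_20
  · exact C01.g_20_3_21
  · exact C01.g_20_3_22
  · exact C01.g_20_3_23
  · exact C01.g_20_3_24

theorem piece_21_2 : PieceOK 21 2 113246208 0 122 := by
  intro g hg
  interval_cases g
  · exact C01.g_21_2_0
  · exact C01.g_21_2_1
  · exact C01.g_21_2_2
  · exact C01.g_21_2_3
  · exact C01.g_21_2_4
  · exact C01.g_21_2_5
  · exact C01.g_21_2_6
  · exact C01.g_21_2_7
  · exact C01.g_21_2_8
  · exact C01.g_21_2_9
  · exact C01.g_21_2_10
  · exact C01.g_21_2_11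
  · exact C01.g_21_2_12
  · exact C01.g_21_2_13
  · exact C01.g_21_2_14
  · exact C01.g_21_2_15
  · exact C01.g_21_2_16
  · exact C01.g_21_2_17
  · exact C01.g_21_2_18
  · exact C01.g_21_2_19
  · exact C01.g_21_2_20
  · exact C01.g_21_2_21
  · exact C01.g_21_2_22
  · exact C01.g_21_2_23
  · exact C01.g_21_2_24

theorem piece_21_3 : PieceOK 21 3 169869312 0 126 := by
  intro g hg
  interval_cases g
  · exact C01.g_21_3_0
  · exact C01.g_21_3_1
  · exact C01.g_21_3_2
  · exact C01.g_21_3_3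
  · exact C01.g_21_3_4
  · exact C01.g_21_3_5
  · exact C01.g_21_3_6
  · exact C01.g_21_3_7
  · exact C01.g_21_3_8
  · exact C01.g_21_3_9
  · exact C01.g_21_3_10
  · exact C01.g_21_3_11
  · exact C01.g_21_3_12
  · exact C01.g_21_3_13
  · exact C01.g_21_3_14
  · exact C01.g_21_3_15
  · exact C01.g_21_3_16
  · exact C01.g_21_3_17
  · exact C01.g_21_3_18
  · exact C01.g_21_3_19
  · exact C01.g_21_3_20
  · exact C01.g_21_3_21
  · exact C01.g_21_3_22
  · exact C01.g_21_3_23
  · exact C01.g_21_3_24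

theorem piece_22_2 : PieceOK 22 2 226492416 0 148 := by
  intro g hg
  interval_cases g
  · exact C01.g_22_2_0
  · exact C01.g_22_2_1
  · exact C01.g_22_2_2
  · exact C01.g_22_2_3
  · exact C01.g_22_2_4
  · exact C01.g_22_2_5
  · exact C01.g_22_2_6
  · exact C01.g_22_2_7
  · exact C01.g_22_2_8
  · exact C01.g_22_2_9
  · exact C01.g_22_2_10
  · exact C01.g_22_2_11
  · exact C01.g_22_2_12
  · exact C01.g_22_2_13
  · exact C01.g_22_2_14
  · exact C01.g_22_2_15
  · exact C01.g_22_2_16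
  · exact C01.g_22_2_17
  · exact C01.g_22_2_18
  · exact C01.g_22_2_19
  · exact C01.g_22_2_20
  · exact C01.g_22_2_21
  · exact C01.g_22_2_22
  · exact C01.g_22_2_23
  · exact C01.g_22_2_24

theorem piece_22_3 : PieceOK 22 3 339738624 0 187 := by
  intro g hg
  interval_cases g
  · exact C01.g_22_3_0
  · exact C01.g_22_3_1
  · exact C01.g_22_3_2
  · exact C01.g_22_3_3
  · exact C01.g_22_3_4
  · exact C01.g_22_3_5
  · exact C01.g_22_3_6
  · exact C01.g_22_3_7
  · exact C01.g_22_3_8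
  · exact C01.g_22_3_9
  · exact C01.g_22_3_10
  · exact C01.g_22_3_11
  · exact C01.g_22_3_12
  · exact C01.g_22_3_13
  · exact C01.g_22_3_14
  · exact C01.g_22_3_15
  · exact C01.g_22_3_16
  · exact C01.g_22_3_17
  · exact C01.g_22_3_18
  · exact C01.g_22_3_19
  · exact C01.g_22_3_20
  · exact C01.g_22_3_21
  · exact C01.g_22_3_22
  · exact C01.g_22_3_23
  · exact C01.g_22_3_24

theorem piece_23_2 : PieceOK 23 2 452984832 0 181 := by
  intro g hg
  interval_cases g
  · exact C01.g_23_2_0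
  · exact C01.g_23_2_1
  · exact C01.g_23_2_2
  · exact C01.g_23_2_3
  · exact C01.g_23_2_4
  · exact C02.g_23_2_5
  · exact C02.g_23_2_6
  · exact C02.g_23_2_7
  · exact C02.g_23_2_8
  · exact C02.g_23_2_9
  · exact C02.g_23_2_10
  · exact C02.g_23_2_11
  · exact C02.g_23_2_12
  · exact C02.g_23_2_13
  · exact C02.g_23_2_14
  · exact C02.g_23_2_15
  · exact C02.g_23_2_16
  · exact C02.g_23_2_17
  · exact C02.g_23_2_18
  · exact C02.g_23_2_19
  · exact C02.g_23_2_20
  · exact C02.g_23_2_21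
  · exact C02.g_23_2_22
  · exact C02.g_23_2_23
  · exact C02.g_23_2_24

theorem piece_23_3 : PieceOK 23 3 679477248 0 179 := by
  intro g hg
  interval_cases g
  · exact C02.g_23_3_0
  · exact C02.g_23_3_1
  · exact C02.g_23_3_2
  · exact C02.g_23_3_3
  · exact C02.g_23_3_4
  · exact C02.g_23_3_5
  · exact C02.g_23_3_6
  · exact C02.g_23_3_7
  · exact C02.g_23_3_8
  · exact C02.g_23_3_9
  · exact C02.g_23_3_10
  · exact C02.g_23_3_11
  · exact C02.g_23_3_12
  · exact C02.g_23_3_13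
  · exact C02.g_23_3_14
  · exact C02.g_23_3_15
  · exact C02.g_23_3_16
  · exact C02.g_23_3_17
  · exact C02.g_23_3_18
  · exact C02.g_23_3_19
  · exact C02.g_23_3_20
  · exact C02.g_23_3_21
  · exact C02.g_23_3_22
  · exact C02.g_23_3_23
  · exact C02.g_23_3_24

theorem piece_24_2 : PieceOK 24 2 905969664 600 288 := by
  intro g hg
  interval_cases g
  · exact C02.g_24_2_0
  · exact C02.g_24_2_1
  · exact C02.g_24_2_2
  · exact C02.g_24_2_3
  · exact C02.g_24_2_4
  · exact C02.g_24_2_5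
  · exact C02.g_24_2_6
  · exact C02.g_24_2_7
  · exact C02.g_24_2_8
  · exact C02.g_24_2_9
  · exact C02.g_24_2_10
  · exact C02.g_24_2_11
  · exact C02.g_24_2_12
  · exact C02.g_24_2_13
  · exact C02.g_24_2_14
  · exact C02.g_24_2_15
  · exact C02.g_24_2_16
  · exact C02.g_24_2_17
  · exact C02.g_24_2_18
  · exact C02.g_24_2_19
  · exact C02.g_24_2_20
  · exact C02.g_24_2_21
  · exact C02.g_24_2_22
  · exact C02.g_24_2_23
  · exact C02.g_24_2_24

theorem piece_24_3 : PieceOK 24 3 1358954496 600 279 := by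
  intro g hg
  interval_cases g
  · exact C02.g_24_3_0
  · exact C02.g_24_3_1
  · exact C02.g_24_3_2
  · exact C03.g_24_3_3
  · exact C03.g_24_3_4
  · exact C03.g_24_3_5
  · exact C03.g_24_3_6
  · exact C03.g_24_3_7
  · exact C03.g_24_3_8
  · exact C03.g_24_3_9
  · exact C03.g_24_3_10
  · exact C03.g_24_3_11
  · exact C03.g_24_3_12
  · exact C03.g_24_3_13
  · exact C03.g_24_3_14
  · exact C03.g_24_3_15
  · exact C03.g_24_3_16
  · exact C03.g_24_3_17
  · exact C03.g_24_3_18
  · exact C03.g_24_3_19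
  · exact C03.g_24_3_20
  · exact C03.g_24_3_21
  · exact C03.g_24_3_22
  · exact C03.g_24_3_23
  · exact C03.g_24_3_24

theorem piece_25_2 : PieceOK 25 2 1811939328 600 310 := by
  intro g hg
  interval_cases g
  · exact C03.g_25_2_0
  · exact C03.g_25_2_1
  · exact C03.g_25_2_2
  · exact C03.g_25_2_3
  · exact C03.g_25_2_4
  · exact C03.g_25_2_5
  · exact C03.g_25_2_6
  · exact C03.g_25_2_7
  · exact C03.g_25_2_8
  · exact C03.g_25_2_9
  · exact C03.g_25_2_10
  · exact C04.g_25_2_11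
  · exact C04.g_25_2_12
  · exact C04.g_25_2_13
  · exact C04.g_25_2_14
  · exact C04.g_25_2_15
  · exact C04.g_25_2_16
  · exact C04.g_25_2_17
  · exact C04.g_25_2_18
  · exact C04.g_25_2_19
  · exact C04.g_25_2_20
  · exact C04.g_25_2_21
  · exact C04.g_25_2_22
  · exact C04.g_25_2_23
  · exact C04.g_25_2_24

theorem piece_25_3 : PieceOK 25 3 2717908992 600 323 := by
  intro g hg
  interval_cases g
  · exact C04.g_25_3_0
  · exact C04.g_25_3_1
  · exact C04.g_25_3_2
  · exact C04.g_25_3_3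
  · exact C04.g_25_3_4
  · exact C04.g_25_3_5
  · exact C04.g_25_3_6
  · exact C04.g_25_3_7
  · exact C04.g_25_3_8
  · exact C04.g_25_3_9
  · exact C04.g_25_3_10
  · exact C04.g_25_3_11
  · exact C04.g_25_3_12
  · exact C04.g_25_3_13
  · exact C04.g_25_3_14
  · exact C04.g_25_3_15
  · exact C04.g_25_3_16
  · exact C04.g_25_3_17
  · exact C04.g_25_3_18
  · exact C04.g_25_3_19
  · exact C04.g_25_3_20
  · exact C04.g_25_3_21
  · exact C04.g_25_3_22
  · exact C04.g_25_3_23
  · exact C04.g_25_3_24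

theorem piece_26_2 : PieceOK 26 2 3623878656 600 322 := by
  intro g hg
  interval_cases g
  · exact C05.g_26_2_0
  · exact C05.g_26_2_1
  · exact C05.g_26_2_2
  · exact C05.g_26_2_3
  · exact C05.g_26_2_4
  · exact C05.g_26_2_5
  · exact C05.g_26_2_6
  · exact C05.g_26_2_7
  · exact C05.g_26_2_8
  · exact C06.g_26_2_9
  · exact C06.g_26_2_10
  · exact C06.g_26_2_11
  · exact C06.g_26_2_12
  · exact C06.g_26_2_13
  · exact C06.g_26_2_14
  · exact C06.g_26_2_15
  · exact C06.g_26_2_16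
  · exact C06.g_26_2_17
  · exact C06.g_26_2_18
  · exact C06.g_26_2_19
  · exact C06.g_26_2_20
  · exact C06.g_26_2_21
  · exact C06.g_26_2_22
  · exact C06.g_26_2_23
  · exact C06.g_26_2_24

theorem piece_26_3 : PieceOK 26 3 5435817984 600 329 := by
  intro g hg
  interval_cases g
  · exact C06.g_26_3_0
  · exact C06.g_26_3_1
  · exact C06.g_26_3_2
  · exact C06.g_26_3_3
  · exact C06.g_26_3_4
  · exact C07.g_26_3_5
  · exact C07.g_26_3_6
  · exact C07.g_26_3_7
  · exact C07.g_26_3_8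
  · exact C07.g_26_3_9
  · exact C07.g_26_3_10
  · exact C07.g_26_3_11
  · exact C07.g_26_3_12
  · exact C07.g_26_3_13
  · exact C07.g_26_3_14
  · exact C07.g_26_3_15
  · exact C07.g_26_3_16
  · exact C07.g_26_3_17
  · exact C07.g_26_3_18
  · exact C07.g_26_3_19
  · exact C07.g_26_3_20
  · exact C07.g_26_3_21
  · exact C07.g_26_3_22
  · exact C07.g_26_3_23
  · exact C07.g_26_3_24

theorem piece_27_2 : PieceOK 27 2 7247757312 600 383 := by
  intro g hg
  interval_cases g
  · exact C08.g_27_2_0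
  · exact C08.g_27_2_1
  · exact C08.g_27_2_2
  · exact C08.g_27_2_3
  · exact C08.g_27_2_4
  · exact C09.g_27_2_5
  · exact C09.g_27_2_6
  · exact C09.g_27_2_7
  · exact C09.g_27_2_8
  · exact C09.g_27_2_9
  · exact C10.g_27_2_10
  · exact C10.g_27_2_11
  · exact C10.g_27_2_12
  · exact C10.g_27_2_13
  · exact C10.g_27_2_14
  · exact C10.g_27_2_15
  · exact C10.g_27_2_16
  · exact C10.g_27_2_17
  · exact C10.g_27_2_18
  · exact C10.g_27_2_19
  · exact C10.g_27_2_20
  · exact C10.g_27_2_21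
  · exact C10.g_27_2_22
  · exact C10.g_27_2_23
  · exact C10.g_27_2_24

theorem piece_27_3 : PieceOK 27 3 10871635968 600 392 := by
  intro g hg
  interval_cases g
  · exact C10.g_27_3_0
  · exact C10.g_27_3_1
  · exact C11.g_27_3_2
  · exact C11.g_27_3_3
  · exact C11.g_27_3_4
  · exact C11.g_27_3_5
  · exact C11.g_27_3_6
  · exact C12.g_27_3_7
  · exact C12.g_27_3_8
  · exact C12.g_27_3_9
  · exact C12.g_27_3_10
  · exact C12.g_27_3_11
  · exact C12.g_27_3_12
  · exact C12.g_27_3_13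
  · exact C12.g_27_3_14
  · exact C13.g_27_3_15
  · exact C13.g_27_3_16
  · exact C13.g_27_3_17
  · exact C13.g_27_3_18
  · exact C13.g_27_3_19
  · exact C13.g_27_3_20
  · exact C13.g_27_3_21
  · exact C13.g_27_3_22
  · exact C13.g_27_3_23
  · exact C13.g_27_3_24

theorem piece_28_2 : PieceOK 28 2 14495514624 600 404 := by
  intro g hg
  interval_cases g
  · exact C13.g_28_2_0
  · exact C13.g_28_2_1
  · exact C13.g_28_2_2
  · exact C14.g_28_2_3
  · exact C14.g_28_2_4
  · exact C15.g_28_2_5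
  · exact C15.g_28_2_6
  · exact C16.g_28_2_7
  · exact C16.g_28_2_8
  · exact C16.g_28_2_9
  · exact C17.g_28_2_10
  · exact C17.g_28_2_11
  · exact C17.g_28_2_12
  · exact C17.g_28_2_13
  · exact C17.g_28_2_14
  · exact C17.g_28_2_15
  · exact C18.g_28_2_16
  · exact C18.g_28_2_17
  · exact C18.g_28_2_18
  · exact C18.g_28_2_19
  · exact C18.g_28_2_20
  · exact C18.g_28_2_21
  · exact C18.g_28_2_22
  · exact C18.g_28_2_23
  · exact C18.g_28_2_24

theorem piece_28_3 : PieceOK 28 3 21743271936 600 398 := by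
  intro g hg
  interval_cases g
  · exact C18.g_28_3_0
  · exact C18.g_28_3_1
  · exact C18.g_28_3_2
  · exact C19.g_28_3_3
  · exact C19.g_28_3_4
  · exact C20.g_28_3_5
  · exact C20.g_28_3_6
  · exact C21.g_28_3_7
  · exact C21.g_28_3_8
  · exact C21.g_28_3_9
  · exact C22.g_28_3_10
  · exact C22.g_28_3_11
  · exact C22.g_28_3_12
  · exact C22.g_28_3_13
  · exact C22.g_28_3_14
  · exact C22.g_28_3_15
  · exact C23.g_28_3_16
  · exact C23.g_28_3_17
  · exact C23.g_28_3_18
  · exact C23.g_28_3_19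
  · exact C23.g_28_3_20
  · exact C23.g_28_3_21
  · exact C23.g_28_3_22
  · exact C23.g_28_3_23
  · exact C23.g_28_3_24

theorem piece_28_8 : PieceOK 28 8 57982058496 600 381 := by
  intro g hg
  interval_cases g
  · exact C23.g_28_8_0
  · exact C23.g_28_8_1
  · exact C23.g_28_8_2
  · exact C24.g_28_8_3
  · exact C24.g_28_8_4
  · exact C25.g_28_8_5
  · exact C25.g_28_8_6
  · exact C26.g_28_8_7
  · exact C26.g_28_8_8
  · exact C26.g_28_8_9
  · exact C27.g_28_8_10
  · exact C27.g_28_8_11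
  · exact C27.g_28_8_12
  · exact C27.g_28_8_13
  · exact C27.g_28_8_14
  · exact C27.g_28_8_15
  · exact C28.g_28_8_16
  · exact C28.g_28_8_17
  · exact C28.g_28_8_18
  · exact C28.g_28_8_19
  · exact C28.g_28_8_20
  · exact C28.g_28_8_21
  · exact C28.g_28_8_22
  · exact C28.g_28_8_23
  · exact C28.g_28_8_24

theorem piece_29_2 : PieceOK 29 2 28991029248 600 473 := by
  intro g hg
  interval_cases g
  · exact C28.g_29_2_0
  · exact C29.g_29_2_1
  · exact C29.g_29_2_2
  · exact C30.g_29_2_3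
  · exact C31.g_29_2_4
  · exact C32.g_29_2_5
  · exact C33.g_29_2_6
  · exact C34.g_29_2_7
  · exact C35.g_29_2_8
  · exact C35.g_29_2_9
  · exact C35.g_29_2_10
  · exact C36.g_29_2_11
  · exact C37.g_29_2_12
  · exact C37.g_29_2_13
  · exact C37.g_29_2_14
  · exact C37.g_29_2_15
  · exact C38.g_29_2_16
  · exact C38.g_29_2_17
  · exact C38.g_29_2_18
  · exact C38.g_29_2_19
  · exact C38.g_29_2_20
  · exact C38.g_29_2_21
  · exact C38.g_29_2_22
  · exact C38.g_29_2_23
  · exact C38.g_29_2_24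

theorem piece_29_3 : PieceOK 29 3 43486543872 600 462 := by
  intro g hg
  interval_cases g
  · exact C38.g_29_3_0
  · exact C39.g_29_3_1
  · exact C39.g_29_3_2
  · exact C40.g_29_3_3
  · exact C41.g_29_3_4
  · exact C42.g_29_3_5
  · exact C43.g_29_3_6
  · exact C44.g_29_3_7
  · exact C45.g_29_3_8
  · exact C45.g_29_3_9
  · exact C45.g_29_3_10
  · exact C46.g_29_3_11
  · exact C47.g_29_3_12
  · exact C47.g_29_3_13
  · exact C47.g_29_3_14
  · exact C47.g_29_3_15
  · exact C48.g_29_3_16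
  · exact C48.g_29_3_17
  · exact C48.g_29_3_18
  · exact C48.g_29_3_19
  · exact C48.g_29_3_20
  · exact C48.g_29_3_21
  · exact C48.g_29_3_22
  · exact C48.g_29_3_23
  · exact C48.g_29_3_24

end H86V
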