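/-! Core only definitions of the verification engine. -/

namespace H86V

def msk : Nat := 18446744073709551615

/-- `n` lanes equal to one. -/
def rep (n : Nat) : Nat := Nat.div (Nat.sub (Nat.shiftLeft 1 (Nat.mul 64 n)) 1) msk

/-- One accelerated Collatz step in every lane. -/
def stp (O N : Nat) : Nat :=
  Nat.add (Nat.shiftRight (Nat.add N (Nat.land N O)) 1)
    (Nat.land (Nat.mul (Nat.land N O) msk) N)

def stp5 (O N : Nat) : Nat := stp O (stp O (stp O (stp O (stp O N))))

/-- Masks of the lanes with top bit in `t`. -/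
def spread (t : Nat) : Nat := Nat.sub t (Nat.shiftRight t 63)

/-- Lanes at least `X`. -/
def geM (O X N : Nat) : Nat :=
  spread (Nat.land (Nat.add N (Nat.mul (Nat.sub 9223372036854775808 X) O))
    (Nat.mul 9223372036854775808 O))

/-- Move the lanes of `y` into the empty lanes of `x`: what stays in `y`. -/
def keepY (O x y : Nat) : Nat := Nat.land y (geM O 1 x)

def rotS (n : Nat) : Nat := Nat.add (Nat.mul 2 (Nat.div (Nat.mul n 5) 26)) 1

def rot (n x : Nat) : Nat :=
  Nat.add (Nat.shiftRight x (Nat.mul 64 (rotS n)))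
    (Nat.shiftLeft (Nat.land x (Nat.sub (Nat.shiftLeft 1 (Nat.mul 64 (rotS n))) 1))
      (Nat.mul 64 (Nat.sub n (rotS n))))

/-- Scalar descent below `X`. -/
noncomputable def desc (X f : Nat) : Nat → Bool :=
  @Nat.rec (fun _ => Nat → Bool) (fun _ => false)
    (fun _ ih y => @Bool.rec (fun _ => Bool) true
      (ih (@Bool.rec (fun _ => Nat) (Nat.shiftRight (Nat.add (Nat.mul 3 y) 1) 1)
        (Nat.shiftRight y 1) (Nat.beq (Nat.land y 1) 0))) (Nat.ble X y)) f

noncomputable def hd (L : List Nat) : Nat := @List.rec Nat (fun _ => Nat) 0 (fun x _ _ => x) L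
noncomputable def tl (L : List Nat) : List Nat :=
  @List.rec Nat (fun _ => List Nat) [] (fun _ t _ => t) L

/-- What stays in the head of the pool, processor after five steps, mask. -/
def b5 (n A : Nat) : Nat := stp5 (rep n) A
def bM (X n A : Nat) : Nat := geM (rep n) X (b5 n A)
def bK (X n A F : Nat) : Nat := Nat.land F (bM X n A)
def bA (X n A F : Nat) : Nat := Nat.add (Nat.land (b5 n A) (bM X n A)) (Nat.sub F (bK X n A F))

abbrev St := Nat → Nat → Nat → Nat → Nat → Nat → Nat → List Nat → Bool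

noncomputable def iBlk (X : Nat) (ih : St) : St := fun n H A F P Q R ls =>
  @Bool.rec (fun _ => Bool) false
    (@Bool.rec (fun _ => Bool) false
      (ih n (Nat.shiftRight H 8) (bA X n A F) (bK X n A F) P Q R ls)
      (Nat.ble 0 (bA X n A F)))
    (Nat.beq (Nat.land A (Nat.mul 17293822569102704640 (rep n))) 0)

noncomputable def cmp2 (x y w : Nat) (k : Nat → Nat → Bool) : Bool :=
  @Bool.rec (fun _ => Bool) false (k (Nat.add x (Nat.sub y w)) w)
    (Nat.ble 0 (Nat.add x (Nat.sub y w)))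

noncomputable def cmpK (n x y : Nat) (k : Nat → Nat → Bool) : Bool :=
  cmp2 x y (keepY (rep n) x y) k

noncomputable def rotK (x : Nat) (k : Nat → Bool) : Bool :=
  @Bool.rec (fun _ => Bool) false (k x) (Nat.ble 0 x)

noncomputable def iLoad (ih : St) : St := fun n H A F P Q R ls =>
  @Bool.rec (fun _ => Bool) false
    (@Bool.rec (fun _ => Bool) false
      (@Bool.rec (fun _ => Bool) false
        (rotK (rot n F) (fun f => rotK (rot n P) (fun p => rotK (rot n Q) (fun q =>
          ih n (Nat.shiftRight H 8) A (hd ls) f p q (tl ls)))))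
        (Nat.beq R 0))
      (Nat.beq (Nat.land (hd ls) (Nat.mul 17293822569102704640 (rep n))) 0))
    (Nat.ble (hd ls) (Nat.mul msk (rep n)))

noncomputable def iFoldH (ih : St) (h : Nat) : St := fun _ H A F P Q R ls =>
  @Bool.rec (fun _ => Bool) false
    (ih h (Nat.shiftRight H 8) (Nat.land A (Nat.sub (Nat.shiftLeft 1 (Nat.mul 64 h)) 1))
      (Nat.shiftRight A (Nat.mul 64 h)) (Nat.land F (Nat.sub (Nat.shiftLeft 1 (Nat.mul 64 h)) 1))
      (Nat.shiftRight F (Nat.mul 64 h)) 0 ls)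
    (Nat.beq (Nat.add P (Nat.add Q R)) 0)

noncomputable def iScalY (X s : Nat) (ih : St) (p y : Nat) : St := fun n H A F P Q R ls =>
  @Bool.rec (fun _ => Bool) false
    (ih n (Nat.shiftRight H 24) (Nat.sub A (Nat.shiftLeft y (Nat.mul 64 p))) F P Q R ls)
    (desc X s y)

noncomputable def iScal (X s : Nat) (ih : St) (p : Nat) : St := fun n H A F P Q R ls =>
  iScalY X s ih p (Nat.land (Nat.shiftRight A (Nat.mul 64 p)) msk) n H A F P Q R ls

/-- Codes `1, .., 4`: (A, P), (A, Q), (F, P), (F, Q). -/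
noncomputable def dec1 (ih : St) (c : Nat) : St := fun n H A F P Q R ls =>
  @Bool.rec (fun _ => Bool)
    (@Bool.rec (fun _ => Bool)
      (cmpK n F Q (fun f q => ih n (Nat.shiftRight H 8) A f P q R ls))
      (cmpK n F P (fun f p => ih n (Nat.shiftRight H 8) A f p Q R ls)) (Nat.beq c 3))
    (@Bool.rec (fun _ => Bool)
      (cmpK n A Q (fun a q => ih n (Nat.shiftRight H 8) a F P q R ls))
      (cmpK n A P (fun a p => ih n (Nat.shiftRight H 8) a F p Q R ls)) (Nat.beq c 1))
    (Nat.ble c 2)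

/-- Codes `5, .., 8`: (P, Q), (P, R), (Q, R), (A, F). -/
noncomputable def dec2 (ih : St) (c : Nat) : St := fun n H A F P Q R ls =>
  @Bool.rec (fun _ => Bool)
    (@Bool.rec (fun _ => Bool)
      (cmpK n A F (fun a f => ih n (Nat.shiftRight H 8) a f P Q R ls))
      (cmpK n Q R (fun q r => ih n (Nat.shiftRight H 8) A F P q r ls)) (Nat.beq c 7))
    (@Bool.rec (fun _ => Bool)
      (cmpK n P R (fun p r => ih n (Nat.shiftRight H 8) A F p Q r ls))
      (cmpK n P Q (fun p q => ih n (Nat.shiftRight H 8) A F p q R ls)) (Nat.beq c 5))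
    (Nat.ble c 6)

/-- Codes `9, .., 12`: rotate F, P, Q, R. -/
noncomputable def dec3 (ih : St) (c : Nat) : St := fun n H A F P Q R ls =>
  @Bool.rec (fun _ => Bool)
    (@Bool.rec (fun _ => Bool)
      (rotK (rot n R) (fun r => ih n (Nat.shiftRight H 8) A F P Q r ls))
      (rotK (rot n Q) (fun q => ih n (Nat.shiftRight H 8) A F P q R ls)) (Nat.beq c 11))
    (@Bool.rec (fun _ => Bool)
      (rotK (rot n P) (fun p => ih n (Nat.shiftRight H 8) A F p Q R ls))
      (rotK (rot n F) (fun f => ih n (Nat.shiftRight H 8) A f P Q R ls)) (Nat.beq c 9))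
    (Nat.ble c 10)

/-- Codes `13, .., 16`: load, swap (F, P), swap (P, Q), swap (Q, R). -/
noncomputable def dec4 (ih : St) (c : Nat) : St := fun n H A F P Q R ls =>
  @Bool.rec (fun _ => Bool)
    (@Bool.rec (fun _ => Bool)
      (ih n (Nat.shiftRight H 8) A F P R Q ls)
      (ih n (Nat.shiftRight H 8) A F Q P R ls) (Nat.beq c 15))
    (@Bool.rec (fun _ => Bool)
      (ih n (Nat.shiftRight H 8) A P F Q R ls)
      (iLoad ih n H A F P Q R ls) (Nat.beq c 13))
    (Nat.ble c 14)

/-- Codes `17` fold, `18` scalar, `19` end. -/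
noncomputable def dec5 (X s : Nat) (ih : St) (c : Nat) : St := fun n H A F P Q R ls =>
  @Bool.rec (fun _ => Bool)
    (@Bool.rec (fun _ => Bool)
      (@List.rec Nat (fun _ => Bool)
        (Nat.beq (Nat.add A (Nat.add F (Nat.add P (Nat.add Q R)))) 0) (fun _ _ _ => false) ls)
      (iScal X s ih (Nat.land (Nat.shiftRight H 8) 65535) n H A F P Q R ls) (Nat.beq c 18))
    (iFoldH ih (Nat.div (Nat.add n 1) 2) n H A F P Q R ls) (Nat.beq c 17)

noncomputable def decH (X s : Nat) (ih : St) (c : Nat) : St := fun n H A F P Q R ls =>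
  @Bool.rec (fun _ => Bool) (dec5 X s ih c n H A F P Q R ls) (dec4 ih c n H A F P Q R ls)
    (Nat.ble c 16)

noncomputable def decM (X s : Nat) (ih : St) (c : Nat) : St := fun n H A F P Q R ls =>
  @Bool.rec (fun _ => Bool) (decH X s ih c n H A F P Q R ls) (dec3 ih c n H A F P Q R ls)
    (Nat.ble c 12)

noncomputable def decL (ih : St) (c : Nat) : St := fun n H A F P Q R ls =>
  @Bool.rec (fun _ => Bool) (dec2 ih c n H A F P Q R ls) (dec1 ih c n H A F P Q R ls)
    (Nat.ble c 4)

noncomputable def decN (X s : Nat) (ih : St) (c : Nat) : St := fun n H A F P Q R ls =>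
  @Bool.rec (fun _ => Bool) (decM X s ih c n H A F P Q R ls) (decL ih c n H A F P Q R ls)
    (Nat.ble c 8)

noncomputable def dec (X s : Nat) (ihB ih : St) (c : Nat) : St := fun n H A F P Q R ls =>
  @Bool.rec (fun _ => Bool) (decN X s ih c n H A F P Q R ls) (iBlk X ihB n H A F P Q R ls)
    (Nat.beq c 0)

/-- `n` lanes, hint `H`, processor `A`, pool `F, P, Q, R`, waiting loads `ls`. -/
noncomputable def vstep (X s : Nat) (ihB ih : St) : St := fun n H A F P Q R ls =>
  dec X s ihB ih (Nat.land H 255) n H A F P Q R ls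

/-- At most `m` instructions up to the next block. -/
noncomputable def vin (X s : Nat) (ihB : St) (m : Nat) : St :=
  @Nat.rec (fun _ => St) (fun _ _ _ _ _ _ _ _ => false) (fun _ ih => vstep X s ihB ih) m

/-- At most `b` blocks. -/
noncomputable def vrun (X s b : Nat) : St :=
  @Nat.rec (fun _ => St) (fun _ _ _ _ _ _ _ _ => false) (fun _ ihB => vin X s ihB 1000) b

/-- Run one list of loads. -/
noncomputable def go (X s b n H : Nat) (L : List Nat) : Bool :=
  @Bool.rec (fun _ => Bool) false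
    (@Bool.rec (fun _ => Bool) false (vrun X s b n H (hd L) 0 0 0 0 (tl L))
      (Nat.ble (hd L) (Nat.mul msk (rep n))))
    (Nat.beq (Nat.land (hd L) (Nat.mul 17293822569102704640 (rep n))) 0)

/-! Direct runs. -/

/-- Lanes `1, .., n`. -/
def iota1 (n : Nat) : Nat :=
  Nat.land (Nat.mul (rep n) (rep n)) (Nat.mul msk (rep n))

/-- Lanes `x + 6, x + 12, .., x + 6 n`. -/
def dload (n x : Nat) : Nat := Nat.add (Nat.mul x (rep n)) (Nat.mul 6 (iota1 n))

/-- One run for each hint of the list. -/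
noncomputable def dall (X b n : Nat) (Hs : List Nat) : Nat → Bool :=
  @List.rec Nat (fun _ => Nat → Bool) (fun _ => true)
    (fun H _ ih x => @Bool.rec (fun _ => Bool) false (ih (Nat.add x (Nat.mul 6 n)))
      (go X 0 b n H [dload n x])) Hs

/-! Class phase. -/


/-- Is the class state alive? -/
noncomputable def al (k o r : Nat) : Bool :=
  @Bool.rec (fun _ => Bool) (Nat.ble (Nat.add (Nat.mul 29 (Nat.shiftLeft 1 k)) 1) (Nat.mul 30 (Nat.pow 3 o))) (Nat.ble (Nat.add (Nat.mul 29 (Nat.shiftLeft 1 k)) 1) (Nat.mul 20 (Nat.pow 3 o))) (Nat.beq (Nat.land (Nat.shiftRight 260 r) 1) 1)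

def dd (o : Nat) : Nat := Nat.mul 27 (Nat.pow 3 o)
def r0 (r : Nat) : Nat := Nat.mod (Nat.mul 5 r) 9
def r1 (r : Nat) : Nat := Nat.mod (Nat.mul 5 (Nat.add (Nat.mul 3 r) 1)) 9

/-- Even child: `Y + d [Y odd]`, halved. -/
def evC (O d Y : Nat) : Nat := Nat.shiftRight (Nat.add Y (Nat.mul d (Nat.land Y O))) 1
/-- Odd child. -/
def odC (O d Y : Nat) : Nat :=
  Nat.shiftRight (Nat.add (Nat.mul 3 (Nat.sub (Nat.add Y (Nat.mul d O)) (Nat.mul d (Nat.land Y O)))) O) 1

abbrev Out := Nat × Nat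

/-- Depth first enumeration, outputs `(o, Y)` in front of `acc`. -/
noncomputable def dfs (O f : Nat) : Nat → Nat → Nat → Nat → List Out → List Out :=
  @Nat.rec (fun _ => Nat → Nat → Nat → Nat → List Out → List Out)
    (fun _ o _ Y acc => (o, Y) :: acc)
    (fun _ ih k o r Y acc =>
      @Bool.rec (fun _ => List Out) (@Bool.rec (fun _ => List Out) acc (ih (Nat.add k 1) (Nat.add o 1) (r1 r) (odC O (dd o) Y) acc) (al (Nat.add k 1) (Nat.add o 1) (r1 r))) (ih (Nat.add k 1) o (r0 r) (evC O (dd o) Y)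
          (@Bool.rec (fun _ => List Out) acc (ih (Nat.add k 1) (Nat.add o 1) (r1 r) (odC O (dd o) Y) acc) (al (Nat.add k 1) (Nat.add o 1) (r1 r)))) (al (Nat.add k 1) o (r0 r))) f

/-- Loads: `c` pieces of `l` lanes each. -/
noncomputable def mkL (Ol l c j : Nat) (L : List Out) : Nat → Nat → List Nat :=
  @List.rec Out (fun _ => Nat → Nat → List Nat)
    (fun i acc => @Bool.rec (fun _ => List Nat) [acc] [] (Nat.beq i 0))
    (fun p _ ih i acc =>
      @Bool.rec (fun _ => List Nat) (ih (Nat.add i 1) (Nat.add acc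
          (Nat.shiftLeft (Nat.add p.2 (Nat.mul (Nat.mul j (dd p.1)) Ol))
            (Nat.mul (Nat.mul 64 l) i)))) (Nat.add acc (Nat.shiftLeft (Nat.add p.2 (Nat.mul (Nat.mul j (dd p.1)) Ol))
            (Nat.mul (Nat.mul 64 l) i)) :: ih 0 0) (Nat.beq (Nat.add i 1) c)) L

/-- Entries `(o, r, len, Y)`. -/
abbrev Ent := Nat × Nat × Nat × Nat

noncomputable def ins (e : Ent) (L : List Ent) : List Ent :=
  @List.rec Ent (fun _ => List Ent) [e]
    (fun x t ih => @Bool.rec (fun _ => List Ent) (x :: ih) (@Bool.rec (fun _ => List Ent) (x :: ih) ((x.1, x.2.1, Nat.add x.2.2.1 e.2.2.1,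
          Nat.add x.2.2.2 (Nat.shiftLeft e.2.2.2 (Nat.mul 64 x.2.2.1))) :: t) (Nat.beq x.2.1 e.2.1)) (Nat.beq x.1 e.1)) L

/-- One breadth first step, `k` is the new level. -/
noncomputable def bstep (k : Nat) (L : List Ent) : List Ent → List Ent :=
  @List.rec Ent (fun _ => List Ent → List Ent) (fun acc => acc)
    (fun x _ ih acc =>
      ih (@Bool.rec (fun _ => List Ent) (@Bool.rec (fun _ => List Ent) acc (ins (x.1, r0 x.2.1, x.2.2.1, evC (rep x.2.2.1) (dd x.1) x.2.2.2) acc) (al k x.1 (r0 x.2.1))) (ins (Nat.add x.1 1, r1 x.2.1, x.2.2.1, odC (rep x.2.2.1) (dd x.1) x.2.2.2)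
            (@Bool.rec (fun _ => List Ent) acc (ins (x.1, r0 x.2.1, x.2.2.1, evC (rep x.2.2.1) (dd x.1) x.2.2.2) acc) (al k x.1 (r0 x.2.1)))) (al k (Nat.add x.1 1) (r1 x.2.1)))) L

noncomputable def bfs (f : Nat) : List Ent :=
  @Nat.rec (fun _ => List Ent)
    [(0, 1, 3, Nat.add 1 (Nat.add (Nat.shiftLeft 10 64) (Nat.shiftLeft 19 128))),
     (0, 4, 1, 4),
     (0, 5, 3, Nat.add 5 (Nat.add (Nat.shiftLeft 14 64) (Nat.shiftLeft 23 128))),
     (0, 7, 3, Nat.add 7 (Nat.add (Nat.shiftLeft 16 64) (Nat.shiftLeft 25 128)))]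
    (fun k ih => bstep (Nat.succ k) ih []) f


/-- Prefix entries `(o, r, Y)` in front of `acc`. -/
noncomputable def pfx (O f : Nat) : Nat → Nat → Nat → Nat → List (Nat × Nat × Nat) → List (Nat × Nat × Nat) :=
  @Nat.rec (fun _ => Nat → Nat → Nat → Nat → List (Nat × Nat × Nat) → List (Nat × Nat × Nat))
    (fun _ o r Y acc => (o, r, Y) :: acc)
    (fun _ ih k o r Y acc =>
      @Bool.rec (fun _ => List (Nat × Nat × Nat)) (@Bool.rec (fun _ => List (Nat × Nat × Nat)) acc (ih (Nat.add k 1) (Nat.add o 1) (r1 r) (odC O (dd o) Y) acc) (al (Nat.add k 1) (Nat.add o 1) (r1 r))) (ih (Nat.add k 1) o (r0 r) (evC O (dd o) Y)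
          (@Bool.rec (fun _ => List (Nat × Nat × Nat)) acc (ih (Nat.add k 1) (Nat.add o 1) (r1 r) (odC O (dd o) Y) acc) (al (Nat.add k 1) (Nat.add o 1) (r1 r)))) (al (Nat.add k 1) o (r0 r))) f

noncomputable def nthE (i : Nat) : List Ent → Ent :=
  @Nat.rec (fun _ => List Ent → Ent)
    (fun L => @List.rec Ent (fun _ => Ent) (0, 0, 0, 0) (fun x _ _ => x) L)
    (fun _ ih L => ih (@List.rec Ent (fun _ => List Ent) [] (fun _ t _ => t) L)) i

/-- Outputs of the prefix entries number `a, .., b - 1`. -/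
noncomputable def outsR (O f k a b : Nat) (L : List (Nat × Nat × Nat)) : Nat → List Out :=
  @List.rec (Nat × Nat × Nat) (fun _ => Nat → List Out) (fun _ => [])
    (fun e _ ih i => @Bool.rec (fun _ => List Out) (ih (Nat.add i 1)) (@Bool.rec (fun _ => List Out) (dfs O f k e.1 e.2.1 e.2.2 (ih (Nat.add i 1))) [] (Nat.ble b i)) (Nat.ble a i)) L

noncomputable def chunkE (k0 : Nat) (e : Ent) (p a b c j X s bl H : Nat) : Bool :=
  go X s bl (Nat.mul c e.2.2.1) H
    (mkL (rep e.2.2.1) e.2.2.1 c j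
      (outsR (rep e.2.2.1) (Nat.sub k0 (Nat.add 16 p)) (Nat.add 16 p) a b
        (pfx (rep e.2.2.1) p 16 e.1 e.2.1 e.2.2.2 []) 0) 0 0)

/-- Octave `k0`, group `g`, prefix entries `a, .., b - 1` at level `16 + p`, `c` pieces per load,
piece `j`, target `X`, scalar fuel `s`, block fuel `bl`, hint `H`. -/
noncomputable def chunk (k0 g p a b c j X s bl H : Nat) : Bool :=
  chunkE k0 (nthE g (bfs 16)) p a b c j X s bl H

/-- Number of groups. -/
noncomputable def lenE (L : List Ent) : Nat := @List.rec Ent (fun _ => Nat) 0 (fun _ _ ih => Nat.succ ih) L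

end H86V
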