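import Mathlib
import Pool.Agent.H1.Col.Basic
import Pool.Agent.H86.V.Defs

/-!
Verification engine for `MP_374ccb_nt`: the statements to be proved on the kernel functions of
`Pool.Agent.H86.V.Defs` (core only definitions, they must not be changed: the kernel code of about
150 modules is generated for exactly these functions).

Lanes are 64 bit wide.  `lane V i` is lane number `i` of the big number `V`.

`go X s b n H L = true`: the machine `vrun` moves the `n` lanes of every load in the list `L` through
blocks of five steps of `T` and removes a lane as soon as it is seen below `X`.  Invariant of the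
machine (to be carried forward): `A, F, P, Q, R` are `< 2^(64 n)` and all their lanes are `< 2^63`
(the lanes of a load are checked to be `< 2^60` when it is loaded, the lanes of `A` are checked to be
`< 2^60` before each block).  Conclusion (proved backwards from the end, where everything is `0` and
no load is left): every nonzero lane of `A, F, P, Q, R` and of every load satisfies
`Desc X (5 b + s)`, where `b` is the number of blocks left (`s` is the fuel of the scalar descents).
-/

namespace H86V

open H1Col

/-- Lane `i`. -/
def lane (V i : ℕ) : ℕ := V / 2 ^ (64 * i) % 2 ^ 64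

/-- `y` falls below `X` within `n` steps. -/
def Desc (X n y : ℕ) : Prop := ∃ t ≤ n, T^[t] y < X

/-- The representative value of `x` at level `k`: `T^k x = yy k x + 27 * 3^(od x k) * (x / (27 * 2^k))`,
see `yy_spec` in `Cls.lean`. -/
def yy (k x : ℕ) : ℕ := T^[k] x - 27 * 3 ^ od x k * (x / (27 * 2 ^ k))

/-- The classes modulo `27` from which the enumeration starts. -/
def Root (x : ℕ) : Prop :=
  x % 27 = 1 ∨ x % 27 = 10 ∨ x % 27 = 19 ∨ x % 27 = 4 ∨ x % 27 = 5 ∨ x % 27 = 14 ∨ x % 27 = 23 ∨
  x % 27 = 7 ∨ x % 27 = 16 ∨ x % 27 = 25

/-- The class of `x` has not been removed at the levels `1, .., k`. -/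
def Alive (k x : ℕ) : Prop := ∀ i, 1 ≤ i → i ≤ k → al i (od x i) (T^[i] x % 9) = true

/-- All groups and all prefix entries of octave `k0`, piece `j`, are verified. -/
def PieceOK (k0 j X s bl : ℕ) : Prop :=
  ∀ g < 25, ∃ p ≤ 12, 16 + p ≤ k0 ∧ ∀ t < 4096, ∃ a b c H, a ≤ t ∧ t < b ∧ 0 < c ∧ c < 4096 ∧
    chunk k0 g p a b c j X s bl H = true

end H86V
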