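import Pool.Agent.H86.V.CReg

/-!
MODULE CApp (50 lines).  Gluing registers.

`lane V i = V / 2 ^ (64 i) % 2 ^ 64`, `Nat.shiftLeft_eq`.  `app_lt`: `A + B * a < a * b` for `A < a`,
`B < b` (`a = 2 ^ (64 m)`, `b = 2 ^ (64 n)`).  `app_left`: `(A + B * 2 ^ (64 m)) / 2 ^ (64 i) =
A / 2 ^ (64 i) + B * 2 ^ (64 (m - i))` (`Nat.add_mul_div_right`), and `2 ^ 64 ∣ 2 ^ (64 (m - i))`.
`app_right`: `(A + B * 2 ^ (64 m)) / 2 ^ (64 (m + i)) = (..) / 2 ^ (64 m) / 2 ^ (64 i)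
= B / 2 ^ (64 i)` (`Nat.div_div_eq_div_mul`, `Nat.div_eq_of_lt`).
`addc_spec`: `Y + c * rep n` with `Y = pk 64 (lane Y) n`, `rep_eq`, `pk_mul`, `pk_add`, `lane_pk`.
-/

namespace H86V

open H1Col

private theorem sl_eq (B k : ℕ) : Nat.shiftLeft B k = B * 2 ^ k := Nat.shiftLeft_eq B k

theorem app_lt {A B m n : ℕ} (hA : A < 2 ^ (64 * m)) (hB : B < 2 ^ (64 * n)) :
    A + Nat.shiftLeft B (64 * m) < 2 ^ (64 * (m + n)) := by
  rw [sl_eq, Nat.mul_add, pow_add]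
  generalize 2 ^ (64 * m) = a at hA ⊢
  generalize 2 ^ (64 * n) = b at hB ⊢
  calc A + B * a < a + B * a := by omega
    _ = a * (B + 1) := by ring
    _ ≤ a * b := Nat.mul_le_mul_left _ hB

theorem app_left {A B m i : ℕ} (hA : A < 2 ^ (64 * m)) (hi : i < m) :
    lane (A + Nat.shiftLeft B (64 * m)) i = lane A i := by
  obtain ⟨k, rfl⟩ : ∃ k, m = i + 1 + k := ⟨m - (i + 1), by omega⟩
  have e : A + Nat.shiftLeft B (64 * (i + 1 + k)) =
      A + 2 ^ (64 * i) * (2 ^ 64 * (2 ^ (64 * k) * B)) := by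
    rw [sl_eq, Nat.mul_add, Nat.mul_add, pow_add, pow_add, mul_one]
    ring
  rw [lane, lane, e, Nat.add_mul_div_left _ _ (by positivity), Nat.add_mul_mod_self_left]

theorem app_right {A B m : ℕ} (i : ℕ) (hA : A < 2 ^ (64 * m)) :
    lane (A + Nat.shiftLeft B (64 * m)) (m + i) = lane B i := by
  rw [lane, lane, sl_eq, Nat.mul_add, pow_add, ← Nat.div_div_eq_div_mul,
    Nat.add_mul_div_right _ _ (by positivity), Nat.div_eq_of_lt hA, Nat.zero_add]

/-- Adding the constant `c` to every lane. -/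
theorem addc_spec {n d c Y : ℕ} (hY : Ln n d Y) (hc : d + c ≤ 2 ^ 64) :
    Ln n (d + c) (Y + c * rep n) ∧ ∀ i < n, lane (Y + c * rep n) i = lane Y i + c := by
  obtain ⟨h1, h2⟩ := hY
  have e : Y + c * rep n = pk 64 (fun i => lane Y i + c) n := by
    have e1 : c * rep n = pk 64 (fun _ => c) n := by
      rw [rep_eq, Nat.mul_comm, pk_mul]
      exact pk_congr (fun i _ => by simp)
    rw [e1]
    conv_lhs => rw [eq_pk_lane h1]
    rw [pk_add]
  have hf : ∀ i < n, (fun i => lane Y i + c) i < 2 ^ 64 := fun i hi => by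
    have := h2 i hi
    simp only
    omega
  have hl : ∀ i < n, lane (Y + c * rep n) i = lane Y i + c := fun i hi => by
    rw [e, lane_pk hf hi]
  refine ⟨⟨?_, fun i hi => ?_⟩, hl⟩
  · rw [e]
    exact pk_lt hf
  · rw [hl i hi]
    have := h2 i hi
    omega

end H86V
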