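import Pool.Agent.H86.V.CApp

/-!
MODULE CIns (80 lines).  Insertion of an entry: `ins e L` glues the lanes of `e` behind those of the
first entry of `L` with the same `(o, r)`, or appends `e` at the end.

Induction on `L`; `ins e (x :: t)` unfolds by `rfl`; the three cases are
`x.1 = e.1 ∧ x.2.1 = e.2.1` (glue), otherwise `x :: ins e t`
(`cases h : Nat.beq x.1 e.1`, `Nat.eq_of_beq_eq_true`).  Lanes by `app_lt`, `app_left`, `app_right`
(lane `i ≥ len`: `i = len + (i - len)`).
`ins_new`: the new entry is represented (lane `i` of `e` is lane `len + i` of the glued one).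
`ins_old`: what was represented in `L` stays represented.
-/

namespace H86V

open H1Col

private def glu (x e : Ent) : Ent :=
  (x.1, x.2.1, x.2.2.1 + e.2.2.1, x.2.2.2 + Nat.shiftLeft e.2.2.2 (64 * x.2.2.1))

private theorem ins_cons (e x : Ent) (t : List Ent) :
    (ins e (x :: t) = x :: ins e t) ∨
      (x.1 = e.1 ∧ x.2.1 = e.2.1 ∧ ins e (x :: t) = glu x e :: t) := by
  have h0 : ins e (x :: t) = @Bool.rec (fun _ => List Ent) (x :: ins e t)
      (@Bool.rec (fun _ => List Ent) (x :: ins e t) (glu x e :: t) (Nat.beq x.2.1 e.2.1))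
      (Nat.beq x.1 e.1) := rfl
  rw [h0]
  cases h1 : Nat.beq x.1 e.1 with
  | false => exact Or.inl rfl
  | true =>
    cases h2 : Nat.beq x.2.1 e.2.1 with
    | false => exact Or.inl rfl
    | true => exact Or.inr ⟨Nat.eq_of_beq_eq_true h1, Nat.eq_of_beq_eq_true h2, rfl⟩

private theorem glu_ok {k : ℕ} {x e : Ent} (hx : EOK k x) (he : EOK k e) (h1 : x.1 = e.1) :
    EOK k (glu x e) := by
  obtain ⟨hx1, hx2, hx3⟩ := hx
  obtain ⟨he1, he2, he3⟩ := he
  refine ⟨hx1, app_lt hx2 he2, ?_⟩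
  intro i hi
  change lane (x.2.2.2 + Nat.shiftLeft e.2.2.2 (64 * x.2.2.1)) i < 27 * 3 ^ x.1
  change i < x.2.2.1 + e.2.2.1 at hi
  rcases Nat.lt_or_ge i x.2.2.1 with h | h
  · rw [app_left hx2 h]
    exact hx3 i h
  · obtain ⟨j, rfl⟩ := Nat.exists_eq_add_of_le h
    rw [app_right j hx2, h1]
    exact he3 j (by omega)

theorem ins_ok {k : ℕ} {e : Ent} {L : List Ent} (he : EOK k e) (hL : ∀ a ∈ L, EOK k a) :
    ∀ a ∈ ins e L, EOK k a := by
  induction L with
  | nil =>
    intro a ha
    change a ∈ [e] at ha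
    rw [List.mem_singleton] at ha
    rw [ha]
    exact he
  | cons x t ih =>
    have hx : EOK k x := hL x List.mem_cons_self
    have ht : ∀ a ∈ t, EOK k a := fun a ha => hL a (List.mem_cons_of_mem _ ha)
    rcases ins_cons e x t with h | ⟨h1, _, h3⟩
    · rw [h]
      intro a ha
      rcases List.mem_cons.1 ha with rfl | ha
      · exact hx
      · exact ih ht a ha
    · rw [h3]
      intro a ha
      rcases List.mem_cons.1 ha with rfl | ha
      · exact glu_ok hx he h1
      · exact ht a ha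

theorem ins_new {k x i : ℕ} {e : Ent} {L : List Ent} (hL : ∀ a ∈ L, EOK k a)
    (hi : i < e.2.2.1) (h : Rp k x i e.1 e.2.1 e.2.2.2) : HasE k x (ins e L) := by
  induction L with
  | nil => exact ⟨e, List.mem_singleton.2 rfl, i, hi, h⟩
  | cons y t ih =>
    have hy : EOK k y := hL y List.mem_cons_self
    have ht : ∀ a ∈ t, EOK k a := fun a ha => hL a (List.mem_cons_of_mem _ ha)
    rcases ins_cons e y t with h0 | ⟨h1, h2, h3⟩
    · rw [h0]
      obtain ⟨a, ha, j, hj, hr⟩ := ih ht
      exact ⟨a, List.mem_cons_of_mem _ ha, j, hj, hr⟩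
    · rw [h3]
      refine ⟨glu y e, List.mem_cons_self, y.2.2.1 + i, Nat.add_lt_add_left hi _, ?_⟩
      obtain ⟨r1', r2, r3⟩ := h
      refine ⟨h1.trans r1', h2.trans r2, ?_⟩
      change lane (y.2.2.2 + Nat.shiftLeft e.2.2.2 (64 * y.2.2.1)) (y.2.2.1 + i) = yy k x
      rw [app_right i hy.2.1]
      exact r3

theorem ins_old {k x : ℕ} {e : Ent} {L : List Ent} (hL : ∀ a ∈ L, EOK k a)
    (h : HasE k x L) : HasE k x (ins e L) := by
  induction L with
  | nil =>
    obtain ⟨a, ha, _⟩ := h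
    exact absurd ha List.not_mem_nil
  | cons y t ih =>
    have hy : EOK k y := hL y List.mem_cons_self
    have ht : ∀ a ∈ t, EOK k a := fun a ha => hL a (List.mem_cons_of_mem _ ha)
    obtain ⟨a, ha, i, hi, hr⟩ := h
    rcases ins_cons e y t with h0 | ⟨_, _, h3⟩
    · rw [h0]
      rcases List.mem_cons.1 ha with rfl | ha
      · exact ⟨a, List.mem_cons_self, i, hi, hr⟩
      · obtain ⟨b, hb, j, hj, hrb⟩ := ih ht ⟨a, ha, i, hi, hr⟩
        exact ⟨b, List.mem_cons_of_mem _ hb, j, hj, hrb⟩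
    · rw [h3]
      rcases List.mem_cons.1 ha with rfl | ha
      · refine ⟨glu a e, List.mem_cons_self, i, Nat.lt_of_lt_of_le hi (Nat.le_add_right _ _), ?_⟩
        obtain ⟨r1', r2, r3⟩ := hr
        refine ⟨r1', r2, ?_⟩
        change lane (a.2.2.2 + Nat.shiftLeft e.2.2.2 (64 * a.2.2.1)) i = yy k x
        rw [app_left hy.2.1 hi]
        exact r3
      · exact ⟨a, List.mem_cons_of_mem _ ha, i, hi, hr⟩

end H86V
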