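import Pool.Agent.H86.V.CStep
import Pool.Agent.H86.V.CIns

/-!
MODULE CBfs (100 lines).  The breadth first enumeration.

`bstep_ok`: induction on `L` generalizing `acc`: the two insertions (each under a test `al ..`, cases
on the `Bool`) keep the list admissible (`ins_ok`, `sok_even`, `sok_odd`: `EOK` of the new entry
`(o, r0 r, len, evC ..)` is `SOK len (k+1) o (evC ..)` by `Iff.rfl`/`show`).
`bstep_acc`: what is represented in `acc` stays represented (`ins_old`).
`bstep_has`: `HasE k x L` and `Al (k+1) x` give `HasE (k+1) x (bstep (k+1) L acc)`: the entry of `x`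
is the head of the list (then the child belonging to the parity of `T^[k] x` is inserted, since the
test is `Al (k+1) x`: `Rp (k+1) x i ..` by `rp_even`/`rp_odd` gives `o' = od x (k+1)` and
`r' = T^[k+1] x % 9`; `ins_new`, then `ins_old` for the other one and `bstep_acc` for the rest)
or in the tail (induction).
`bfs_spec`: induction on `k`; the root list is explicit: `lane (1 + 10 * 2^64 + 19 * 2^128) 1 = 10` etc.
by `decide` or `norm_num [lane, Nat.shiftLeft_eq]`; `yy 0 x = x % 27` and `x % 9 = x % 27 % 9`.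
-/

namespace H86V

open H1Col

/-- the even child -/
private def e0 (x : Ent) : Ent := (x.1, r0 x.2.1, x.2.2.1, evC (rep x.2.2.1) (dd x.1) x.2.2.2)

/-- the odd child -/
private def e1 (x : Ent) : Ent := (x.1 + 1, r1 x.2.1, x.2.2.1, odC (rep x.2.2.1) (dd x.1) x.2.2.2)

/-- insertion under a test -/
private noncomputable def tst (b : Bool) (e : Ent) (acc : List Ent) : List Ent :=
  @Bool.rec (fun _ => List Ent) acc (ins e acc) b

private theorem bstep_nil (k : ℕ) (acc : List Ent) : bstep k [] acc = acc := rfl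

private theorem bstep_cons (k : ℕ) (x : Ent) (t acc : List Ent) :
    bstep k (x :: t) acc = bstep k t (tst (al k (x.1 + 1) (r1 x.2.1)) (e1 x)
      (tst (al k x.1 (r0 x.2.1)) (e0 x) acc)) := rfl

private theorem tst_ok {k : ℕ} {e : Ent} {b : Bool} {acc : List Ent} (he : EOK k e)
    (ha : ∀ a ∈ acc, EOK k a) : ∀ a ∈ tst b e acc, EOK k a := by
  cases b with
  | false => exact ha
  | true => exact ins_ok he ha

private theorem tst_old {k x : ℕ} {e : Ent} {b : Bool} {acc : List Ent}
    (ha : ∀ a ∈ acc, EOK k a) (h : HasE k x acc) : HasE k x (tst b e acc) := by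
  cases b with
  | false => exact h
  | true => exact ins_old ha h

private theorem tst_new {k x i : ℕ} {e : Ent} {b : Bool} {acc : List Ent}
    (ha : ∀ a ∈ acc, EOK k a) (hi : i < e.2.2.1) (h : Rp k x i e.1 e.2.1 e.2.2.2) (hb : b = true) :
    HasE k x (tst b e acc) := by
  subst hb
  exact ins_new ha hi h

private theorem e0_ok {k : ℕ} (hk : k < 29) {x : Ent} (hx : EOK k x) : EOK (k + 1) (e0 x) :=
  sok_even hk hx

private theorem e1_ok {k : ℕ} (hk : k < 29) {x : Ent} (hx : EOK k x) : EOK (k + 1) (e1 x) :=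
  sok_odd hk hx

theorem bstep_ok {k : ℕ} (hk : k < 29) {L acc : List Ent} (hL : ∀ a ∈ L, EOK k a)
    (ha : ∀ a ∈ acc, EOK (k + 1) a) : ∀ a ∈ bstep (k + 1) L acc, EOK (k + 1) a := by
  induction L generalizing acc with
  | nil => exact ha
  | cons x t ih =>
    have hx : EOK k x := hL x List.mem_cons_self
    have ht : ∀ a ∈ t, EOK k a := fun a h => hL a (List.mem_cons_of_mem _ h)
    rw [bstep_cons]
    exact ih ht (tst_ok (e1_ok hk hx) (tst_ok (e0_ok hk hx) ha))

private theorem bstep_acc {k x : ℕ} (hk : k < 29) {L acc : List Ent} (hL : ∀ a ∈ L, EOK k a)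
    (ha : ∀ a ∈ acc, EOK (k + 1) a) (h : HasE (k + 1) x acc) :
    HasE (k + 1) x (bstep (k + 1) L acc) := by
  induction L generalizing acc with
  | nil => exact h
  | cons y t ih =>
    have hy : EOK k y := hL y List.mem_cons_self
    have ht : ∀ a ∈ t, EOK k a := fun a h => hL a (List.mem_cons_of_mem _ h)
    rw [bstep_cons]
    have h0 := tst_ok (b := al (k + 1) y.1 (r0 y.2.1)) (e0_ok hk hy) ha
    exact ih ht (tst_ok (e1_ok hk hy) h0) (tst_old h0 (tst_old ha h))

theorem bstep_has {k x : ℕ} (hk : k < 29) {L acc : List Ent} (hL : ∀ a ∈ L, EOK k a)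
    (ha : ∀ a ∈ acc, EOK (k + 1) a) (h : HasE k x L) (hx : Al (k + 1) x) :
    HasE (k + 1) x (bstep (k + 1) L acc) := by
  induction L generalizing acc with
  | nil =>
    obtain ⟨a, h1, _⟩ := h
    exact absurd h1 List.not_mem_nil
  | cons y t ih =>
    have hy : EOK k y := hL y List.mem_cons_self
    have ht : ∀ a ∈ t, EOK k a := fun a h => hL a (List.mem_cons_of_mem _ h)
    rw [bstep_cons]
    have h0 := tst_ok (b := al (k + 1) y.1 (r0 y.2.1)) (e0_ok hk hy) ha
    have h1 := tst_ok (b := al (k + 1) (y.1 + 1) (r1 y.2.1)) (e1_ok hk hy) h0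
    obtain ⟨a, ham, i, hi, hr⟩ := h
    rcases List.mem_cons.1 ham with rfl | ham
    · refine bstep_acc hk ht h1 ?_
      rcases Nat.mod_two_eq_zero_or_one (T^[k] x) with hp | hp
      · have hq := rp_even hk hy hi hp hr
        refine tst_old h0 (tst_new ha hi hq ?_)
        obtain ⟨q1, q2, _⟩ := hq
        rw [q1, q2]
        exact hx
      · have hq := rp_odd hk hy hi hp hr
        refine tst_new h0 hi hq ?_
        obtain ⟨q1, q2, _⟩ := hq
        rw [q1, q2]
        exact hx
    · exact ih ht h1 ⟨a, ham, i, hi, hr⟩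

private theorem bfs_succ (k : ℕ) : bfs (k + 1) = bstep (k + 1) (bfs k) [] := rfl

private theorem bfs_zero : bfs 0 =
    [(0, 1, 3, Nat.add 1 (Nat.add (Nat.shiftLeft 10 64) (Nat.shiftLeft 19 128))),
     (0, 4, 1, 4),
     (0, 5, 3, Nat.add 5 (Nat.add (Nat.shiftLeft 14 64) (Nat.shiftLeft 23 128))),
     (0, 7, 3, Nat.add 7 (Nat.add (Nat.shiftLeft 16 64) (Nat.shiftLeft 25 128)))] := rfl

theorem bfs_ok {k : ℕ} (hk : k ≤ 29) : ∀ a ∈ bfs k, EOK k a := by
  induction k with
  | zero =>
    intro a ha
    rw [bfs_zero] at ha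
    simp only [List.mem_cons, List.not_mem_nil, or_false] at ha
    rcases ha with rfl | rfl | rfl | rfl
    · refine ⟨le_refl _, ?_, ?_⟩
      · decide
      · unfold lane
        decide
    · refine ⟨le_refl _, ?_, ?_⟩
      · decide
      · unfold lane
        decide
    · refine ⟨le_refl _, ?_, ?_⟩
      · decide
      · unfold lane
        decide
    · refine ⟨le_refl _, ?_, ?_⟩
      · decide
      · unfold lane
        decide
  | succ k ih =>
    rw [bfs_succ]
    exact bstep_ok (by omega) (ih (by omega)) (fun a ha => absurd ha List.not_mem_nil)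

private theorem yy_zero (x : ℕ) : yy 0 x = x % 27 := by
  unfold yy
  rw [od_zero, Function.iterate_zero, id_eq, pow_zero, pow_zero, mul_one]
  omega

private theorem rp_zero {x i r Y : ℕ} (h1 : r = x % 27 % 9) (h2 : lane Y i = x % 27) : Rp 0 x i 0 r Y := by
  refine ⟨rfl, ?_, ?_⟩
  · rw [Function.iterate_zero, id_eq, h1]
    omega
  · rw [h2, yy_zero]

theorem bfs_has {k x : ℕ} (hk : k ≤ 29) (hr : Root x) (ha : Alive k x) : HasE k x (bfs k) := by
  induction k with
  | zero =>
    rw [bfs_zero]
    rcases hr with h | h | h | h | h | h | h | h | h | h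
    · exact ⟨_, List.mem_cons_self, 0, by decide, rp_zero (by rw [h]) (by rw [h]; unfold lane; decide)⟩
    · exact ⟨_, List.mem_cons_self, 1, by decide, rp_zero (by rw [h]) (by rw [h]; unfold lane; decide)⟩
    · exact ⟨_, List.mem_cons_self, 2, by decide, rp_zero (by rw [h]) (by rw [h]; unfold lane; decide)⟩
    · exact ⟨_, List.mem_cons_of_mem _ List.mem_cons_self, 0, by decide,
        rp_zero (by rw [h]) (by rw [h]; unfold lane; decide)⟩
    · exact ⟨_, List.mem_cons_of_mem _ (List.mem_cons_of_mem _ List.mem_cons_self), 0, by decide,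
        rp_zero (by rw [h]) (by rw [h]; unfold lane; decide)⟩
    · exact ⟨_, List.mem_cons_of_mem _ (List.mem_cons_of_mem _ List.mem_cons_self), 1, by decide,
        rp_zero (by rw [h]) (by rw [h]; unfold lane; decide)⟩
    · exact ⟨_, List.mem_cons_of_mem _ (List.mem_cons_of_mem _ List.mem_cons_self), 2, by decide,
        rp_zero (by rw [h]) (by rw [h]; unfold lane; decide)⟩
    · exact ⟨_, List.mem_cons_of_mem _ (List.mem_cons_of_mem _ (List.mem_cons_of_mem _
        List.mem_cons_self)), 0, by decide, rp_zero (by rw [h]) (by rw [h]; unfold lane; decide)⟩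
    · exact ⟨_, List.mem_cons_of_mem _ (List.mem_cons_of_mem _ (List.mem_cons_of_mem _
        List.mem_cons_self)), 1, by decide, rp_zero (by rw [h]) (by rw [h]; unfold lane; decide)⟩
    · exact ⟨_, List.mem_cons_of_mem _ (List.mem_cons_of_mem _ (List.mem_cons_of_mem _
        List.mem_cons_self)), 2, by decide, rp_zero (by rw [h]) (by rw [h]; unfold lane; decide)⟩
  | succ k ih =>
    rw [bfs_succ]
    exact bstep_has (by omega) (bfs_ok (by omega)) (fun a ha => absurd ha List.not_mem_nil)
      (ih (by omega) (fun i h1 h2 => ha i h1 (by omega))) (ha (k + 1) (by omega) (le_refl _))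

end H86V
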