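import Pool.Agent.H86.V.CPfx

/-!
MODULE CDfs (100 lines).  `dfs` and the outputs `outsR`.

`dfs_eq`: induction on `f` generalizing `k o r Y acc` (both unfold by `rfl`, cases on the two `Bool`s).
Every list of pairs `(o, Y)` is `List.map (fun e => (e.1, e.2.2))` of a list of triples
(`(o, 0, Y)`), so `pfx_acc`, `pfx_ok`, `pfx_has` give `dfs_acc`, `dfs_ok`, `dfs_has`.
`outsR_ok`, `outsR_has`: induction on `L` generalizing `i0`; `outsR O f k a b (e :: L) i0` unfolds by
`rfl` to: if `a ≤ i0` then (if `b ≤ i0` then `[]` else `dfs O f k e.1 e.2.1 e.2.2 (rest)`) else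
`rest`, with `rest = outsR O f k a b L (i0 + 1)`.  In `outsR_has` the entry number `t` of the list has
index `i0 + t` with `a ≤ i0 + t < b`.
-/

namespace H86V

open H1Col

theorem dfs_eq (O f k o r Y : ℕ) (acc : List (ℕ × ℕ × ℕ)) :
    dfs O f k o r Y (acc.map fun e => (e.1, e.2.2)) =
      (pfx O f k o r Y acc).map fun e => (e.1, e.2.2) := by
  induction f generalizing k o r Y acc with
  | zero => rfl
  | succ f ih =>
    have hd : ∀ A : List Out, dfs O (f + 1) k o r Y A =
        @Bool.rec (fun _ => List Out)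
          (@Bool.rec (fun _ => List Out) A (dfs O f (k + 1) (o + 1) (r1 r) (odC O (dd o) Y) A)
            (al (k + 1) (o + 1) (r1 r)))
          (dfs O f (k + 1) o (r0 r) (evC O (dd o) Y)
            (@Bool.rec (fun _ => List Out) A (dfs O f (k + 1) (o + 1) (r1 r) (odC O (dd o) Y) A)
              (al (k + 1) (o + 1) (r1 r)))) (al (k + 1) o (r0 r)) := fun _ => rfl
    have hp : pfx O (f + 1) k o r Y acc =
        @Bool.rec (fun _ => List (ℕ × ℕ × ℕ))
          (@Bool.rec (fun _ => List (ℕ × ℕ × ℕ)) acc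
            (pfx O f (k + 1) (o + 1) (r1 r) (odC O (dd o) Y) acc)
            (al (k + 1) (o + 1) (r1 r)))
          (pfx O f (k + 1) o (r0 r) (evC O (dd o) Y)
            (@Bool.rec (fun _ => List (ℕ × ℕ × ℕ)) acc
              (pfx O f (k + 1) (o + 1) (r1 r) (odC O (dd o) Y) acc)
              (al (k + 1) (o + 1) (r1 r)))) (al (k + 1) o (r0 r)) := rfl
    rw [hd, hp]
    cases al (k + 1) (o + 1) (r1 r) with
    | false =>
      cases al (k + 1) o (r0 r) with
      | false => rfl
      | true => exact ih (k + 1) o (r0 r) (evC O (dd o) Y) acc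
    | true =>
      cases al (k + 1) o (r0 r) with
      | false => exact ih (k + 1) (o + 1) (r1 r) (odC O (dd o) Y) acc
      | true =>
        change dfs O f (k + 1) o (r0 r) (evC O (dd o) Y)
            (dfs O f (k + 1) (o + 1) (r1 r) (odC O (dd o) Y) (acc.map fun e => (e.1, e.2.2))) =
          (pfx O f (k + 1) o (r0 r) (evC O (dd o) Y)
            (pfx O f (k + 1) (o + 1) (r1 r) (odC O (dd o) Y) acc)).map fun e => (e.1, e.2.2)
        rw [ih (k + 1) (o + 1) (r1 r) (odC O (dd o) Y) acc]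
        exact ih (k + 1) o (r0 r) (evC O (dd o) Y) _

private theorem lift_acc (acc : List Out) :
    acc = (acc.map fun p => (p.1, 0, p.2)).map fun e : ℕ × ℕ × ℕ => (e.1, e.2.2) := by
  induction acc with
  | nil => rfl
  | cons a t ih => exact congrArg (List.cons a) ih

private theorem dfs_lift (O f k o r Y : ℕ) (acc : List Out) :
    dfs O f k o r Y acc =
      (pfx O f k o r Y (acc.map fun p => (p.1, 0, p.2))).map fun e => (e.1, e.2.2) := by
  rw [← dfs_eq]
  exact congrArg (dfs O f k o r Y) (lift_acc acc)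

theorem dfs_acc {O f k o r Y : ℕ} {acc : List Out} {e : Out} (he : e ∈ acc) :
    e ∈ dfs O f k o r Y acc := by
  rw [dfs_lift, List.mem_map]
  exact ⟨(e.1, 0, e.2), pfx_acc (List.mem_map.2 ⟨e, he, rfl⟩), rfl⟩

theorem dfs_ok {n f k o r Y : ℕ} {acc : List Out} (hk : k + f ≤ 29) (h : SOK n k o Y)
    (ha : ∀ e ∈ acc, SOK n (k + f) e.1 e.2) :
    ∀ e ∈ dfs (rep n) f k o r Y acc, SOK n (k + f) e.1 e.2 := by
  intro e he
  rw [dfs_lift, List.mem_map] at he
  obtain ⟨p, hp, rfl⟩ := he
  refine pfx_ok hk h ?_ p hp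
  intro q hq
  obtain ⟨s, hs, rfl⟩ := List.mem_map.1 hq
  exact ha s hs

theorem dfs_has {n f k o r Y x i : ℕ} {acc : List Out} (hk : k + f ≤ 29)
    (h : SOK n k o Y) (hi : i < n) (hr : Rp k x i o r Y)
    (hx : ∀ j, k < j → j ≤ k + f → Al j x) :
    ∃ e ∈ dfs (rep n) f k o r Y acc, e.1 = od x (k + f) ∧ lane e.2 i = yy (k + f) x := by
  obtain ⟨p, hp, h1, _, h3⟩ :=
    pfx_has (acc := acc.map fun p => (p.1, 0, p.2)) hk h hi hr hx
  refine ⟨(p.1, p.2.2), ?_, h1, h3⟩
  rw [dfs_lift]
  exact List.mem_map.2 ⟨p, hp, rfl⟩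

private theorem outsR_cons (O f k a b i0 : ℕ) (e : ℕ × ℕ × ℕ) (L : List (ℕ × ℕ × ℕ)) :
    outsR O f k a b (e :: L) i0 =
      @Bool.rec (fun _ => List Out) (outsR O f k a b L (i0 + 1))
        (@Bool.rec (fun _ => List Out)
          (dfs O f k e.1 e.2.1 e.2.2 (outsR O f k a b L (i0 + 1))) [] (Nat.ble b i0))
        (Nat.ble a i0) := rfl

theorem outsR_ok {n f k a b i0 : ℕ} {L : List (ℕ × ℕ × ℕ)} (hk : k + f ≤ 29)
    (hL : ∀ e ∈ L, SOK n k e.1 e.2.2) :
    ∀ e ∈ outsR (rep n) f k a b L i0, SOK n (k + f) e.1 e.2 := by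
  induction L generalizing i0 with
  | nil =>
    intro e he
    exact absurd he List.not_mem_nil
  | cons y t ih =>
    have hy : SOK n k y.1 y.2.2 := hL y List.mem_cons_self
    have ht := ih (i0 := i0 + 1) fun e he => hL e (List.mem_cons_of_mem _ he)
    rw [outsR_cons]
    cases Nat.ble a i0 with
    | false => exact ht
    | true =>
      cases Nat.ble b i0 with
      | false => exact dfs_ok hk hy ht
      | true =>
        intro e he
        exact absurd he List.not_mem_nil

theorem outsR_has {n f k a b i0 t x i : ℕ} {L : List (ℕ × ℕ × ℕ)} {e : ℕ × ℕ × ℕ}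
    (hk : k + f ≤ 29) (hL : ∀ e ∈ L, SOK n k e.1 e.2.2) (ht : L[t]? = some e)
    (ha : a ≤ i0 + t) (hb : i0 + t < b) (hi : i < n) (hr : Rp k x i e.1 e.2.1 e.2.2)
    (hx : ∀ j, k < j → j ≤ k + f → Al j x) :
    ∃ p ∈ outsR (rep n) f k a b L i0, p.1 = od x (k + f) ∧ lane p.2 i = yy (k + f) x := by
  induction L generalizing i0 t with
  | nil => simp at ht
  | cons y s ih =>
    rw [outsR_cons]
    have hbf : Nat.ble b i0 = false := by
      cases hh : Nat.ble b i0 with
      | false => rfl
      | true =>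
        have := Nat.le_of_ble_eq_true hh
        omega
    cases t with
    | zero =>
      have hy : y = e := by simpa using ht
      have hat : Nat.ble a i0 = true := Nat.ble_eq_true_of_le (by omega)
      rw [hat, hbf]
      subst hy
      exact dfs_has hk (hL y List.mem_cons_self) hi hr hx
    | succ t =>
      have ht' : s[t]? = some e := by simpa using ht
      obtain ⟨p, hp, h1, h2⟩ := ih (i0 := i0 + 1) (t := t)
        (fun e he => hL e (List.mem_cons_of_mem _ he)) ht' (by omega) (by omega)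
      cases Nat.ble a i0 with
      | false => exact ⟨p, hp, h1, h2⟩
      | true =>
        rw [hbf]
        exact ⟨p, dfs_acc hp, h1, h2⟩

end H86V
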