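import Pool.Agent.H86.V.CReg

/-!
MODULE CLn (90 lines).  The two children on the lanes.

Write `Y = pk 64 f n`, `f = lane Y` (`eq_pk_lane`), `rep n = pk 64 (fun _ => 1) n` (`rep_eq`).
`Nat.land Y O = pk 64 (fun i => f i % 2) n` (see the first lines of `stp_pk` in `MStp.lean`),
`pk_mul`, `pk_add`, `pk_sub` give
`evC = pk 64 (fun i => f i + d * (f i % 2)) n >>> 1`; `f i + d * (f i % 2)` is even (`d` odd), it is
`2 * ((f i + d * (f i % 2)) / 2)`, so `pk_half` gives the lanes; `lane_pk` for the reading, all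
numbers stay below `8 * 2 ^ 52 < 2 ^ 64`.
`odC = pk 64 (fun i => 3 * (f i + d - d * (f i % 2)) + 1) n >>> 1`, again even (`f i + d - d (f i % 2)`
is odd), and `f i + d - d * (f i % 2) = f i + d * (1 - f i % 2)`.
Bounds: `(f + d (f % 2)) / 2 < d` and `(3 (f + d (1 - f % 2)) + 1) / 2 < 3 d` for `f < d`, `d` odd
(the number `f + d (1 - f % 2)` is odd and `< 2 d`, hence `≤ 2 d - 1`).
-/

namespace H86V

open H1Col

private theorem land_rep {n : ℕ} {f : ℕ → ℕ} (hf : ∀ i < n, f i < 2 ^ 64) :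
    pk 64 f n &&& rep n = pk 64 (fun i => f i % 2) n := by
  rw [rep_eq, pk_land hf (fun i _ => Nat.one_lt_two_pow (by omega))]
  exact pk_congr fun i _ => land_one_eq _

private theorem ev_pk {n d : ℕ} {f : ℕ → ℕ} (hd : d % 2 = 1) (hf : ∀ i < n, f i < 2 ^ 64) :
    evC (rep n) d (pk 64 f n) = pk 64 (fun i => (f i + d * (f i % 2)) / 2) n := by
  show (pk 64 f n + d * (pk 64 f n &&& rep n)) >>> 1 = _
  rw [land_rep hf, Nat.mul_comm d, pk_mul, pk_add, Nat.shiftRight_eq_div_pow, pow_one]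
  have hh : ∀ i < n, f i + f i % 2 * d = 2 * ((f i + d * (f i % 2)) / 2) := by
    intro i _
    rcases Nat.mod_two_eq_zero_or_one (f i) with e | e
    · rw [e]
      omega
    · rw [e]
      omega
  rw [pk_congr hh, pk_half]

private theorem od_pk {n d : ℕ} {f : ℕ → ℕ} (hd : d % 2 = 1) (hf : ∀ i < n, f i < 2 ^ 64) :
    odC (rep n) d (pk 64 f n) = pk 64 (fun i => (3 * (f i + d * (1 - f i % 2)) + 1) / 2) n := by
  show (3 * (pk 64 f n + d * rep n - d * (pk 64 f n &&& rep n)) + rep n) >>> 1 = _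
  have e1 : d * rep n = pk 64 (fun _ => d) n := by
    rw [rep_eq, Nat.mul_comm, pk_const_mul]
  have e2 : d * (pk 64 f n &&& rep n) = pk 64 (fun i => f i % 2 * d) n := by
    rw [land_rep hf, Nat.mul_comm, pk_mul]
  have hs : ∀ i < n, f i % 2 * d ≤ f i + d := by
    intro i _
    rcases Nat.mod_two_eq_zero_or_one (f i) with e | e
    · rw [e]
      omega
    · rw [e]
      omega
  rw [e1, e2, pk_add, pk_sub hs, Nat.mul_comm 3, pk_mul, rep_eq, pk_add,
    Nat.shiftRight_eq_div_pow, pow_one]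
  have hh : ∀ i < n, (f i + d - f i % 2 * d) * 3 + 1 =
      2 * ((3 * (f i + d * (1 - f i % 2)) + 1) / 2) := by
    intro i _
    rcases Nat.mod_two_eq_zero_or_one (f i) with e | e
    · rw [e]
      omega
    · rw [e]
      omega
  rw [pk_congr hh, pk_half]

theorem evC_spec {n d Y : ℕ} (hd : d % 2 = 1) (hd' : d < 2 ^ 52) (hY : Ln n d Y) :
    Ln n d (evC (rep n) d Y) ∧
      ∀ i < n, lane (evC (rep n) d Y) i = (lane Y i + d * (lane Y i % 2)) / 2 := by
  have h1 : evC (rep n) d Y = pk 64 (fun i => (lane Y i + d * (lane Y i % 2)) / 2) n := by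
    conv_lhs => rw [eq_pk_lane hY.1]
    exact ev_pk hd (fun i _ => lane_lt Y i)
  have hb : ∀ i < n, (lane Y i + d * (lane Y i % 2)) / 2 < d := by
    intro i hi
    have h2 := hY.2 i hi
    rcases Nat.mod_two_eq_zero_or_one (lane Y i) with e | e
    · rw [e]
      omega
    · rw [e]
      omega
  have hb' : ∀ i < n, (lane Y i + d * (lane Y i % 2)) / 2 < 2 ^ 64 := fun i hi =>
    lt_trans (hb i hi) (lt_trans hd' (by norm_num))
  have h3 : ∀ i < n, lane (evC (rep n) d Y) i = (lane Y i + d * (lane Y i % 2)) / 2 := by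
    intro i hi
    rw [h1]
    exact lane_pk hb' hi
  refine ⟨⟨?_, fun i hi => ?_⟩, h3⟩
  · rw [h1]
    exact pk_lt hb'
  · rw [h3 i hi]
    exact hb i hi

theorem odC_spec {n d Y : ℕ} (hd : d % 2 = 1) (hd' : d < 2 ^ 52) (hY : Ln n d Y) :
    Ln n (3 * d) (odC (rep n) d Y) ∧
      ∀ i < n, lane (odC (rep n) d Y) i = (3 * (lane Y i + d * (1 - lane Y i % 2)) + 1) / 2 := by
  have h1 : odC (rep n) d Y =
      pk 64 (fun i => (3 * (lane Y i + d * (1 - lane Y i % 2)) + 1) / 2) n := by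
    conv_lhs => rw [eq_pk_lane hY.1]
    exact od_pk hd (fun i _ => lane_lt Y i)
  have hb : ∀ i < n, (3 * (lane Y i + d * (1 - lane Y i % 2)) + 1) / 2 < 3 * d := by
    intro i hi
    have h2 := hY.2 i hi
    rcases Nat.mod_two_eq_zero_or_one (lane Y i) with e | e
    · rw [e]
      omega
    · rw [e]
      omega
  have hb' : ∀ i < n, (3 * (lane Y i + d * (1 - lane Y i % 2)) + 1) / 2 < 2 ^ 64 := by
    intro i hi
    have h2 := hb i hi
    omega
  have h3 : ∀ i < n, lane (odC (rep n) d Y) i =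
      (3 * (lane Y i + d * (1 - lane Y i % 2)) + 1) / 2 := by
    intro i hi
    rw [h1]
    exact lane_pk hb' hi
  refine ⟨⟨?_, fun i hi => ?_⟩, h3⟩
  · rw [h1]
    exact pk_lt hb'
  · rw [h3 i hi]
    exact hb i hi

end H86V
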