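import Pool.Agent.H86.V.CApp

/-!
MODULE CMk (90 lines).  The loads.

`mkL Ol l c j (p :: L) i acc` unfolds by `rfl`: with
`W = p.2 + j * dd p.1 * Ol` and `acc' = acc + W <<< (64 * l * i)` it is `acc' :: mkL .. L 0 0` if
`i + 1 = c` and `mkL .. L (i + 1) acc'` otherwise; `mkL .. [] i acc = if i = 0 then [] else [acc]`.
Here `Ol = rep l`; `W` has the lanes `lane p.2 i0 + j * dd p.1` (`addc_spec` with `d = 27 * 3 ^ p.1`,
`c = j * dd p.1`, `d + c ≤ 9 * 27 * 3 ^ 29 < 2 ^ 56`); gluing by `app_lt`, `app_left`, `app_right`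
with `m = l * i` (`64 * l * i = 64 * (l * i)`, `l * (i + 1) = l * i + l`).
`mkL_acc` (the accumulator survives, for `i > 0`) and `mkL_has` by induction on `L` generalizing
`i acc`; in `mkL_has` the lane of `p` is `l * i' + i0` for the position `i'` of `p` in its load, and
`l * i' + i0 < l * c ` since `i' < c`.
-/

namespace H86V

open H1Col

private theorem mk_nil {Ol l c j i acc : ℕ} (hi : 0 < i) : mkL Ol l c j [] i acc = [acc] := by
  have h : mkL Ol l c j [] i acc = @Bool.rec (fun _ => List ℕ) [acc] [] (Nat.beq i 0) := rfl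
  have h2 : Nat.beq i 0 = false := by
    cases i with
    | zero => omega
    | succ n => rfl
  rw [h, h2]

private theorem mk_end {Ol l c j i acc : ℕ} {p : Out} {L : List Out} (hi : i + 1 = c) :
    mkL Ol l c j (p :: L) i acc =
      (acc + Nat.shiftLeft (p.2 + j * dd p.1 * Ol) (64 * (l * i))) :: mkL Ol l c j L 0 0 := by
  have h : mkL Ol l c j (p :: L) i acc = @Bool.rec (fun _ => List ℕ)
      (mkL Ol l c j L (i + 1) (acc + Nat.shiftLeft (p.2 + j * dd p.1 * Ol) (64 * l * i)))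
      ((acc + Nat.shiftLeft (p.2 + j * dd p.1 * Ol) (64 * l * i)) :: mkL Ol l c j L 0 0)
      (Nat.beq (i + 1) c) := rfl
  have h2 : Nat.beq (i + 1) c = true := by rw [hi]; exact Nat.beq_refl c
  rw [h, h2, Nat.mul_assoc 64 l i]

private theorem mk_next {Ol l c j i acc : ℕ} {p : Out} {L : List Out} (hi : i + 1 ≠ c) :
    mkL Ol l c j (p :: L) i acc =
      mkL Ol l c j L (i + 1) (acc + Nat.shiftLeft (p.2 + j * dd p.1 * Ol) (64 * (l * i))) := by
  have h : mkL Ol l c j (p :: L) i acc = @Bool.rec (fun _ => List ℕ)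
      (mkL Ol l c j L (i + 1) (acc + Nat.shiftLeft (p.2 + j * dd p.1 * Ol) (64 * l * i)))
      ((acc + Nat.shiftLeft (p.2 + j * dd p.1 * Ol) (64 * l * i)) :: mkL Ol l c j L 0 0)
      (Nat.beq (i + 1) c) := rfl
  have h2 : Nat.beq (i + 1) c = false := by
    cases hb : Nat.beq (i + 1) c with
    | false => rfl
    | true => exact absurd (Nat.eq_of_beq_eq_true hb) hi
  rw [h, h2, Nat.mul_assoc 64 l i]

private theorem mk_W {l j : ℕ} {p : Out} (hj : j ≤ 8) (hp : SOK l 29 p.1 p.2) :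
    p.2 + j * dd p.1 * rep l < 2 ^ (64 * l) ∧
      ∀ i0 < l, lane (p.2 + j * dd p.1 * rep l) i0 = lane p.2 i0 + j * dd p.1 := by
  obtain ⟨h1, h2⟩ := hp
  have hd : dd p.1 = 27 * 3 ^ p.1 := rfl
  have h3 : 3 ^ p.1 ≤ 3 ^ 29 := Nat.pow_le_pow_right (by norm_num) h1
  have h4 : 27 * 3 ^ p.1 + j * dd p.1 ≤ 2 ^ 64 := by
    rw [hd]
    have h5 : j * (27 * 3 ^ p.1) ≤ 8 * (27 * 3 ^ 29) :=
      Nat.mul_le_mul hj (Nat.mul_le_mul_left _ h3)
    have h6 : 27 * 3 ^ p.1 ≤ 27 * 3 ^ 29 := Nat.mul_le_mul_left _ h3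
    have h7 : 27 * 3 ^ 29 + 8 * (27 * 3 ^ 29) ≤ 2 ^ 64 := by norm_num
    omega
  obtain ⟨h8, h9⟩ := addc_spec h2 h4
  exact ⟨h8.1, h9⟩

private theorem mk_acc' {l j i acc : ℕ} {p : Out} (hj : j ≤ 8) (hp : SOK l 29 p.1 p.2)
    (ha : acc < 2 ^ (64 * (l * i))) :
    acc + Nat.shiftLeft (p.2 + j * dd p.1 * rep l) (64 * (l * i)) < 2 ^ (64 * (l * (i + 1))) := by
  have h1 := app_lt ha (mk_W hj hp).1
  rw [Nat.mul_add l i 1, Nat.mul_one]
  exact h1

theorem mkL_acc {l c j i acc : ℕ} {L : List Out} (hc : 0 < c) (hi : i < c) (hi' : 0 < i)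
    (hj : j ≤ 8) (hL : ∀ p ∈ L, SOK l 29 p.1 p.2) (ha : acc < 2 ^ (64 * (l * i))) :
    ∃ V ∈ mkL (rep l) l c j L i acc, ∀ m < l * i, lane V m = lane acc m := by
  induction L generalizing i acc with
  | nil =>
    rw [mk_nil hi']
    exact ⟨acc, List.mem_singleton_self _, fun _ _ => rfl⟩
  | cons p L ih =>
    have hp : SOK l 29 p.1 p.2 := hL p List.mem_cons_self
    have hL' : ∀ q ∈ L, SOK l 29 q.1 q.2 := fun q hq => hL q (List.mem_cons_of_mem _ hq)
    by_cases hic : i + 1 = c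
    · rw [mk_end hic]
      exact ⟨_, List.mem_cons_self, fun m hm => app_left ha hm⟩
    · rw [mk_next hic]
      obtain ⟨V, hV, hVm⟩ := ih (i := i + 1) (by omega) (by omega) hL' (mk_acc' hj hp ha)
      refine ⟨V, hV, fun m hm => ?_⟩
      rw [hVm m (lt_of_lt_of_le hm (Nat.mul_le_mul_left _ (Nat.le_succ i)))]
      exact app_left ha hm

theorem mkL_has {l c j i acc i0 : ℕ} {L : List Out} {p : Out} (hc : 0 < c) (hi : i < c)
    (hj : j ≤ 8) (hL : ∀ p ∈ L, SOK l 29 p.1 p.2) (ha : acc < 2 ^ (64 * (l * i)))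
    (hp : p ∈ L) (h0 : i0 < l) :
    ∃ V ∈ mkL (rep l) l c j L i acc, ∃ m < c * l, lane V m = lane p.2 i0 + j * dd p.1 := by
  induction L generalizing i acc with
  | nil => exact absurd hp List.not_mem_nil
  | cons q L ih =>
    have hq : SOK l 29 q.1 q.2 := hL q List.mem_cons_self
    have hL' : ∀ q ∈ L, SOK l 29 q.1 q.2 := fun q hq => hL q (List.mem_cons_of_mem _ hq)
    have hacc := mk_acc' (i := i) hj hq ha
    have hle : l * i + i0 < l * (i + 1) := by
      rw [Nat.mul_add l i 1, Nat.mul_one]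
      omega
    have hlc : l * (i + 1) ≤ c * l := by
      rw [Nat.mul_comm c l]
      exact Nat.mul_le_mul_left _ hi
    rcases List.mem_cons.mp hp with rfl | hpL
    · have hlane : lane (acc + Nat.shiftLeft (p.2 + j * dd p.1 * rep l) (64 * (l * i)))
          (l * i + i0) = lane p.2 i0 + j * dd p.1 := by
        rw [app_right i0 ha, (mk_W hj hq).2 i0 h0]
      by_cases hic : i + 1 = c
      · rw [mk_end hic]
        exact ⟨_, List.mem_cons_self, l * i + i0, by omega, hlane⟩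
      · rw [mk_next hic]
        obtain ⟨V, hV, hVm⟩ := mkL_acc (i := i + 1) hc (by omega) (by omega) hj hL' hacc
        refine ⟨V, hV, l * i + i0, by omega, ?_⟩
        rw [hVm _ hle, hlane]
    · by_cases hic : i + 1 = c
      · rw [mk_end hic]
        obtain ⟨V, hV, m, hm, hVm⟩ := ih (i := 0) (acc := 0) hc hL' (by positivity) hpL
        exact ⟨V, List.mem_cons_of_mem _ hV, m, hm, hVm⟩
      · rw [mk_next hic]
        exact ih (i := i + 1) (by omega) hL' hacc hpL

end H86V
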