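import Pool.Agent.H86.V.CReg

/-!
MODULE CNth (30 lines).  `nthE i L` is entry number `i`.  Induction on `L`: `nthE 0 (x :: t) = x`,
`nthE (i + 1) (x :: t) = nthE i t`, `lenE (x :: t) = lenE t + 1`, all by `rfl`.
-/

namespace H86V

theorem nthE_mem {L : List Ent} {e : Ent} (h : e ∈ L) : ∃ i < lenE L, nthE i L = e := by
  induction L with
  | nil => exact absurd h (List.not_mem_nil)
  | cons x t ih =>
      rcases List.mem_cons.mp h with h | h
      · subst h
        exact ⟨0, Nat.succ_pos _, rfl⟩
      · obtain ⟨i, hi, h1⟩ := ih h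
        exact ⟨i + 1, Nat.succ_lt_succ hi, h1⟩

end H86V
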