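import Pool.Agent.H86.V.CStep

/-!
MODULE CPfx (110 lines).  The depth first enumeration `pfx`.

All by induction on `f` generalizing everything; `pfx O (f + 1) k o r Y acc` unfolds by `rfl`:
`acc1 = if al (k+1) (o+1) (r1 r) then pfx O f (k+1) (o+1) (r1 r) (odC ..) acc else acc` and
then `if al (k+1) o (r0 r) then pfx O f (k+1) o (r0 r) (evC ..) acc1 else acc1`
(cases on the two `Bool`s `al ..`).
`pfx_has`: if `T^[k] x` is even, then `al (k+1) o (r0 r) = true` (this is `Al (k+1) x` read through
`rp_even`) and the induction hypothesis applies to the even child; if it is odd, it applies to the odd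
child, and the even child keeps its accumulator (`pfx_acc`).
-/

namespace H86V

open H1Col

private theorem pfx_zero {O k o r Y : ℕ} {acc : List (ℕ × ℕ × ℕ)} :
    pfx O 0 k o r Y acc = (o, r, Y) :: acc := rfl

/-- the accumulator after the odd child -/
private noncomputable def acc1 (O f k o r Y : ℕ) (acc : List (ℕ × ℕ × ℕ)) : List (ℕ × ℕ × ℕ) :=
  if al (k + 1) (o + 1) (r1 r) = true then pfx O f (k + 1) (o + 1) (r1 r) (odC O (dd o) Y) acc else acc

private theorem pfx_succ {O f k o r Y : ℕ} {acc : List (ℕ × ℕ × ℕ)} :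
    pfx O (f + 1) k o r Y acc =
      if al (k + 1) o (r0 r) = true then
        pfx O f (k + 1) o (r0 r) (evC O (dd o) Y) (acc1 O f k o r Y acc)
      else acc1 O f k o r Y acc := by
  have h : pfx O (f + 1) k o r Y acc =
      @Bool.rec (fun _ => List (Nat × Nat × Nat))
        (@Bool.rec (fun _ => List (Nat × Nat × Nat)) acc
          (pfx O f (k + 1) (o + 1) (r1 r) (odC O (dd o) Y) acc) (al (k + 1) (o + 1) (r1 r)))
        (pfx O f (k + 1) o (r0 r) (evC O (dd o) Y)
          (@Bool.rec (fun _ => List (Nat × Nat × Nat)) acc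
            (pfx O f (k + 1) (o + 1) (r1 r) (odC O (dd o) Y) acc) (al (k + 1) (o + 1) (r1 r))))
        (al (k + 1) o (r0 r)) := rfl
  rw [h]
  unfold acc1
  cases h1 : al (k + 1) (o + 1) (r1 r) <;> cases h2 : al (k + 1) o (r0 r) <;> simp

theorem pfx_acc {O f k o r Y : ℕ} {acc : List (ℕ × ℕ × ℕ)} {e : ℕ × ℕ × ℕ} (he : e ∈ acc) :
    e ∈ pfx O f k o r Y acc := by
  induction f generalizing k o r Y acc with
  | zero => rw [pfx_zero]; exact List.mem_cons_of_mem _ he
  | succ f ih =>
    have h1 : e ∈ acc1 O f k o r Y acc := by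
      unfold acc1
      split_ifs
      · exact ih he
      · exact he
    rw [pfx_succ]
    split_ifs
    · exact ih h1
    · exact h1

theorem pfx_length {O f k o r Y : ℕ} {acc : List (ℕ × ℕ × ℕ)} :
    (pfx O f k o r Y acc).length ≤ 2 ^ f + acc.length := by
  induction f generalizing k o r Y acc with
  | zero => rw [pfx_zero]; simp [Nat.add_comm]
  | succ f ih =>
    have h1 : (acc1 O f k o r Y acc).length ≤ 2 ^ f + acc.length := by
      unfold acc1
      have : 0 < 2 ^ f := by positivity
      split_ifs
      · exact ih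
      · omega
    rw [pfx_succ, pow_succ]
    split_ifs
    · refine ih.trans ?_
      omega
    · have : 0 < 2 ^ f := by positivity
      omega

theorem pfx_ok {n f k o r Y : ℕ} {acc : List (ℕ × ℕ × ℕ)} (hk : k + f ≤ 29) (h : SOK n k o Y)
    (ha : ∀ e ∈ acc, SOK n (k + f) e.1 e.2.2) :
    ∀ e ∈ pfx (rep n) f k o r Y acc, SOK n (k + f) e.1 e.2.2 := by
  induction f generalizing k o r Y acc with
  | zero =>
    intro e he
    rw [pfx_zero, List.mem_cons] at he
    rcases he with rfl | he
    · exact h
    · exact ha e he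
  | succ f ih =>
    have e1 : k + (f + 1) = k + 1 + f := by omega
    have h1 : ∀ e ∈ acc1 (rep n) f k o r Y acc, SOK n (k + 1 + f) e.1 e.2.2 := by
      unfold acc1
      split_ifs
      · exact ih (by omega) (sok_odd (by omega) h) (by rw [← e1]; exact ha)
      · rw [← e1]; exact ha
    rw [pfx_succ, e1]
    split_ifs
    · exact ih (by omega) (sok_even (by omega) h) h1
    · exact h1

theorem pfx_has {n f k o r Y x i : ℕ} {acc : List (ℕ × ℕ × ℕ)} (hk : k + f ≤ 29)
    (h : SOK n k o Y) (hi : i < n) (hr : Rp k x i o r Y)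
    (hx : ∀ j, k < j → j ≤ k + f → Al j x) :
    ∃ e ∈ pfx (rep n) f k o r Y acc, Rp (k + f) x i e.1 e.2.1 e.2.2 := by
  induction f generalizing k o r Y acc with
  | zero => exact ⟨(o, r, Y), by rw [pfx_zero]; exact List.mem_cons_self, hr⟩
  | succ f ih =>
    have e1 : k + (f + 1) = k + 1 + f := by omega
    have hA : Al (k + 1) x := hx (k + 1) (by omega) (by omega)
    have hx' : ∀ j, k + 1 < j → j ≤ k + 1 + f → Al j x := fun j h1 h2 => hx j (by omega) (by omega)
    rw [pfx_succ, e1]
    rcases Nat.mod_two_eq_zero_or_one (T^[k] x) with h0 | h0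
    · have hr' := rp_even (by omega) h hi h0 hr
      have hal : al (k + 1) o (r0 r) = true := by
        have := hA
        unfold Al at this
        rw [← hr'.1, ← hr'.2.1] at this
        exact this
      rw [if_pos hal]
      exact ih (by omega) (sok_even (by omega) h) hr' hx'
    · have hr' := rp_odd (by omega) h hi h0 hr
      have hal : al (k + 1) (o + 1) (r1 r) = true := by
        have := hA
        unfold Al at this
        rw [← hr'.1, ← hr'.2.1] at this
        exact this
      obtain ⟨e, he, he'⟩ := ih (acc := acc) (by omega) (sok_odd (by omega) h) hr' hx'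
      have h2 : e ∈ acc1 (rep n) f k o r Y acc := by
        unfold acc1
        rw [if_pos hal]
        exact he
      refine ⟨e, ?_, he'⟩
      split_ifs
      · exact pfx_acc h2
      · exact h2

end H86V
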