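import Pool.Agent.H86.V.MLane

/-!
PART 2 of the engine (`piece_sound`), chair helper60.  Definitions of this part.

A state of the class enumeration at level `k` consists of `o` (number of odd steps), `r` (residue
modulo `9`) and a register `Y` of `n` lanes, lane `i` being `yy k x` for one class `x`.
-/

namespace H86V

open H1Col

/-- `n` lanes, all of them below `d`. -/
def Ln (n d V : ℕ) : Prop := V < 2 ^ (64 * n) ∧ ∀ i < n, lane V i < d

/-- An admissible state at level `k`. -/
def SOK (n k o Y : ℕ) : Prop := o ≤ k ∧ Ln n (27 * 3 ^ o) Y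

/-- Lane `i` of the state `(o, r, Y)` belongs to `x` at level `k`. -/
def Rp (k x i o r Y : ℕ) : Prop := o = od x k ∧ r = T^[k] x % 9 ∧ lane Y i = yy k x

/-- The class of `x` is not removed at level `k`. -/
def Al (k x : ℕ) : Prop := al k (od x k) (T^[k] x % 9) = true

/-- An admissible entry of the breadth first list. -/
def EOK (k : ℕ) (e : Ent) : Prop := SOK e.2.2.1 k e.1 e.2.2.2

/-- `x` is represented in the list `L` of entries at level `k`. -/
def HasE (k x : ℕ) (L : List Ent) : Prop :=
  ∃ e ∈ L, ∃ i < e.2.2.1, Rp k x i e.1 e.2.1 e.2.2.2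

end H86V
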