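import Pool.Agent.H86.V.CYy
import Pool.Agent.H86.V.CLn

/-!
MODULE CStep (70 lines).  One step of the class enumeration.

`dd o = 27 * 3 ^ o` (`rfl` after `unfold dd`), odd, and `< 2 ^ 52` for `o ≤ 29`
(`Nat.pow_le_pow_right`, `27 * 3 ^ 29 < 2 ^ 52` by `norm_num`).
`sok_even`, `sok_odd`: from `evC_spec`, `odC_spec` (`27 * 3 ^ (o + 1) = 3 * (27 * 3 ^ o)`).
`rp_even`: `od x (k+1) = od x k + T^[k] x % 2` (`od_succ`), `T^[k+1] x = T (T^[k] x)` (`iter_succ`),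
`2 * T z = z` for `z` even (`two_T_even`), hence `T z % 9 = 5 * (z % 9) % 9` (`omega`);
`yy_even` and `evC_spec`.  `rp_odd`: `2 * T z = 3 * z + 1`, `T z % 9 = 5 * (3 * (z % 9) + 1) % 9`.
-/

namespace H86V

open H1Col

theorem dd_eq (o : ℕ) : dd o = 27 * 3 ^ o := rfl

theorem dd_odd (o : ℕ) : dd o % 2 = 1 := by
  rw [dd_eq]
  exact Nat.odd_iff.1 ((by decide : Odd 27).mul (Odd.pow (by decide)))

theorem dd_lt {o : ℕ} (h : o ≤ 29) : dd o < 2 ^ 52 := by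
  rw [dd_eq]
  have h1 : 3 ^ o ≤ 3 ^ 29 := Nat.pow_le_pow_right (by norm_num) h
  have h2 : 27 * 3 ^ 29 < 2 ^ 52 := by norm_num
  omega

theorem sok_even {n k o Y : ℕ} (hk : k < 29) (h : SOK n k o Y) :
    SOK n (k + 1) o (evC (rep n) (dd o) Y) := by
  obtain ⟨h1, h2⟩ := h
  exact ⟨by omega, (evC_spec (dd_odd o) (dd_lt (by omega)) h2).1⟩

theorem sok_odd {n k o Y : ℕ} (hk : k < 29) (h : SOK n k o Y) :
    SOK n (k + 1) (o + 1) (odC (rep n) (dd o) Y) := by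
  obtain ⟨h1, h2⟩ := h
  refine ⟨by omega, ?_⟩
  have h3 := (odC_spec (dd_odd o) (dd_lt (by omega)) h2).1
  have e : 3 * dd o = 27 * 3 ^ (o + 1) := by
    rw [dd_eq]
    ring
  rw [e] at h3
  exact h3

theorem rp_even {n k o r x i Y : ℕ} (hk : k < 29) (h : SOK n k o Y) (hi : i < n)
    (hx : T^[k] x % 2 = 0) (hr : Rp k x i o r Y) :
    Rp (k + 1) x i o (r0 r) (evC (rep n) (dd o) Y) := by
  obtain ⟨h1, h2⟩ := h
  obtain ⟨r1, r2, r3⟩ := hr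
  refine ⟨?_, ?_, ?_⟩
  · rw [od_succ, hx, Nat.add_zero]
    exact r1
  · rw [iter_succ]
    show 5 * r % 9 = _
    rw [r2]
    have h3 := two_T_even hx
    omega
  · rw [(evC_spec (dd_odd o) (dd_lt (by omega)) h2).2 i hi, yy_even hx, r3, dd_eq, r1]

theorem rp_odd {n k o r x i Y : ℕ} (hk : k < 29) (h : SOK n k o Y) (hi : i < n)
    (hx : T^[k] x % 2 = 1) (hr : Rp k x i o r Y) :
    Rp (k + 1) x i (o + 1) (r1 r) (odC (rep n) (dd o) Y) := by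
  obtain ⟨h1, h2⟩ := h
  obtain ⟨q1, q2, q3⟩ := hr
  refine ⟨?_, ?_, ?_⟩
  · rw [od_succ, hx, q1]
  · rw [iter_succ]
    show 5 * (3 * r + 1) % 9 = _
    rw [q2]
    have h3 := two_T_odd hx
    omega
  · rw [(odC_spec (dd_odd o) (dd_lt (by omega)) h2).2 i hi, yy_odd hx, q3, dd_eq, q1]

end H86V
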