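import Pool.Agent.H86.V.MReg

/-!
MODULE MDesc (50 lines).  Descents.

`desc X f y` unfolds by `Nat.rec` on `f`: at `f + 1` it is `true` if `y < X`, otherwise
`desc X f (T y)`; at `0` it is `false`.
-/

namespace H86V

open H1Col

private theorem next_eq (y : ℕ) :
    (@Bool.rec (fun _ => Nat) (Nat.shiftRight (Nat.add (Nat.mul 3 y) 1) 1)
        (Nat.shiftRight y 1) (Nat.beq (Nat.land y 1) 0) : ℕ) = T y := by
  have h1 : Nat.land y 1 = y % 2 := Nat.and_one_is_mod y
  unfold T
  rw [h1]
  rcases Nat.mod_two_eq_zero_or_one y with h | h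
  · rw [h]
    show Nat.shiftRight y 1 = _
    rw [if_pos rfl]
    exact Nat.shiftRight_eq_div_pow y 1
  · rw [h]
    show Nat.shiftRight (Nat.add (Nat.mul 3 y) 1) 1 = _
    rw [if_neg (by norm_num)]
    exact Nat.shiftRight_eq_div_pow (3 * y + 1) 1

theorem desc_sound {X f y : ℕ} (h : desc X f y = true) : Desc X f y := by
  induction f generalizing y with
  | zero => exact absurd h Bool.false_ne_true
  | succ f ih =>
    by_cases hy : y < X
    · exact ⟨0, Nat.zero_le _, hy⟩
    · have hb : Nat.ble X y = true := Nat.ble_eq_true_of_le (Nat.le_of_not_lt hy)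
      have h2 : desc X (f + 1) y = @Bool.rec (fun _ => Bool) true
          (desc X f (@Bool.rec (fun _ => Nat) (Nat.shiftRight (Nat.add (Nat.mul 3 y) 1) 1)
            (Nat.shiftRight y 1) (Nat.beq (Nat.land y 1) 0))) (Nat.ble X y) := rfl
      rw [h2, hb] at h
      have h3 : desc X f (T y) = true := by
        rw [← next_eq]
        exact h
      obtain ⟨t, ht, h4⟩ := ih h3
      exact ⟨t + 1, by omega, by rw [Function.iterate_succ_apply]; exact h4⟩

theorem Desc.mono {X m m' y : ℕ} (h : Desc X m y) (hm : m ≤ m') : Desc X m' y := by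
  obtain ⟨t, ht, h1⟩ := h
  exact ⟨t, ht.trans hm, h1⟩

theorem desc_zero {X m : ℕ} (hX : 0 < X) : Desc X m 0 := by
  exact ⟨0, Nat.zero_le _, hX⟩

theorem Desc.of_iter {X m k y : ℕ} (h : Desc X m (T^[k] y)) : Desc X (k + m) y := by
  obtain ⟨t, ht, h1⟩ := h
  refine ⟨t + k, by omega, ?_⟩
  rw [Function.iterate_add_apply]
  exact h1

end H86V
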