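import Pool.Agent.H86.V.CBfs
import Pool.Agent.H86.V.CDfs
import Pool.Agent.H86.V.CMk
import Pool.Agent.H86.V.CNth
import Pool.Agent.H86.V.MDesc

/-!
MODULE CTop (main of PART 2, helper60).
-/

namespace H86V

open H1Col

theorem piece_sound_of {k0 j X s bl : ℕ} (hk : 16 ≤ k0) (hk' : k0 ≤ 29) (hj' : j ≤ 8)
    (hgo : ∀ {n H : ℕ} {L : List ℕ}, go X s bl n H L = true → ∀ V ∈ L, V < 2 ^ (64 * n) ∧
      ∀ i < n, lane V i < 2 ^ 60 ∧ Desc X (5 * bl + s) (lane V i))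
    (hlen : lenE (bfs 16) ≤ 25)
    (h : PieceOK k0 j X s bl) {x : ℕ} (hx : x / (27 * 2 ^ k0) = j)
    (hr : Root x) (ha : Alive k0 x) : Desc X (k0 + 5 * bl + s) x := by
  -- the group of `x`
  have ha16 : Alive 16 x := fun i h1 h2 => ha i h1 (by omega)
  obtain ⟨e, he, i0, hi0, hrp⟩ := bfs_has (k := 16) (by norm_num) hr ha16
  obtain ⟨g, hg, hge⟩ := nthE_mem he
  have heok : SOK e.2.2.1 16 e.1 e.2.2.2 := bfs_ok (k := 16) (by norm_num) e he
  obtain ⟨p, hp, hpk, hall⟩ := h g (by omega)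
  -- the prefix entry
  have hkp : 16 + p ≤ 29 := by omega
  obtain ⟨e1, he1, hr1⟩ := pfx_has (f := p) (acc := []) hkp heok hi0 hrp
    (fun j h1 h2 => ha j (by omega) (by omega))
  have hok1 : ∀ a ∈ pfx (rep e.2.2.1) p 16 e.1 e.2.1 e.2.2.2 [], SOK e.2.2.1 (16 + p) a.1 a.2.2 :=
    pfx_ok hkp heok (by simp)
  obtain ⟨t, ht, hte⟩ := List.mem_iff_getElem.mp he1
  have htl : t < 4096 := by
    have h1 : (pfx (rep e.2.2.1) p 16 e.1 e.2.1 e.2.2.2 []).length ≤ 2 ^ p + ([] : List (ℕ × ℕ × ℕ)).length :=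
      pfx_length
    have h2 : 2 ^ p ≤ 2 ^ 12 := Nat.pow_le_pow_right (by norm_num) hp
    have h3 : ([] : List (ℕ × ℕ × ℕ)).length = 0 := rfl
    rw [h3] at h1
    have h4 : (2 : ℕ) ^ 12 = 4096 := by norm_num
    omega
  have hte' : (pfx (rep e.2.2.1) p 16 e.1 e.2.1 e.2.2.2 [])[t]? = some e1 := by
    rw [List.getElem?_eq_getElem ht, hte]
  obtain ⟨a, b, c, H, hat, htb, hc, -, hch⟩ := hall t htl
  -- the output
  have hf : 16 + p + (k0 - (16 + p)) = k0 := by omega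
  have hkf : 16 + p + (k0 - (16 + p)) ≤ 29 := by omega
  obtain ⟨o, ho, ho1, ho2⟩ := outsR_has (f := k0 - (16 + p)) (a := a) (b := b) (i0 := 0) (x := x)
    (i := i0) hkf hok1 hte' (by omega) (by omega) hi0 hr1
    (fun j h1 h2 => ha j (by omega) (by omega))
  have hok2 : ∀ q ∈ outsR (rep e.2.2.1) (k0 - (16 + p)) (16 + p) a b
      (pfx (rep e.2.2.1) p 16 e.1 e.2.1 e.2.2.2 []) 0, SOK e.2.2.1 29 q.1 q.2 := by
    intro q hq
    have h1 := outsR_ok (a := a) (b := b) hkf hok1 q hq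
    exact ⟨le_trans h1.1 hkf, h1.2⟩
  rw [hf] at ho1 ho2
  obtain ⟨V, hV, m, hm, hVm⟩ := mkL_has (j := j) (i := 0) (acc := 0) hc hc hj' hok2
    (by simp) ho hi0
  -- the machine
  have hch2 : chunkE k0 e p a b c j X s bl H = true := by
    have h1 : chunkE k0 (nthE g (bfs 16)) p a b c j X s bl H = true := hch
    rwa [hge] at h1
  have hg2 := (hgo hch2 V hV).2 m hm
  have hT : lane V m = T^[k0] x := by
    rw [hVm, ho2, ho1, dd_eq, (yy_spec k0 x).1, hx, Nat.mul_comm j]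
  rw [hT] at hg2
  have h5 := hg2.2.of_iter
  rwa [← Nat.add_assoc] at h5

end H86V
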