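import Pool.Agent.H86.V.CReg

/-!
MODULE CYy (70 lines).  The recurrence of `yy`.

`q k = x / (27 * 2 ^ k)`, `d k = 27 * 3 ^ (od x k)` (odd).
`yy_spec` by induction on `k`: at `0` it is `Nat.mod_add_div` (`yy 0 x = x - 27 * (x / 27) = x % 27`).
Step: `x / (27 * 2 ^ (k+1)) = q k / 2` (`Nat.div_div_eq_div_mul`), write `q k = 2 q' + e`, `e < 2`.
If `T^[k] x = y + d (2 q' + e)` is even then `y + d e` is even and `T^[k+1] x = (y + d e) / 2 + d q'`
with `(y + d e) / 2 < d`.  If it is odd then `y + d e` is odd and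
`T^[k+1] x = (3 (y + d e) + 1) / 2 + 3 d q'` with `(3 (y + d e) + 1) / 2 < 3 d`.
(`d` is odd, hence `e = y % 2` resp. `e = 1 - y % 2`: this gives `yy_even`, `yy_odd`.)
A good way: prove first a lemma for natural numbers `t y d q` with `t = y + d * q`, `y < d`, `d % 2 = 1`
(cases `q = 2 q'`, `q = 2 q' + 1`; `d = 2 m + 1`; `ring_nf`/`omega` after naming the products).
-/

namespace H86V

open H1Col

private lemma step_even {t y d q : ℕ} (ht : t = y + d * q) (hy : y < d) (hd : d % 2 = 1)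
    (h : t % 2 = 0) :
    T t = (y + d * (y % 2)) / 2 + d * (q / 2) ∧ (y + d * (y % 2)) / 2 < d := by
  rw [T_even h]
  obtain ⟨q', hq | hq⟩ := Nat.even_or_odd' q
  · have e1 : d * q = 2 * (d * q') := by rw [hq]; ring
    have e2 : q / 2 = q' := by omega
    have e3 : y % 2 = 0 := by omega
    rw [e2, e3]
    omega
  · have e1 : d * q = 2 * (d * q') + d := by rw [hq]; ring
    have e2 : q / 2 = q' := by omega
    have e3 : y % 2 = 1 := by omega
    rw [e2, e3]
    omega

private lemma step_odd {t y d q : ℕ} (ht : t = y + d * q) (hy : y < d) (hd : d % 2 = 1)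
    (h : t % 2 = 1) :
    T t = (3 * (y + d * (1 - y % 2)) + 1) / 2 + 3 * d * (q / 2) ∧
      (3 * (y + d * (1 - y % 2)) + 1) / 2 < 3 * d := by
  rw [T_odd h]
  obtain ⟨q', hq | hq⟩ := Nat.even_or_odd' q
  · have e1 : d * q = 2 * (d * q') := by rw [hq]; ring
    have e4 : 3 * d * q' = 3 * (d * q') := by ring
    have e2 : q / 2 = q' := by omega
    have e3 : 1 - y % 2 = 0 := by omega
    rw [e2, e3, e4]
    omega
  · have e1 : d * q = 2 * (d * q') + d := by rw [hq]; ring
    have e4 : 3 * d * q' = 3 * (d * q') := by ring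
    have e2 : q / 2 = q' := by omega
    have e3 : 1 - y % 2 = 1 := by omega
    rw [e2, e3, e4]
    omega

private lemma q_step (k x : ℕ) : x / (27 * 2 ^ (k + 1)) = x / (27 * 2 ^ k) / 2 := by
  rw [Nat.div_div_eq_div_mul, pow_succ, mul_assoc]

private lemma d_odd (o : ℕ) : 27 * 3 ^ o % 2 = 1 := by
  have : Odd (27 * 3 ^ o) := (by decide : Odd 27).mul (Odd.pow (by decide))
  exact Nat.odd_iff.1 this

private lemma yy_of {k x y : ℕ} (h : T^[k] x = y + 27 * 3 ^ od x k * (x / (27 * 2 ^ k))) :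
    yy k x = y := by
  rw [yy, h, Nat.add_sub_cancel]

private lemma next_even {k x y : ℕ} (h0 : T^[k] x % 2 = 0)
    (h : T^[k] x = y + 27 * 3 ^ od x k * (x / (27 * 2 ^ k))) (hy : y < 27 * 3 ^ od x k) :
    T^[k + 1] x = (y + 27 * 3 ^ od x k * (y % 2)) / 2 +
        27 * 3 ^ od x (k + 1) * (x / (27 * 2 ^ (k + 1))) ∧
      (y + 27 * 3 ^ od x k * (y % 2)) / 2 < 27 * 3 ^ od x (k + 1) := by
  have h1 := step_even h hy (d_odd _) h0
  rw [iter_succ, od_succ, h0, q_step, Nat.add_zero]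
  exact h1

private lemma next_odd {k x y : ℕ} (h0 : T^[k] x % 2 = 1)
    (h : T^[k] x = y + 27 * 3 ^ od x k * (x / (27 * 2 ^ k))) (hy : y < 27 * 3 ^ od x k) :
    T^[k + 1] x = (3 * (y + 27 * 3 ^ od x k * (1 - y % 2)) + 1) / 2 +
        27 * 3 ^ od x (k + 1) * (x / (27 * 2 ^ (k + 1))) ∧
      (3 * (y + 27 * 3 ^ od x k * (1 - y % 2)) + 1) / 2 < 27 * 3 ^ od x (k + 1) := by
  have h1 := step_odd h hy (d_odd _) h0
  have e : 27 * 3 ^ (od x k + 1) = 3 * (27 * 3 ^ od x k) := by ring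
  rw [iter_succ, od_succ, h0, q_step, e]
  exact h1

/-- `T^[k] x = yy k x + d q` with `yy k x < d`. -/
theorem yy_spec (k x : ℕ) :
    T^[k] x = yy k x + 27 * 3 ^ od x k * (x / (27 * 2 ^ k)) ∧ yy k x < 27 * 3 ^ od x k := by
  induction k with
  | zero =>
      have h : T^[0] x = x % 27 + 27 * 3 ^ od x 0 * (x / (27 * 2 ^ 0)) := by
        simp only [Function.iterate_zero, id_eq, od_zero, pow_zero, mul_one]
        omega
      rw [yy_of h]
      refine ⟨h, ?_⟩
      simp only [od_zero, pow_zero, mul_one]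
      omega
  | succ k ih =>
      obtain ⟨h1, h2⟩ := ih
      rcases Nat.mod_two_eq_zero_or_one (T^[k] x) with h0 | h0
      · have h3 := next_even h0 h1 h2
        rw [yy_of h3.1]
        exact h3
      · have h3 := next_odd h0 h1 h2
        rw [yy_of h3.1]
        exact h3

theorem yy_even {k x : ℕ} (h : T^[k] x % 2 = 0) :
    yy (k + 1) x = (yy k x + 27 * 3 ^ od x k * (yy k x % 2)) / 2 := by
  obtain ⟨h1, h2⟩ := yy_spec k x
  exact yy_of (next_even h h1 h2).1

theorem yy_odd {k x : ℕ} (h : T^[k] x % 2 = 1) :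
    yy (k + 1) x = (3 * (yy k x + 27 * 3 ^ od x k * (1 - yy k x % 2)) + 1) / 2 := by
  obtain ⟨h1, h2⟩ := yy_spec k x
  exact yy_of (next_odd h h1 h2).1

end H86V
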