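import Pool.Agent.H86.V.MGe

/-!
MODULE MCmp (60 lines).  Moving lanes into empty lanes.

`keepY (rep n) x y = y &&& geM (rep n) 1 x = pk (if 1 ≤ lane x i then lane y i else 0)`
(`geM_pk` with `X = 1`, `pk_land`), so `x + (y - w) = pk (if 1 ≤ lane x i then lane x i else lane y i)`
(`pk_sub`, `pk_add`), then `lane_pk`, `reg_pk`.
-/

namespace H86V

open H1Col

theorem cmp_spec {n x y : ℕ} (hx : Reg n x) (hy : Reg n y) :
    Reg n (x + (y - keepY (rep n) x y)) ∧ Reg n (keepY (rep n) x y) ∧ ∀ i < n,
      (lane x i ≠ 0 → lane (x + (y - keepY (rep n) x y)) i = lane x i ∧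
        lane (keepY (rep n) x y) i = lane y i) ∧
      (lane x i = 0 → lane (x + (y - keepY (rep n) x y)) i = lane y i) := by
  classical
  have hxl : ∀ i < n, lane x i < 2 ^ 64 := fun i _ => lane_lt x i
  have hyl : ∀ i < n, lane y i < 2 ^ 64 := fun i _ => lane_lt y i
  have hx1 : x = pk 64 (lane x) n := eq_pk_lane hx.1
  have hy1 : y = pk 64 (lane y) n := eq_pk_lane hy.1
  -- the part which stays
  have hw : keepY (rep n) x y = pk 64 (fun i => if 1 ≤ lane x i then lane y i else 0) n := by
    have h1 : geM (rep n) 1 x = pk 64 (fun i => if 1 ≤ lane x i then 2 ^ 63 - 1 else 0) n := by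
      conv_lhs => rw [hx1]
      exact geM_pk (by norm_num) (by norm_num) hx.2
    have h2 : keepY (rep n) x y = y &&& geM (rep n) 1 x := rfl
    rw [h2, h1]
    conv_lhs => rw [hy1]
    rw [pk_land hyl (fun i _ => by split_ifs <;> norm_num)]
    apply pk_congr
    intro i hi
    by_cases h : 1 ≤ lane x i
    · simp only [h, if_true]
      rw [Nat.and_two_pow_sub_one_eq_mod]
      exact Nat.mod_eq_of_lt (hy.2 i hi)
    · simp only [h, if_false]
      exact Nat.and_zero _
  have hs : x + (y - keepY (rep n) x y) =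
      pk 64 (fun i => if 1 ≤ lane x i then lane x i else lane y i) n := by
    rw [hw]
    conv_lhs => rw [hx1, hy1]
    have h3 : ∀ i < n, (fun i => if 1 ≤ lane x i then lane y i else 0) i ≤ lane y i := by
      intro i _
      by_cases h : 1 ≤ lane x i
      · simp [h]
      · simp [h]
    have h4 : pk 64 (fun i => if 1 ≤ lane (pk 64 (lane x) n) i then
        lane (pk 64 (lane y) n) i else 0) n = pk 64 (fun i => if 1 ≤ lane x i then lane y i else 0) n := by
      rw [← hx1, ← hy1]
    rw [h4, pk_sub h3, pk_add]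
    apply pk_congr
    intro i _
    by_cases h : 1 ≤ lane x i
    · simp [h]
    · have h0 : lane x i = 0 := by omega
      simp [h0]
  have hb1 : ∀ i < n, (fun i => if 1 ≤ lane x i then lane x i else lane y i) i < 2 ^ 63 := by
    intro i hi
    by_cases h : 1 ≤ lane x i
    · simp only [h, if_true]; exact hx.2 i hi
    · simp only [h, if_false]; exact hy.2 i hi
  have hb2 : ∀ i < n, (fun i => if 1 ≤ lane x i then lane y i else 0) i < 2 ^ 63 := by
    intro i hi
    by_cases h : 1 ≤ lane x i
    · simp only [h, if_true]; exact hy.2 i hi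
    · simp only [h, if_false]; norm_num
  have hc1 : ∀ i < n, (fun i => if 1 ≤ lane x i then lane x i else lane y i) i < 2 ^ 64 :=
    fun i hi => (hb1 i hi).trans (by norm_num)
  have hc2 : ∀ i < n, (fun i => if 1 ≤ lane x i then lane y i else 0) i < 2 ^ 64 :=
    fun i hi => (hb2 i hi).trans (by norm_num)
  refine ⟨?_, ?_, ?_⟩
  · rw [hs]; exact reg_pk hb1
  · rw [hw]; exact reg_pk hb2
  · intro i hi
    have e1 : lane (x + (y - keepY (rep n) x y)) i = if 1 ≤ lane x i then lane x i else lane y i := by
      rw [hs]; exact lane_pk hc1 hi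
    have e2 : lane (keepY (rep n) x y) i = if 1 ≤ lane x i then lane y i else 0 := by
      rw [hw]; exact lane_pk hc2 hi
    refine ⟨fun h => ?_, fun h => ?_⟩
    · have h1 : 1 ≤ lane x i := by omega
      rw [e1, e2, if_pos h1, if_pos h1]
      exact ⟨rfl, rfl⟩
    · have h1 : ¬ 1 ≤ lane x i := by omega
      rw [e1, if_neg h1]

/-- The form used for the instructions: `p` is any property of lanes with `p 0`. -/
theorem cmp_all {n x y : ℕ} (hx : Reg n x) (hy : Reg n y) {p : ℕ → Prop} (hp : p 0)
    (h1 : AllL n p (x + (y - keepY (rep n) x y))) (h2 : AllL n p (keepY (rep n) x y)) :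
    AllL n p x ∧ AllL n p y := by
  obtain ⟨-, -, h⟩ := cmp_spec hx hy
  refine ⟨fun i hi => ?_, fun i hi => ?_⟩
  · by_cases h0 : lane x i = 0
    · rw [h0]; exact hp
    · have := h1 i hi
      rw [((h i hi).1 h0).1] at this
      exact this
  · by_cases h0 : lane x i = 0
    · have := h1 i hi
      rw [(h i hi).2 h0] at this
      exact this
    · have := h2 i hi
      rw [((h i hi).1 h0).2] at this
      exact this

end H86V
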