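import Pool.Agent.H86.V.MRun

/-!
MODULE MDall (100 lines).  Direct runs.

`iota1_eq`: `rep n * rep n = pk (fun i => if i < n then i + 1 else 2 n - 1 - i) (2 n)`; all coefficients are
`≤ n < 2 ^ 64`; the land with `msk * rep n = 2 ^ (64 n) - 1` is the reduction modulo `2 ^ (64 n)`, so it is
enough that `rep n * rep n ≡ pk 64 (fun i => i + 1) n` modulo `2 ^ (64 n)`.  By induction on `n`
(`pk_succ`): `rep (n + 1) = rep n + w ^ n` with `w = 2 ^ 64`, so
`rep (n + 1) ^ 2 = rep n ^ 2 + 2 * rep n * w ^ n + w ^ (2 n)`; easier: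
`rep n * rep n = ∑ i < n, w ^ i * rep n` and `w ^ i * rep n ≡ w ^ i * rep (n - i) = ∑ i ≤ j < n, w ^ j`
modulo `w ^ n`; the sum over `i ≤ j` of `w ^ j` is `∑ j < n, (j + 1) w ^ j`.
`dload`: lanes `x + 6 (i + 1)` (`pk_mul`, `pk_add`), all `< 2 ^ 60`.
`dall_sound_aux`: induction on `Hs` (generalizing `x`), `go_sound_aux` for `[dload n x]` with `s = 0`.
-/

namespace H86V

open H1Col

private theorem md_rep (n : ℕ) :
    ((2 : ℤ) ^ 64 - 1) * (pk 64 (fun _ => 1) n : ℕ) = (2 : ℤ) ^ (64 * n) - 1 := by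
  induction n with
  | zero => simp
  | succ n ih =>
    rw [pk_succ]
    push_cast
    have e : (2 : ℤ) ^ (64 * (n + 1)) = (2 : ℤ) ^ 64 * (2 : ℤ) ^ (64 * n) := by
      rw [← pow_add]
      ring
    rw [e]
    linear_combination ih

private theorem md_iota (n : ℕ) :
    ((2 : ℤ) ^ 64 - 1) * (pk 64 (fun i => i + 1) n : ℕ) =
      n * (2 : ℤ) ^ (64 * n) - (pk 64 (fun _ => 1) n : ℕ) := by
  induction n with
  | zero => simp
  | succ n ih =>
    rw [pk_succ, pk_succ]
    push_cast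
    have e : (2 : ℤ) ^ (64 * (n + 1)) = (2 : ℤ) ^ 64 * (2 : ℤ) ^ (64 * n) := by
      rw [← pow_add]
      ring
    rw [e]
    linear_combination ih

private theorem md_dvd (n : ℕ) :
    (2 : ℤ) ^ (64 * n) ∣ ((pk 64 (fun _ => 1) n : ℕ) : ℤ) * (pk 64 (fun _ => 1) n : ℕ) -
      (pk 64 (fun i => i + 1) n : ℕ) := by
  have h1 := md_rep n
  have h2 := md_iota n
  have hc : IsCoprime ((2 : ℤ) ^ (64 * n)) (((2 : ℤ) ^ 64 - 1) ^ 2) := by
    apply IsCoprime.pow_right
    rw [pow_mul]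
    apply IsCoprime.pow_left
    exact ⟨1, -1, by ring⟩
  apply hc.dvd_of_dvd_mul_left
  refine ⟨(2 : ℤ) ^ (64 * n) - 1 - ((2 : ℤ) ^ 64 - 1) * n, ?_⟩
  linear_combination (((2 : ℤ) ^ 64 - 1) * ((pk 64 (fun _ => 1) n : ℕ) : ℤ)
    + ((2 : ℤ) ^ (64 * n) - 1) + 1) * h1 - ((2 : ℤ) ^ 64 - 1) * h2

theorem iota1_eq {n : ℕ} (hn : n ≤ 100000) : iota1 n = pk 64 (fun i => i + 1) n := by
  have hlt : pk 64 (fun i => i + 1) n < 2 ^ (64 * n) := by
    apply pk_lt
    intro i hi
    have : i + 1 < 100001 := by omega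
    exact this.trans (by norm_num)
  have e : iota1 n = (rep n * rep n) &&& (msk * rep n) := rfl
  rw [e, msk_mul_rep, Nat.and_two_pow_sub_one_eq_mod, rep_eq]
  have h : (pk 64 (fun _ => 1) n * pk 64 (fun _ => 1) n) ≡ pk 64 (fun i => i + 1) n
      [MOD 2 ^ (64 * n)] := by
    rw [Nat.modEq_iff_dvd]
    have h3 := md_dvd n
    push_cast
    rw [← neg_sub, dvd_neg]
    exact h3
  rw [← Nat.mod_eq_of_lt hlt]
  rw [Nat.mod_eq_of_lt hlt]
  have h4 : pk 64 (fun _ => 1) n * pk 64 (fun _ => 1) n % 2 ^ (64 * n) =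
    pk 64 (fun i => i + 1) n % 2 ^ (64 * n) := h
  rw [h4, Nat.mod_eq_of_lt hlt]

theorem dload_lane {n x i : ℕ} (hn : n ≤ 100000) (hx : x + 6 * n < 2 ^ 60) (hi : i < n) :
    lane (dload n x) i = x + 6 * (i + 1) := by
  have e : dload n x = x * rep n + 6 * iota1 n := rfl
  have e2 : dload n x = pk 64 (fun i => x + 6 * (i + 1)) n := by
    rw [e, iota1_eq hn, rep_eq, mul_comm x, mul_comm 6, pk_mul, pk_mul, pk_add]
    apply pk_congr
    intro j _
    ring
  rw [e2, lane_pk _ hi]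
  intro j hj
  have h1 : x + 6 * (j + 1) ≤ x + 6 * n := by omega
  exact (lt_of_le_of_lt h1 hx).trans (by norm_num)

theorem dall_sound_aux {X b n : ℕ} {Hs : List ℕ} {x : ℕ} (hX : 0 < X) (hX' : X ≤ 2 ^ 62)
    (hn : n ≤ 100000) (hx : x + 6 * n * Hs.length < 2 ^ 60)
    (h : dall X b n Hs x = true) : ∀ i < n * Hs.length, Desc X (5 * b) (x + 6 * (i + 1)) := by
  induction Hs generalizing x with
  | nil =>
    intro i hi
    simp at hi
  | cons H t ih =>
    have e : dall X b n (H :: t) x = @Bool.rec (fun _ => Bool) false (dall X b n t (x + 6 * n))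
      (go X 0 b n H [dload n x]) := rfl
    rw [e] at h
    rcases hg : go X 0 b n H [dload n x] with _ | _
    · rw [hg] at h
      exact absurd h Bool.false_ne_true
    rw [hg] at h
    have h' : dall X b n t (x + 6 * n) = true := h
    have hl : (H :: t).length = t.length + 1 := rfl
    rw [hl] at hx
    have hx2 : x + 6 * n + 6 * n * t.length < 2 ^ 60 := by
      calc x + 6 * n + 6 * n * t.length = x + 6 * n * (t.length + 1) := by ring
        _ < 2 ^ 60 := hx
    have hx1 : x + 6 * n < 2 ^ 60 := lt_of_le_of_lt (Nat.le_add_right _ _) hx2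
    have h1 := ih hx2 h'
    obtain ⟨-, h2⟩ := go_sound_aux hX hX' hg (dload n x) (List.mem_singleton.mpr rfl)
    intro i hi
    rw [hl] at hi
    by_cases hin : i < n
    · have h3 := (h2 i hin).2
      rw [dload_lane hn hx1 hin] at h3
      exact h3
    · have hi2 : i - n < n * t.length := by
        have : n * (t.length + 1) = n * t.length + n := by ring
        omega
      have h4 := h1 (i - n) hi2
      have h5 : x + 6 * n + 6 * (i - n + 1) = x + 6 * (i + 1) := by omega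
      rw [h5] at h4
      exact h4

end H86V
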