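import Pool.Agent.H86.V.MLane

/-!
MODULE MRot (70 lines).  Rotation of a register.

`s = rotS n = 2 * (n * 5 / 26) + 1 ≤ n` for `1 ≤ n` (`omega`).  With `x = pk (lane x)`:
`x >>> (64 s) = pk (fun i => lane x (i + s)) (n - s)` (`pk_div`),
`x &&& (1 <<< (64 s) - 1) = x % 2 ^ (64 s) = pk (lane x) s` (`pk_mod`), shifted by `64 (n - s)` and added:
`pk (fun i => if i < n - s then lane x (i + s) else lane x (i - (n - s))) n` (`pk_append` backwards).
For `n = 0`: `x = 0` and `rot 0 x = 0`.
-/

namespace H86V

open H1Col

theorem rot_spec {n x : ℕ} (hx : Reg n x) :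
    Reg n (rot n x) ∧ ∀ p : ℕ → Prop, AllL n p (rot n x) → AllL n p x := by
  rcases Nat.eq_zero_or_pos n with rfl | hn
  · have h0 : x = 0 := by
      have := hx.1
      simpa using this
    subst h0
    have hr : rot 0 0 = 0 := by
      simp [rot]
    rw [hr]
    exact ⟨hx, fun p _ i hi => absurd hi (Nat.not_lt_zero i)⟩
  · have hs : rotS n ≤ n := by
      change 2 * ((n * 5) / 26) + 1 ≤ n
      omega
    set s := rotS n with hsdef
    have hf : ∀ i, lane x i < 2 ^ 64 := fun i => lane_lt x i
    have hxp : x = pk 64 (lane x) n := eq_pk_lane hx.1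
    have h1 : x / 2 ^ (64 * s) = pk 64 (fun i => lane x (i + s)) (n - s) := by
      conv_lhs => rw [hxp]
      exact pk_div hs (fun i _ => hf i)
    have h2 : x % 2 ^ (64 * s) = pk 64 (lane x) s := by
      conv_lhs => rw [hxp]
      exact pk_mod hs (fun i _ => hf i)
    set h : ℕ → ℕ := fun i => if i < n - s then lane x (i + s) else lane x (i - (n - s)) with hh
    have h3 : rot n x = pk 64 h n := by
      have e1 : rot n x = x >>> (64 * s) + (x &&& (1 <<< (64 * s) - 1)) <<< (64 * (n - s)) := rfl
      rw [e1, Nat.shiftRight_eq_div_pow, Nat.shiftLeft_eq, Nat.shiftLeft_eq, one_mul,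
        Nat.and_two_pow_sub_one_eq_mod, h1, h2]
      have e2 : pk 64 h n = pk 64 h (n - s + s) := by rw [Nat.sub_add_cancel hs]
      rw [e2, pk_append]
      have e3 : pk 64 h (n - s) = pk 64 (fun i => lane x (i + s)) (n - s) :=
        pk_congr fun i hi => by simp [hh, hi]
      have e4 : pk 64 (fun i => h (i + (n - s))) s = pk 64 (lane x) s :=
        pk_congr fun i _ => by
          have : ¬ (i + (n - s) < n - s) := by omega
          simp [hh]
      rw [e3, e4, mul_comm]
    have hlt : ∀ i < n, h i < 2 ^ 63 := by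
      intro i hi
      simp only [hh]
      split_ifs with hc
      · exact hx.2 _ (by omega)
      · exact hx.2 _ (by omega)
    have hlt' : ∀ i < n, h i < 2 ^ 64 := fun i hi => lt_trans (hlt i hi) (by norm_num)
    rw [h3]
    refine ⟨reg_pk hlt, fun p hp j hj => ?_⟩
    rcases lt_or_ge j s with hjs | hjs
    · have h4 := hp (j + (n - s)) (by omega)
      rw [lane_pk hlt' (by omega)] at h4
      have : ¬ (j + (n - s) < n - s) := by omega
      simpa [hh] using h4
    · have h4 := hp (j - s) (by omega)
      rw [lane_pk hlt' (by omega)] at h4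
      have h5 : j - s < n - s := by omega
      simpa [hh, h5, Nat.sub_add_cancel hjs] using h4

end H86V
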