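import Pool.Agent.H86.V.MCmp
import Pool.Agent.H86.V.MRot
import Pool.Agent.H86.V.MDesc

/-!
MODULE MDecA (90 lines).  Soundness of the instructions with codes `1, .., 12`.

`cmpK n x y k = true` gives `k (x + (y - w)) w = true` with `w = keepY (rep n) x y` (the test
`Nat.ble 0 _` is `true`: case on it, or `simp [cmp2, Nat.ble]`), then `Sound X m ih` and `cmp_all`
(with `desc_zero`).  `rotK (rot n x) k = true` gives `k (rot n x) = true`, then `rot_spec`.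
For each of the four (respectively 2) branches of `dec1`, `dec2`, `dec3`: split the `Bool.rec` by
`cases` on the Boolean (`rcases h : Nat.ble c 2 with _ | _` after unfolding).
-/

namespace H86V

open H1Col

private theorem mda_rec {b x y : Bool} (h : @Bool.rec (fun _ => Bool) x y b = true) :
    (b = true ∧ y = true) ∨ (b = false ∧ x = true) := by
  cases b with
  | false => exact Or.inr ⟨rfl, h⟩
  | true => exact Or.inl ⟨rfl, h⟩

private theorem mda_rot {x : ℕ} {k : ℕ → Bool} (h : rotK x k = true) : k x = true := by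
  exact h

private theorem mda_cmp {n x y : ℕ} {k : ℕ → ℕ → Bool} (h : cmpK n x y k = true) :
    k (x + (y - keepY (rep n) x y)) (keepY (rep n) x y) = true := by
  exact h

theorem dec1_sound {X m c : ℕ} {ih : St} (hX : 0 < X) (h : Sound X m ih) :
    Sound X m (dec1 ih c) := by
  intro n H A F P Q R ls hA hF hP hQ hR hk
  have hz : Desc X m 0 := desc_zero hX
  have hk0 : @Bool.rec (fun _ => Bool)
    (@Bool.rec (fun _ => Bool)
      (cmpK n F Q (fun f q => ih n (Nat.shiftRight H 8) A f P q R ls))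
      (cmpK n F P (fun f p => ih n (Nat.shiftRight H 8) A f p Q R ls)) (Nat.beq c 3))
    (@Bool.rec (fun _ => Bool)
      (cmpK n A Q (fun a q => ih n (Nat.shiftRight H 8) a F P q R ls))
      (cmpK n A P (fun a p => ih n (Nat.shiftRight H 8) a F p Q R ls)) (Nat.beq c 1))
    (Nat.ble c 2) = true := hk
  rcases mda_rec hk0 with ⟨_, h1⟩ | ⟨_, h1⟩
  · rcases mda_rec h1 with ⟨_, h2⟩ | ⟨_, h2⟩
    · obtain ⟨r1, r2, _⟩ := cmp_spec hA hP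
      obtain ⟨cA, cF, cP, cQ, cR, cL⟩ := h _ _ _ _ _ _ _ _ r1 hF r2 hQ hR (mda_cmp h2)
      obtain ⟨d1, d2⟩ := cmp_all hA hP hz cA cP
      exact ⟨d1, cF, d2, cQ, cR, cL⟩
    · obtain ⟨r1, r2, _⟩ := cmp_spec hA hQ
      obtain ⟨cA, cF, cP, cQ, cR, cL⟩ := h _ _ _ _ _ _ _ _ r1 hF hP r2 hR (mda_cmp h2)
      obtain ⟨d1, d2⟩ := cmp_all hA hQ hz cA cQ
      exact ⟨d1, cF, cP, d2, cR, cL⟩
  · rcases mda_rec h1 with ⟨_, h2⟩ | ⟨_, h2⟩
    · obtain ⟨r1, r2, _⟩ := cmp_spec hF hP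
      obtain ⟨cA, cF, cP, cQ, cR, cL⟩ := h _ _ _ _ _ _ _ _ hA r1 r2 hQ hR (mda_cmp h2)
      obtain ⟨d1, d2⟩ := cmp_all hF hP hz cF cP
      exact ⟨cA, d1, d2, cQ, cR, cL⟩
    · obtain ⟨r1, r2, _⟩ := cmp_spec hF hQ
      obtain ⟨cA, cF, cP, cQ, cR, cL⟩ := h _ _ _ _ _ _ _ _ hA r1 hP r2 hR (mda_cmp h2)
      obtain ⟨d1, d2⟩ := cmp_all hF hQ hz cF cQ
      exact ⟨cA, d1, cP, d2, cR, cL⟩

theorem dec2_sound {X m c : ℕ} {ih : St} (hX : 0 < X) (h : Sound X m ih) :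
    Sound X m (dec2 ih c) := by
  intro n H A F P Q R ls hA hF hP hQ hR hk
  have hz : Desc X m 0 := desc_zero hX
  have hk0 : @Bool.rec (fun _ => Bool)
    (@Bool.rec (fun _ => Bool)
      (cmpK n A F (fun a f => ih n (Nat.shiftRight H 8) a f P Q R ls))
      (cmpK n Q R (fun q r => ih n (Nat.shiftRight H 8) A F P q r ls)) (Nat.beq c 7))
    (@Bool.rec (fun _ => Bool)
      (cmpK n P R (fun p r => ih n (Nat.shiftRight H 8) A F p Q r ls))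
      (cmpK n P Q (fun p q => ih n (Nat.shiftRight H 8) A F p q R ls)) (Nat.beq c 5))
    (Nat.ble c 6) = true := hk
  rcases mda_rec hk0 with ⟨_, h1⟩ | ⟨_, h1⟩
  · rcases mda_rec h1 with ⟨_, h2⟩ | ⟨_, h2⟩
    · obtain ⟨r1, r2, _⟩ := cmp_spec hP hQ
      obtain ⟨cA, cF, cP, cQ, cR, cL⟩ := h _ _ _ _ _ _ _ _ hA hF r1 r2 hR (mda_cmp h2)
      obtain ⟨d1, d2⟩ := cmp_all hP hQ hz cP cQ
      exact ⟨cA, cF, d1, d2, cR, cL⟩
    · obtain ⟨r1, r2, _⟩ := cmp_spec hP hR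
      obtain ⟨cA, cF, cP, cQ, cR, cL⟩ := h _ _ _ _ _ _ _ _ hA hF r1 hQ r2 (mda_cmp h2)
      obtain ⟨d1, d2⟩ := cmp_all hP hR hz cP cR
      exact ⟨cA, cF, d1, cQ, d2, cL⟩
  · rcases mda_rec h1 with ⟨_, h2⟩ | ⟨_, h2⟩
    · obtain ⟨r1, r2, _⟩ := cmp_spec hQ hR
      obtain ⟨cA, cF, cP, cQ, cR, cL⟩ := h _ _ _ _ _ _ _ _ hA hF hP r1 r2 (mda_cmp h2)
      obtain ⟨d1, d2⟩ := cmp_all hQ hR hz cQ cR
      exact ⟨cA, cF, cP, d1, d2, cL⟩
    · obtain ⟨r1, r2, _⟩ := cmp_spec hA hF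
      obtain ⟨cA, cF, cP, cQ, cR, cL⟩ := h _ _ _ _ _ _ _ _ r1 r2 hP hQ hR (mda_cmp h2)
      obtain ⟨d1, d2⟩ := cmp_all hA hF hz cA cF
      exact ⟨d1, d2, cP, cQ, cR, cL⟩

theorem dec3_sound {X m c : ℕ} {ih : St} (hX : 0 < X) (h : Sound X m ih) :
    Sound X m (dec3 ih c) := by
  intro n H A F P Q R ls hA hF hP hQ hR hk
  have _ := hX
  have hk0 : @Bool.rec (fun _ => Bool)
    (@Bool.rec (fun _ => Bool)
      (rotK (rot n R) (fun r => ih n (Nat.shiftRight H 8) A F P Q r ls))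
      (rotK (rot n Q) (fun q => ih n (Nat.shiftRight H 8) A F P q R ls)) (Nat.beq c 11))
    (@Bool.rec (fun _ => Bool)
      (rotK (rot n P) (fun p => ih n (Nat.shiftRight H 8) A F p Q R ls))
      (rotK (rot n F) (fun f => ih n (Nat.shiftRight H 8) A f P Q R ls)) (Nat.beq c 9))
    (Nat.ble c 10) = true := hk
  rcases mda_rec hk0 with ⟨_, h1⟩ | ⟨_, h1⟩
  · rcases mda_rec h1 with ⟨_, h2⟩ | ⟨_, h2⟩
    · obtain ⟨r1, r2⟩ := rot_spec hF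
      obtain ⟨cA, cF, cP, cQ, cR, cL⟩ := h _ _ _ _ _ _ _ _ hA r1 hP hQ hR (mda_rot h2)
      exact ⟨cA, r2 _ cF, cP, cQ, cR, cL⟩
    · obtain ⟨r1, r2⟩ := rot_spec hP
      obtain ⟨cA, cF, cP, cQ, cR, cL⟩ := h _ _ _ _ _ _ _ _ hA hF r1 hQ hR (mda_rot h2)
      exact ⟨cA, cF, r2 _ cP, cQ, cR, cL⟩
  · rcases mda_rec h1 with ⟨_, h2⟩ | ⟨_, h2⟩
    · obtain ⟨r1, r2⟩ := rot_spec hQ
      obtain ⟨cA, cF, cP, cQ, cR, cL⟩ := h _ _ _ _ _ _ _ _ hA hF hP r1 hR (mda_rot h2)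
      exact ⟨cA, cF, cP, r2 _ cQ, cR, cL⟩
    · obtain ⟨r1, r2⟩ := rot_spec hR
      obtain ⟨cA, cF, cP, cQ, cR, cL⟩ := h _ _ _ _ _ _ _ _ hA hF hP hQ r1 (mda_rot h2)
      exact ⟨cA, cF, cP, cQ, r2 _ cR, cL⟩

end H86V
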