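import Pool.Agent.H86.V.MLane

/-!
MODULE MFold (90 lines).  Folding a register in two halves, and removing one lane.

`fold_spec`: `V &&& (1 <<< (64 h) - 1) = V % 2 ^ (64 h)` has lanes `lane V i`, `i < h`;
`V >>> (64 h) = V / 2 ^ (64 h)` has lanes `lane V (i + h)` (directly from the definition of `lane`, `Nat.div_div_eq_div_mul`,
`pow_add`); `V < 2 ^ (64 n)` and `n ≤ 2 h` give the bounds; lanes `≥ n` of `V` are `0` (`lane_of_le`).
`scal_spec`: `y = (A >>> (64 p)) &&& msk = lane A p`.  If `n ≤ p` then `y = 0`.  If `p < n` then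
`A = pk (lane A)` and `A - y <<< (64 p) = pk (fun i => if i = p then 0 else lane A i)` (`pk_sub` with
`pk (fun i => if i = p then y else 0) n = y * 2 ^ (64 p)`, `Finset.sum_ite_eq`).
-/

namespace H86V

open H1Col

private theorem mfold_mod (V h : ℕ) : V &&& (1 <<< (64 * h) - 1) = V % 2 ^ (64 * h) := by
  rw [Nat.one_shiftLeft, Nat.and_two_pow_sub_one_eq_mod]

private theorem mfold_lane_mod {V h i : ℕ} (hi : i < h) :
    lane (V % 2 ^ (64 * h)) i = lane V i := by
  unfold lane
  have e : 2 ^ (64 * h) = 2 ^ (64 * i) * 2 ^ (64 * (h - i)) := by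
    rw [← pow_add]
    congr 1
    omega
  rw [e, Nat.mod_mul_right_div_self, Nat.mod_mod_of_dvd]
  exact pow_dvd_pow 2 (by omega)

private theorem mfold_lane_div (V h i : ℕ) : lane (V / 2 ^ (64 * h)) i = lane V (i + h) := by
  unfold lane
  rw [Nat.div_div_eq_div_mul, ← pow_add]
  congr 3
  ring

theorem fold_spec {n h V : ℕ} (hh : n ≤ 2 * h) (hh' : h ≤ n) (hV : Reg n V) :
    Reg h (V &&& (1 <<< (64 * h) - 1)) ∧ Reg h (V >>> (64 * h)) ∧ ∀ p : ℕ → Prop,
      AllL h p (V &&& (1 <<< (64 * h) - 1)) → AllL h p (V >>> (64 * h)) → AllL n p V := by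
  obtain ⟨hV1, hV2⟩ := hV
  rw [mfold_mod, Nat.shiftRight_eq_div_pow]
  refine ⟨⟨Nat.mod_lt _ (by positivity), fun i hi => ?_⟩, ⟨?_, fun i hi => ?_⟩, ?_⟩
  · rw [mfold_lane_mod hi]
    exact hV2 i (by omega)
  · rw [Nat.div_lt_iff_lt_mul (by positivity), ← pow_add]
    exact lt_of_lt_of_le hV1 (Nat.pow_le_pow_right (by norm_num) (by omega))
  · rw [mfold_lane_div]
    by_cases h2 : i + h < n
    · exact hV2 _ h2
    · rw [lane_of_le hV1 (by omega)]
      norm_num
  · intro p h1 h2 i hi
    by_cases h3 : i < h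
    · have := h1 i h3
      rwa [mfold_lane_mod h3] at this
    · have := h2 (i - h) (by omega)
      rw [mfold_lane_div] at this
      rwa [Nat.sub_add_cancel (by omega)] at this

theorem scal_spec {n p A : ℕ} (hA : Reg n A) :
    Reg n (A - ((A >>> (64 * p)) &&& msk) <<< (64 * p)) ∧ ∀ q : ℕ → Prop,
      q ((A >>> (64 * p)) &&& msk) → AllL n q (A - ((A >>> (64 * p)) &&& msk) <<< (64 * p)) →
      AllL n q A := by
  have hy : (A >>> (64 * p)) &&& msk = lane A p := by
    have : msk = 2 ^ 64 - 1 := by norm_num [msk]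
    rw [this, Nat.and_two_pow_sub_one_eq_mod, Nat.shiftRight_eq_div_pow]
    rfl
  rw [hy, Nat.shiftLeft_eq]
  by_cases hp : p < n
  · have e1 : A = pk 64 (lane A) n := eq_pk_lane hA.1
    have e2 : pk 64 (fun i => if i = p then lane A p else 0) n = lane A p * 2 ^ (64 * p) := by
      unfold pk
      rw [Finset.sum_eq_single p]
      · simp
      · intro i _ hi
        simp [hi]
      · intro h
        exact absurd (Finset.mem_range.2 hp) h
    have hle : ∀ i < n, (if i = p then lane A p else 0) ≤ lane A i := by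
      intro i _
      by_cases hi : i = p
      · rw [if_pos hi, hi]
      · rw [if_neg hi]
        exact Nat.zero_le _
    have e3 : A - lane A p * 2 ^ (64 * p) =
        pk 64 (fun i => lane A i - if i = p then lane A p else 0) n := by
      rw [← pk_sub hle, e2, ← e1]
    rw [e3]
    have hlt : ∀ i < n, (lane A i - if i = p then lane A p else 0) < 2 ^ 63 := fun i hi =>
      lt_of_le_of_lt (Nat.sub_le _ _) (hA.2 i hi)
    refine ⟨reg_pk hlt, fun q hq hall i hi => ?_⟩
    by_cases hip : i = p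
    · rw [hip]
      exact hq
    · have := hall i hi
      rw [lane_pk (fun j hj => lt_trans (hlt j hj) (by norm_num)) hi, if_neg hip,
        Nat.sub_zero] at this
      exact this
  · have h0 : lane A p = 0 := lane_of_le hA.1 (by omega)
    rw [h0, Nat.zero_mul, Nat.sub_zero]
    exact ⟨hA, fun q _ h => h⟩

end H86V
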