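import Pool.Agent.H86.V.MRot
import Pool.Agent.H86.V.MFold
import Pool.Agent.H86.V.MDesc

/-!
MODULE MDecB (110 lines).  Soundness of the instructions with codes `13, .., 19`.

`iLoad`: the tests give `R = 0`, `hd ls ≤ msk * rep n` (`msk_mul_rep`: `hd ls < 2 ^ (64 n)`) and
`lane_lt_60`; the rotated `F, P, Q` by `rot_spec`; the head goes to `F`.  If `ls = []` then `hd ls = 0`,
`tl ls = []`.  If `ls = V :: t` then `Ld X m n V` from the bounds and the conclusion on `F`.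
The register `R = 0` has all lanes `0`, `desc_zero`.
`iFoldH` with `h = (n + 1) / 2`: `P + (Q + R) = 0`, so all three are `0`; `fold_spec` for `A` and `F`
(for `n = 0`, `h = 0`; in general `h ≤ n ≤ 2 h`); a load which is `Ld X m h V` is `Ld X m n V`
(`2 ^ (64 h) ≤ 2 ^ (64 n)`; lanes `≥ h` are `0` by `lane_of_le`, and `desc_zero`).
`iScal`: `scal_spec` with `q = Desc X m`, `desc_sound`, `Desc.mono` (`s ≤ m`).
End: `ls = []` and all registers `0`.
-/

namespace H86V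

open H1Col

private theorem mdb_rec {b x y : Bool} (h : @Bool.rec (fun _ => Bool) x y b = true) :
    (b = true ∧ y = true) ∨ (b = false ∧ x = true) := by
  cases b with
  | false => exact Or.inr ⟨rfl, h⟩
  | true => exact Or.inl ⟨rfl, h⟩

private theorem mdb_tst {b y : Bool} (h : @Bool.rec (fun _ => Bool) false y b = true) :
    b = true ∧ y = true := by
  rcases mdb_rec h with h1 | h1
  · exact h1
  · exact absurd h1.2 Bool.false_ne_true

private theorem mdb_rot {x : ℕ} {k : ℕ → Bool} (h : rotK x k = true) : k x = true := by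
  exact h

private theorem mdb_allz {X m n : ℕ} (hX : 0 < X) : AllL n (Desc X m) 0 := by
  intro i _
  rw [lane_zero]
  exact desc_zero hX

private theorem mdb_load {X m n H A F P Q R : ℕ} {ls : List ℕ} {ih : St} (hX : 0 < X)
    (h : Sound X m ih) (hA : Reg n A) (hF : Reg n F) (hP : Reg n P) (hQ : Reg n Q)
    (hk : iLoad ih n H A F P Q R ls = true) :
    AllL n (Desc X m) A ∧ AllL n (Desc X m) F ∧ AllL n (Desc X m) P ∧ AllL n (Desc X m) Q ∧
      AllL n (Desc X m) R ∧ ∀ V ∈ ls, Ld X m n V := by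
  have hk1 : @Bool.rec (fun _ => Bool) false
    (@Bool.rec (fun _ => Bool) false
      (@Bool.rec (fun _ => Bool) false
        (rotK (rot n F) (fun f => rotK (rot n P) (fun p => rotK (rot n Q) (fun q =>
          ih n (Nat.shiftRight H 8) A (hd ls) f p q (tl ls)))))
        (Nat.beq R 0))
      (Nat.beq (Nat.land (hd ls) (Nat.mul 17293822569102704640 (rep n))) 0))
    (Nat.ble (hd ls) (Nat.mul msk (rep n))) = true := hk
  obtain ⟨e1, hk2⟩ := mdb_tst hk1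
  obtain ⟨e2, hk3⟩ := mdb_tst hk2
  obtain ⟨e3, hk4⟩ := mdb_tst hk3
  have hk5 := mdb_rot hk4
  have hk6 := mdb_rot hk5
  have hk7 := mdb_rot hk6
  have hR0 : R = 0 := Nat.eq_of_beq_eq_true e3
  subst hR0
  have hle : hd ls ≤ msk * rep n := Nat.le_of_ble_eq_true e1
  have hlt : hd ls < 2 ^ (64 * n) := by
    rw [msk_mul_rep] at hle
    have := Nat.one_le_two_pow (n := 64 * n)
    omega
  have h60 : ∀ i < n, lane (hd ls) i < 2 ^ 60 := lane_lt_60 hlt (Nat.eq_of_beq_eq_true e2)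
  have hreg : Reg n (hd ls) := ⟨hlt, fun i hi => lt_trans (h60 i hi) (by norm_num)⟩
  obtain ⟨rF, sF⟩ := rot_spec hF
  obtain ⟨rP, sP⟩ := rot_spec hP
  obtain ⟨rQ, sQ⟩ := rot_spec hQ
  obtain ⟨cA, cF, cP, cQ, cR, cL⟩ := h n _ A (hd ls) _ _ _ (tl ls) hA hreg rF rP rQ hk7
  refine ⟨cA, sF _ cP, sP _ cQ, sQ _ cR, mdb_allz hX, ?_⟩
  intro V hV
  cases ls with
  | nil => exact absurd hV List.not_mem_nil
  | cons a t =>
    rcases List.mem_cons.1 hV with rfl | h1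
    · exact ⟨hlt, fun i hi => ⟨h60 i hi, cF i hi⟩⟩
    · exact cL V h1

theorem dec4_sound {X m c : ℕ} {ih : St} (hX : 0 < X) (h : Sound X m ih) :
    Sound X m (dec4 ih c) := by
  intro n H A F P Q R ls hA hF hP hQ hR hk
  have hk0 : @Bool.rec (fun _ => Bool)
    (@Bool.rec (fun _ => Bool)
      (ih n (Nat.shiftRight H 8) A F P R Q ls)
      (ih n (Nat.shiftRight H 8) A F Q P R ls) (Nat.beq c 15))
    (@Bool.rec (fun _ => Bool)
      (ih n (Nat.shiftRight H 8) A P F Q R ls)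
      (iLoad ih n H A F P Q R ls) (Nat.beq c 13))
    (Nat.ble c 14) = true := hk
  rcases mdb_rec hk0 with ⟨_, h1⟩ | ⟨_, h1⟩
  · rcases mdb_rec h1 with ⟨_, h2⟩ | ⟨_, h2⟩
    · exact mdb_load hX h hA hF hP hQ h2
    · obtain ⟨cA, cP, cF, cQ, cR, cL⟩ := h _ _ _ _ _ _ _ _ hA hP hF hQ hR h2
      exact ⟨cA, cF, cP, cQ, cR, cL⟩
  · rcases mdb_rec h1 with ⟨_, h2⟩ | ⟨_, h2⟩
    · obtain ⟨cA, cF, cQ, cP, cR, cL⟩ := h _ _ _ _ _ _ _ _ hA hF hQ hP hR h2
      exact ⟨cA, cF, cP, cQ, cR, cL⟩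
    · obtain ⟨cA, cF, cP, cR, cQ, cL⟩ := h _ _ _ _ _ _ _ _ hA hF hP hR hQ h2
      exact ⟨cA, cF, cP, cQ, cR, cL⟩

private theorem mdb_fold {X m n H A F P Q R h : ℕ} {ls : List ℕ} {ih : St} (hX : 0 < X)
    (hs : Sound X m ih) (hh : n ≤ 2 * h) (hh' : h ≤ n) (hA : Reg n A) (hF : Reg n F)
    (hk : iFoldH ih h n H A F P Q R ls = true) :
    AllL n (Desc X m) A ∧ AllL n (Desc X m) F ∧ AllL n (Desc X m) P ∧ AllL n (Desc X m) Q ∧
      AllL n (Desc X m) R ∧ ∀ V ∈ ls, Ld X m n V := by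
  have hk0 : @Bool.rec (fun _ => Bool) false
    (ih h (Nat.shiftRight H 8) (Nat.land A (Nat.sub (Nat.shiftLeft 1 (Nat.mul 64 h)) 1))
      (Nat.shiftRight A (Nat.mul 64 h)) (Nat.land F (Nat.sub (Nat.shiftLeft 1 (Nat.mul 64 h)) 1))
      (Nat.shiftRight F (Nat.mul 64 h)) 0 ls)
    (Nat.beq (Nat.add P (Nat.add Q R)) 0) = true := hk
  obtain ⟨e, hk1⟩ := mdb_tst hk0
  have e1 : P + (Q + R) = 0 := Nat.eq_of_beq_eq_true e
  have hP0 : P = 0 := by omega
  have hQ0 : Q = 0 := by omega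
  have hR0 : R = 0 := by omega
  subst hP0 hQ0 hR0
  obtain ⟨a1, a2, a3⟩ := fold_spec hh hh' hA
  obtain ⟨f1, f2, f3⟩ := fold_spec hh hh' hF
  have hz : Reg h 0 := ⟨by positivity, fun i _ => by rw [lane_zero]; norm_num⟩
  obtain ⟨cA, cF, cP, cQ, _, cL⟩ := hs h _ _ _ _ _ 0 ls a1 a2 f1 f2 hz hk1
  refine ⟨a3 _ cA cF, f3 _ cP cQ, mdb_allz hX, mdb_allz hX, mdb_allz hX, ?_⟩
  intro V hV
  obtain ⟨l1, l2⟩ := cL V hV
  refine ⟨lt_of_lt_of_le l1 (Nat.pow_le_pow_right (by norm_num) (by omega)), ?_⟩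
  intro i _
  by_cases hi : i < h
  · exact l2 i hi
  · rw [lane_of_le l1 (by omega)]
    exact ⟨by norm_num, desc_zero hX⟩

private theorem mdb_scal {X m s n H A F P Q R p : ℕ} {ls : List ℕ} {ih : St}
    (hs : s ≤ m) (h : Sound X m ih) (hA : Reg n A) (hF : Reg n F) (hP : Reg n P)
    (hQ : Reg n Q) (hR : Reg n R) (hk : iScal X s ih p n H A F P Q R ls = true) :
    AllL n (Desc X m) A ∧ AllL n (Desc X m) F ∧ AllL n (Desc X m) P ∧ AllL n (Desc X m) Q ∧
      AllL n (Desc X m) R ∧ ∀ V ∈ ls, Ld X m n V := by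
  have hk0 : @Bool.rec (fun _ => Bool) false
    (ih n (Nat.shiftRight H 24)
      (Nat.sub A (Nat.shiftLeft (Nat.land (Nat.shiftRight A (Nat.mul 64 p)) msk) (Nat.mul 64 p)))
      F P Q R ls)
    (desc X s (Nat.land (Nat.shiftRight A (Nat.mul 64 p)) msk)) = true := hk
  obtain ⟨e, hk1⟩ := mdb_tst hk0
  obtain ⟨a1, a2⟩ := scal_spec (p := p) hA
  obtain ⟨cA, cF, cP, cQ, cR, cL⟩ := h n _ _ _ _ _ _ ls a1 hF hP hQ hR hk1
  exact ⟨a2 (Desc X m) ((desc_sound e).mono hs) cA, cF, cP, cQ, cR, cL⟩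

private theorem mdb_end {X m n A F P Q R : ℕ} {ls : List ℕ} (hX : 0 < X)
    (hk : @List.rec Nat (fun _ => Bool)
        (Nat.beq (Nat.add A (Nat.add F (Nat.add P (Nat.add Q R)))) 0) (fun _ _ _ => false) ls
        = true) :
    AllL n (Desc X m) A ∧ AllL n (Desc X m) F ∧ AllL n (Desc X m) P ∧ AllL n (Desc X m) Q ∧
      AllL n (Desc X m) R ∧ ∀ V ∈ ls, Ld X m n V := by
  cases ls with
  | cons a t => exact absurd hk Bool.false_ne_true
  | nil =>
    have e1 : A + (F + (P + (Q + R))) = 0 := Nat.eq_of_beq_eq_true hk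
    have hA0 : A = 0 := by omega
    have hF0 : F = 0 := by omega
    have hP0 : P = 0 := by omega
    have hQ0 : Q = 0 := by omega
    have hR0 : R = 0 := by omega
    subst hA0 hF0 hP0 hQ0 hR0
    refine ⟨mdb_allz hX, mdb_allz hX, mdb_allz hX, mdb_allz hX, mdb_allz hX, ?_⟩
    intro V hV
    exact absurd hV List.not_mem_nil

theorem dec5_sound {X m s c : ℕ} {ih : St} (hX : 0 < X) (hs : s ≤ m) (h : Sound X m ih) :
    Sound X m (dec5 X s ih c) := by
  intro n H A F P Q R ls hA hF hP hQ hR hk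
  have hk0 : @Bool.rec (fun _ => Bool)
    (@Bool.rec (fun _ => Bool)
      (@List.rec Nat (fun _ => Bool)
        (Nat.beq (Nat.add A (Nat.add F (Nat.add P (Nat.add Q R)))) 0) (fun _ _ _ => false) ls)
      (iScal X s ih (Nat.land (Nat.shiftRight H 8) 65535) n H A F P Q R ls) (Nat.beq c 18))
    (iFoldH ih (Nat.div (Nat.add n 1) 2) n H A F P Q R ls) (Nat.beq c 17) = true := hk
  rcases mdb_rec hk0 with ⟨_, h1⟩ | ⟨_, h1⟩
  · have hd2 : Nat.div (Nat.add n 1) 2 = (n + 1) / 2 := rfl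
    rw [hd2] at h1
    exact mdb_fold hX h (by omega) (by omega) hA hF h1
  · rcases mdb_rec h1 with ⟨_, h2⟩ | ⟨_, h2⟩
    · exact mdb_scal hs h hA hF hP hQ hR h2
    · exact mdb_end hX h2

end H86V
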