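import Pool.Agent.H86.V.MStp

/-!
MODULE MGe (100 lines).  The comparison masks and one block.

`geM_pk`: `N + (2 ^ 63 - X) * O = pk (f i + (2 ^ 63 - X))` (lanes `< 2 ^ 64`), the land with
`2 ^ 63 * O = pk (2 ^ 63)` gives `pk (if X ≤ f i then 2 ^ 63 else 0)` (top bit of `v < 2 ^ 64` is set iff
`2 ^ 63 ≤ v`), `t >>> 63 = pk (if X ≤ f i then 1 else 0)` (`t = pk (..) * 2 ^ 63`), and `pk_sub`.
`block_spec`: `A = pk (lane A)`, `F = pk (lane F)` (`eq_pk_lane`), `b5_pk`, `T5_lt`, `geM_pk`, `pk_land`,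
`pk_sub`, `pk_add`, `lane_pk`, `reg_pk`.  For `v < 2 ^ 63`, `v &&& (2 ^ 63 - 1) = v`.
-/

namespace H86V

open H1Col

private theorem land_top {v : ℕ} (hv : v < 2 ^ 64) :
    v &&& 2 ^ 63 = if 2 ^ 63 ≤ v then 2 ^ 63 else 0 := by
  rw [Nat.and_two_pow]
  by_cases h : 2 ^ 63 ≤ v
  · have : v.testBit 63 = true := by
      rw [Nat.testBit_eq_decide_div_mod_eq]
      have h1 : v / 2 ^ 63 = 1 := by
        apply Nat.div_eq_of_lt_le
        · simpa using h
        · calc v < 2 ^ 64 := hv
            _ = (1 + 1) * 2 ^ 63 := by norm_num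
      rw [h1]
      decide
    rw [this, if_pos h]
    rfl
  · have : v.testBit 63 = false := Nat.testBit_lt_two_pow (by omega)
    rw [this, if_neg h]
    rfl

theorem geM_pk {X n : ℕ} {f : ℕ → ℕ} (hX : 0 < X) (hX' : X ≤ 2 ^ 62) (hf : ∀ i < n, f i < 2 ^ 63) :
    geM (rep n) X (pk 64 f n) = pk 64 (fun i => if X ≤ f i then 2 ^ 63 - 1 else 0) n := by
  have e63 : (9223372036854775808 : ℕ) = 2 ^ 63 := by norm_num
  have hXX : X ≤ 2 ^ 63 := le_trans hX' (by norm_num)
  have hv : ∀ i < n, f i + (2 ^ 63 - X) < 2 ^ 64 := by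
    intro i hi
    have h1 := hf i hi
    have h2 : (2 : ℕ) ^ 64 = 2 ^ 63 + 2 ^ 63 := by norm_num
    omega
  have hc : ∀ i < n, (2 : ℕ) ^ 63 < 2 ^ 64 := fun i _ => by norm_num
  have ht : Nat.land (Nat.add (pk 64 f n) (Nat.mul (Nat.sub 9223372036854775808 X) (rep n)))
      (Nat.mul 9223372036854775808 (rep n)) =
      pk 64 (fun i => if X ≤ f i then 2 ^ 63 else 0) n := by
    show (pk 64 f n + (9223372036854775808 - X) * rep n) &&& (9223372036854775808 * rep n) = _
    rw [e63, rep_eq, Nat.mul_comm (2 ^ 63 - X), Nat.mul_comm (2 ^ 63), pk_const_mul, pk_const_mul,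
      pk_add, pk_land hv hc]
    apply pk_congr
    intro i hi
    rw [land_top (hv i hi)]
    by_cases h : X ≤ f i
    · rw [if_pos h, if_pos (by omega)]
    · rw [if_neg h, if_neg (by omega)]
  have hs : Nat.shiftRight (pk 64 (fun i => if X ≤ f i then 2 ^ 63 else 0) n) 63 =
      pk 64 (fun i => if X ≤ f i then 1 else 0) n := by
    have h1 : pk 64 (fun i => if X ≤ f i then 2 ^ 63 else 0) n =
        pk 64 (fun i => if X ≤ f i then 1 else 0) n * 2 ^ 63 := by
      rw [pk_mul]
      apply pk_congr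
      intro i _
      split_ifs
      · rw [one_mul]
      · rw [Nat.zero_mul]
    show pk 64 (fun i => if X ≤ f i then 2 ^ 63 else 0) n >>> 63 = _
    rw [Nat.shiftRight_eq_div_pow, h1, Nat.mul_div_cancel _ (by positivity)]
  unfold geM spread
  rw [ht, hs]
  show pk 64 (fun i => if X ≤ f i then 2 ^ 63 else 0) n -
    pk 64 (fun i => if X ≤ f i then 1 else 0) n = _
  rw [pk_sub]
  · apply pk_congr
    intro i _
    split_ifs
    · rfl
    · rfl
  · intro i _
    show (if X ≤ f i then 1 else 0) ≤ (if X ≤ f i then 2 ^ 63 else 0)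
    split_ifs
    · exact Nat.one_le_two_pow
    · exact le_rfl

private theorem land_low {v : ℕ} (hv : v < 2 ^ 63) : v &&& (2 ^ 63 - 1) = v := by
  rw [Nat.and_two_pow_sub_one_eq_mod, Nat.mod_eq_of_lt hv]

theorem block_spec {X n A F : ℕ} (hX : 0 < X) (hX' : X ≤ 2 ^ 62) (hA : A < 2 ^ (64 * n))
    (hA' : ∀ i < n, lane A i < 2 ^ 60) (hF : Reg n F) :
    Reg n (bA X n A F) ∧ Reg n (bK X n A F) ∧ ∀ i < n,
      (X ≤ T^[5] (lane A i) →
        lane (bA X n A F) i = T^[5] (lane A i) ∧ lane (bK X n A F) i = lane F i) ∧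
      (T^[5] (lane A i) < X → lane (bA X n A F) i = lane F i) := by
  have hT : ∀ i < n, T^[5] (lane A i) < 2 ^ 63 := fun i hi => T5_lt (hA' i hi)
  have hF' := hF.2
  have m64 : (2 : ℕ) ^ 63 < 2 ^ 64 := by norm_num
  have hb5 : b5 n A = pk 64 (fun i => T^[5] (lane A i)) n := by
    have := b5_pk (n := n) hA'
    rw [← eq_pk_lane hA] at this
    exact this
  have hbM : bM X n A = pk 64 (fun i => if X ≤ T^[5] (lane A i) then 2 ^ 63 - 1 else 0) n := by
    unfold bM
    rw [hb5]
    exact geM_pk hX hX' hT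
  have hml : ∀ i < n, (if X ≤ T^[5] (lane A i) then 2 ^ 63 - 1 else 0) < 2 ^ 64 := by
    intro i _
    split_ifs
    · omega
    · positivity
  have hbK : bK X n A F = pk 64 (fun i => if X ≤ T^[5] (lane A i) then lane F i else 0) n := by
    have h1 : bK X n A F = pk 64 (lane F) n &&&
        pk 64 (fun i => if X ≤ T^[5] (lane A i) then 2 ^ 63 - 1 else 0) n := by
      rw [← eq_pk_lane hF.1, ← hbM]
      rfl
    rw [h1, pk_land (fun i hi => lt_trans (hF' i hi) m64) hml]
    apply pk_congr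
    intro i hi
    split_ifs
    · exact land_low (hF' i hi)
    · exact Nat.and_zero _
  have hbA : bA X n A F = pk 64 (fun i => if X ≤ T^[5] (lane A i) then T^[5] (lane A i)
      else lane F i) n := by
    have h1 : bA X n A F = (b5 n A &&& bM X n A) + (F - bK X n A F) := rfl
    have h2 : F - bK X n A F = pk 64 (fun i => if X ≤ T^[5] (lane A i) then 0 else lane F i) n := by
      have h3 : F - bK X n A F = pk 64 (lane F) n -
          pk 64 (fun i => if X ≤ T^[5] (lane A i) then lane F i else 0) n := by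
        rw [hbK, ← eq_pk_lane hF.1]
      rw [h3, pk_sub]
      · apply pk_congr
        intro i _
        split_ifs
        · exact Nat.sub_self _
        · exact Nat.sub_zero _
      · intro i _
        show (if X ≤ T^[5] (lane A i) then lane F i else 0) ≤ lane F i
        split_ifs
        · exact le_rfl
        · exact Nat.zero_le _
    rw [h1, h2, hb5, hbM, pk_land (fun i hi => lt_trans (hT i hi) m64) hml, pk_add]
    apply pk_congr
    intro i hi
    split_ifs
    · rw [land_low (hT i hi), Nat.add_zero]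
    · rw [Nat.and_zero, Nat.zero_add]
  have gA : ∀ i < n, (if X ≤ T^[5] (lane A i) then T^[5] (lane A i) else lane F i) < 2 ^ 63 := by
    intro i hi
    split_ifs
    · exact hT i hi
    · exact hF' i hi
  have gK : ∀ i < n, (if X ≤ T^[5] (lane A i) then lane F i else 0) < 2 ^ 63 := by
    intro i hi
    split_ifs
    · exact hF' i hi
    · positivity
  refine ⟨?_, ?_, ?_⟩
  · rw [hbA]
    exact reg_pk gA
  · rw [hbK]
    exact reg_pk gK
  · intro i hi
    rw [hbA, hbK, lane_pk (fun j hj => lt_trans (gA j hj) m64) hi,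
      lane_pk (fun j hj => lt_trans (gK j hj) m64) hi]
    constructor
    · intro h
      rw [if_pos h, if_pos h]
      exact ⟨rfl, rfl⟩
    · intro h
      rw [if_neg (by omega)]

end H86V
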