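import Pool.Agent.H86.V.MReg

/-!
MODULE MLane (60 lines).  Lanes and packed vectors `pk 64 f n = ∑ i < n, f i * 2 ^ (64 i)` of
`Pool.Agent.H1.Col.Pack` (lemmas `pk_succ'`, `pk_append`, `pk_mod`, `pk_div`, `pk_land`, `pk_mul`,
`pk_lt`, `pk_sub`, `pk_add`).

`eq_pk_lane`: induction on `n` with `V % 2 ^ (64 n)`: for every `V`, `pk 64 (lane V) n = V % 2 ^ (64 n)`
(`Nat.mod_mul` or `Nat.mod_pow_succ`), then `Nat.mod_eq_of_lt`.
`lane_pk`: `pk_div` with `m = i`, then `pk_mod` with `m = 1` (or `pk_succ'` and `Nat.add_mul_mod_self_left`).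
`rep_eq`: `Nat.geomSum_eq` or induction: `pk 64 (fun _ => 1) n * msk = 2 ^ (64 n) - 1`.
`lane_lt_60`: `V = pk 64 (lane V) n`, the product is `pk 64 (fun _ => 17293822569102704640) n`
(`17293822569102704640 = 2 ^ 64 - 2 ^ 60`), `pk_land`, so every `lane V i &&& (2 ^ 64 - 2 ^ 60) = 0`
(use `lane_pk`), hence no bit `60 .. 63` (`Nat.testBit`, or `lane V i / 2 ^ 60 = 0` through
`Nat.shiftRight_and_distrib`; e.g. `lt_of_testBit` lemmas: `Nat.lt_pow_two_of_testBit`).
-/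

namespace H86V

open H1Col

theorem lane_lt (V i : ℕ) : lane V i < 2 ^ 64 := Nat.mod_lt _ (by norm_num)

theorem lane_zero (i : ℕ) : lane 0 i = 0 := by simp [lane]

theorem lane_of_le {V n i : ℕ} (h : V < 2 ^ (64 * n)) (hi : n ≤ i) : lane V i = 0 := by
  have h1 : V < 2 ^ (64 * i) := lt_of_lt_of_le h (Nat.pow_le_pow_right (by norm_num) (by omega))
  rw [lane, Nat.div_eq_of_lt h1]
  simp

theorem eq_pk_lane {V n : ℕ} (h : V < 2 ^ (64 * n)) : V = pk 64 (lane V) n := by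
  have key : ∀ n : ℕ, pk 64 (lane V) n = V % 2 ^ (64 * n) := by
    intro n
    induction n with
    | zero => simp [Nat.mod_one]
    | succ n ih =>
        rw [pk_succ, ih, Nat.mul_succ, pow_add, Nat.mod_mul, lane, Nat.mul_comm (2 ^ (64 * n))]
  rw [key, Nat.mod_eq_of_lt h]

theorem lane_pk {f : ℕ → ℕ} {n i : ℕ} (hf : ∀ i < n, f i < 2 ^ 64) (hi : i < n) :
    lane (pk 64 f n) i = f i := by
  rw [lane, pk_div (le_of_lt hi) (fun j hj => hf j (by omega))]
  obtain ⟨k, hk⟩ : ∃ k, n - i = k + 1 := ⟨n - i - 1, by omega⟩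
  rw [hk, pk_succ', Nat.add_mul_mod_self_left, Nat.zero_add, Nat.mod_eq_of_lt (hf i hi)]

theorem pk_inj {f g : ℕ → ℕ} {n : ℕ} (hf : ∀ i < n, f i < 2 ^ 64) (hg : ∀ i < n, g i < 2 ^ 64)
    (h : pk 64 f n = pk 64 g n) : ∀ i < n, f i = g i := by
  intro i hi
  rw [← lane_pk hf hi, h, lane_pk hg hi]

private theorem msk_eq : msk = 2 ^ 64 - 1 := by norm_num [msk]

private theorem geo (n : ℕ) : pk 64 (fun _ => 1) n * msk = 2 ^ (64 * n) - 1 := by
  induction n with
  | zero => simp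
  | succ n ih =>
      rw [pk_succ, Nat.add_mul, ih, Nat.mul_succ, pow_add, Nat.one_mul, msk_eq]
      have h1 : 1 ≤ 2 ^ (64 * n) := Nat.one_le_two_pow
      generalize 2 ^ (64 * n) = a at h1 ⊢
      rw [Nat.mul_sub a (2 ^ 64) 1]
      omega

theorem rep_eq (n : ℕ) : rep n = pk 64 (fun _ => 1) n := by
  have e : rep n = ((1 <<< (64 * n)) - 1) / msk := rfl
  rw [e, Nat.one_shiftLeft, ← geo n]
  exact Nat.mul_div_cancel _ (by norm_num [msk])

theorem msk_mul_rep (n : ℕ) : msk * rep n = 2 ^ (64 * n) - 1 := by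
  rw [rep_eq, Nat.mul_comm, geo]

theorem lane_lt_60 {V n : ℕ} (h : V < 2 ^ (64 * n))
    (h0 : V &&& (17293822569102704640 * rep n) = 0) : ∀ i < n, lane V i < 2 ^ 60 := by
  intro i hi
  have hc : ∀ i < n, (fun _ : ℕ => 17293822569102704640) i < 2 ^ 64 := fun _ _ => by norm_num
  have e : 17293822569102704640 * rep n = pk 64 (fun _ => 17293822569102704640) n := by
    rw [rep_eq, Nat.mul_comm, pk_const_mul]
  rw [e] at h0
  have h1 : pk 64 (fun i => lane V i &&& 17293822569102704640) n = 0 := by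
    rw [← pk_land (fun i _ => lane_lt V i) hc, ← eq_pk_lane h, h0]
  have h2 : lane V i &&& 17293822569102704640 = 0 := by
    have h3 := lane_pk (f := fun i => lane V i &&& 17293822569102704640) (n := n)
      (fun j hj => lt_of_le_of_lt Nat.and_le_left (lane_lt V j)) hi
    rw [h1, lane_zero] at h3
    exact h3.symm
  have h4 : (lane V i &&& 17293822569102704640) >>> 60 = 0 := by rw [h2]; rfl
  rw [Nat.shiftRight_and_distrib] at h4
  have h5 : (17293822569102704640 : ℕ) >>> 60 = 2 ^ 4 - 1 := by decide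
  rw [h5, Nat.and_two_pow_sub_one_eq_mod, Nat.shiftRight_eq_div_pow] at h4
  have h6 := lane_lt V i
  have h7 : lane V i / 2 ^ 60 < 2 ^ 4 := by
    apply Nat.div_lt_of_lt_mul
    calc lane V i < 2 ^ 64 := h6
      _ = 2 ^ 60 * 2 ^ 4 := by norm_num
  rw [Nat.mod_eq_of_lt h7] at h4
  exact (Nat.div_eq_zero_iff_lt (by norm_num)).mp h4

/-- A packed vector with lanes below `2 ^ 63` is a register. -/
theorem reg_pk {f : ℕ → ℕ} {n : ℕ} (hf : ∀ i < n, f i < 2 ^ 63) : Reg n (pk 64 f n) := by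
  have h64 : ∀ i < n, f i < 2 ^ 64 := fun i hi => lt_trans (hf i hi) (by norm_num)
  refine ⟨pk_lt h64, fun i hi => ?_⟩
  rw [lane_pk h64 hi]
  exact hf i hi

end H86V
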