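import Pool.Agent.H86.V.Base
import Pool.Agent.H1.Col.Pack

/-!
PART 1 of the engine (`go_sound`, `dall_sound`), chair helper82.  Definitions of this part.
-/

namespace H86V

open H1Col

/-- An admissible register of `n` lanes: below `2 ^ (64 n)`, all lanes below `2 ^ 63`. -/
def Reg (n V : ℕ) : Prop := V < 2 ^ (64 * n) ∧ ∀ i < n, lane V i < 2 ^ 63

/-- All `n` lanes of `V` satisfy `p`. -/
def AllL (n : ℕ) (p : ℕ → Prop) (V : ℕ) : Prop := ∀ i < n, p (lane V i)

/-- What is known on a waiting load. -/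
def Ld (X m n V : ℕ) : Prop :=
  V < 2 ^ (64 * n) ∧ ∀ i < n, lane V i < 2 ^ 60 ∧ Desc X m (lane V i)

/-- The continuation `k` is sound with descent length `m`. -/
def Sound (X m : ℕ) (k : St) : Prop := ∀ (n H A F P Q R : ℕ) (ls : List ℕ),
  Reg n A → Reg n F → Reg n P → Reg n Q → Reg n R → k n H A F P Q R ls = true →
    AllL n (Desc X m) A ∧ AllL n (Desc X m) F ∧ AllL n (Desc X m) P ∧ AllL n (Desc X m) Q ∧
      AllL n (Desc X m) R ∧ ∀ V ∈ ls, Ld X m n V

end H86V
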