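import Pool.Agent.H86.V.MDecA
import Pool.Agent.H86.V.MDecB
import Pool.Agent.H86.V.MGe

/-!
MODULE MRun (90 lines).  Soundness of the machine.

`blk_sound`: the test gives `lane A i < 2 ^ 60` (`lane_lt_60`); `block_spec`; for each lane: if
`X ≤ T^[5] a` then `Desc X m (T^[5] a)` gives `Desc X (5 + m) a` (`Desc.of_iter`), and the lane of `F` is that of `bK`;
if `T^[5] a < X` then `Desc X 5 a` and the lane of `F` is that of `bA`.  Everything else by `Desc.mono`.
`vstep_sound`: unfold `vstep, dec, decN, decL, decM, decH` and split the `Bool.rec`s.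
`vin_sound`, `vrun_sound`: inductions on the fuels.
`go_sound_aux`: `vrun_sound` with `A = hd L`, `F = P = Q = R = 0`, `ls = tl L`.
-/

namespace H86V

open H1Col

theorem blk_sound {X m : ℕ} {ihB : St} (hX : 0 < X) (hX' : X ≤ 2 ^ 62) (h : Sound X m ihB) :
    Sound X (5 + m) (iBlk X ihB) := by
  intro n H A F P Q R ls hA hF hP hQ hR hk
  unfold iBlk at hk
  rcases hc : Nat.beq (Nat.land A (Nat.mul 17293822569102704640 (rep n))) 0 with _ | _
  · rw [hc] at hk
    exact absurd hk Bool.false_ne_true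
  have hle : Nat.ble 0 (bA X n A F) = true := Nat.ble_eq_true_of_le (Nat.zero_le _)
  rw [hc, hle] at hk
  have hk2 : ihB n (Nat.shiftRight H 8) (bA X n A F) (bK X n A F) P Q R ls = true := hk
  have h0 : A &&& (17293822569102704640 * rep n) = 0 := Nat.eq_of_beq_eq_true hc
  obtain ⟨r1, r2, r3⟩ := block_spec hX hX' hA.1 (lane_lt_60 hA.1 h0) hF
  obtain ⟨s1, s2, s3, s4, s5, s6⟩ := h n _ _ _ P Q R ls r1 r2 hP hQ hR hk2
  have hm : m ≤ 5 + m := by omega
  refine ⟨?_, ?_, fun i hi => (s3 i hi).mono hm, fun i hi => (s4 i hi).mono hm,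
    fun i hi => (s5 i hi).mono hm, fun V hV => ⟨(s6 V hV).1, fun i hi =>
      ⟨((s6 V hV).2 i hi).1, ((s6 V hV).2 i hi).2.mono hm⟩⟩⟩
  · intro i hi
    by_cases hx : X ≤ T^[5] (lane A i)
    · have h1 := s1 i hi
      rw [((r3 i hi).1 hx).1] at h1
      exact h1.of_iter
    · exact ⟨5, by omega, by omega⟩
  · intro i hi
    by_cases hx : X ≤ T^[5] (lane A i)
    · have h1 := s2 i hi
      rw [((r3 i hi).1 hx).2] at h1
      exact h1.mono hm
    · have h1 := s1 i hi
      rw [(r3 i hi).2 (by omega)] at h1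
      exact h1.mono hm

private theorem mr_rec {X m : ℕ} {k1 k2 : St} (b : Bool) (h1 : Sound X m k1)
    (h2 : Sound X m k2) : Sound X m (fun n H A F P Q R ls =>
      @Bool.rec (fun _ => Bool) (k1 n H A F P Q R ls) (k2 n H A F P Q R ls) b) := by
  cases b
  · exact h1
  · exact h2

private theorem mr_dec {X m s c : ℕ} {ihB ih : St} (hX : 0 < X) (hX' : X ≤ 2 ^ 62) (hs : s ≤ m)
    (hB : Sound X m ihB) (h : Sound X (5 + m) ih) : Sound X (5 + m) (dec X s ihB ih c) := by
  have hH : Sound X (5 + m) (decH X s ih c) :=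
    mr_rec _ (dec5_sound hX (by omega) h) (dec4_sound hX h)
  have hM : Sound X (5 + m) (decM X s ih c) := mr_rec _ hH (dec3_sound hX h)
  have hL : Sound X (5 + m) (decL ih c) := mr_rec _ (dec2_sound hX h) (dec1_sound hX h)
  have hN : Sound X (5 + m) (decN X s ih c) := mr_rec _ hM hL
  exact mr_rec _ hN (blk_sound hX hX' hB)

theorem vstep_sound {X m s : ℕ} {ihB ih : St} (hX : 0 < X) (hX' : X ≤ 2 ^ 62) (hs : s ≤ m)
    (hB : Sound X m ihB) (h : Sound X (5 + m) ih) : Sound X (5 + m) (vstep X s ihB ih) := by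
  intro n H A F P Q R ls hA hF hP hQ hR hk
  exact mr_dec (c := Nat.land H 255) hX hX' hs hB h n H A F P Q R ls hA hF hP hQ hR hk

private theorem mr_false (X m : ℕ) : Sound X m (fun _ _ _ _ _ _ _ _ => false) := by
  intro n H A F P Q R ls _ _ _ _ _ hk
  exact absurd hk Bool.false_ne_true

private theorem mr_vin {X m s : ℕ} {ihB : St} (hX : 0 < X) (hX' : X ≤ 2 ^ 62) (hs : s ≤ m)
    (hB : Sound X m ihB) (k : ℕ) : Sound X (5 + m) (vin X s ihB k) := by
  induction k with
  | zero => exact mr_false X (5 + m)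
  | succ k ih => exact vstep_sound hX hX' hs hB ih

theorem vrun_sound {X s : ℕ} (hX : 0 < X) (hX' : X ≤ 2 ^ 62) (b : ℕ) :
    Sound X (5 * b + s) (vrun X s b) := by
  induction b with
  | zero => exact mr_false X _
  | succ b ih =>
    have h1 := mr_vin hX hX' (s := s) (by omega) ih 1000
    have h2 : 5 * (b + 1) + s = 5 + (5 * b + s) := by ring
    rw [h2]
    exact h1

theorem go_sound_aux {X s b n H : ℕ} {L : List ℕ} (hX : 0 < X) (hX' : X ≤ 2 ^ 62)
    (h : go X s b n H L = true) : ∀ V ∈ L, V < 2 ^ (64 * n) ∧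
      ∀ i < n, lane V i < 2 ^ 60 ∧ Desc X (5 * b + s) (lane V i) := by
  unfold go at h
  rcases hc : Nat.beq (Nat.land (hd L) (Nat.mul 17293822569102704640 (rep n))) 0 with _ | _
  · rw [hc] at h
    exact absurd h Bool.false_ne_true
  rw [hc] at h
  rcases hd' : Nat.ble (hd L) (Nat.mul msk (rep n)) with _ | _
  · rw [hd'] at h
    exact absurd h Bool.false_ne_true
  rw [hd'] at h
  have hk : vrun X s b n H (hd L) 0 0 0 0 (tl L) = true := h
  have h0 : hd L &&& (17293822569102704640 * rep n) = 0 := Nat.eq_of_beq_eq_true hc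
  have h1 : hd L ≤ msk * rep n := Nat.le_of_ble_eq_true hd'
  rw [msk_mul_rep] at h1
  have hpos : 0 < 2 ^ (64 * n) := by positivity
  have h2 : hd L < 2 ^ (64 * n) := by omega
  have h60 := lane_lt_60 h2 h0
  have hR1 : Reg n (hd L) := ⟨h2, fun i hi => (h60 i hi).trans (by norm_num)⟩
  have hR0 : Reg n 0 := ⟨hpos, fun i _ => by rw [lane_zero]; norm_num⟩
  obtain ⟨s1, -, -, -, -, s6⟩ := vrun_sound hX hX' b n H _ 0 0 0 0 (tl L) hR1 hR0 hR0 hR0 hR0 hk
  intro V hV
  cases L with
  | nil => simp at hV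
  | cons x t =>
    rcases List.mem_cons.mp hV with h3 | h3
    · subst h3
      exact ⟨h2, fun i hi => ⟨h60 i hi, s1 i hi⟩⟩
    · exact s6 V h3

end H86V
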