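import Pool.Agent.H86.V.MLane

/-!
MODULE MStp (80 lines).  One accelerated Collatz step in every lane, and five of them.

`stp_pk`: compare `H1Col.vstep_pk` (`Pool.Agent.H1.Col.Pack`).  `N &&& O = pk (f i % 2)` (`pk_land`,
`land_one_eq`); `(N + (N &&& O)) >>> 1 = pk ((f i + f i % 2) / 2)` because
`f i + f i % 2 = 2 * ((f i + f i % 2) / 2)` (`pk_add`, `pk_congr`, `pk_half`);
`(N &&& O) * msk &&& N = pk (if f i odd then f i else 0)` (`pk_mul`, `pk_land`, `land_mask_one`); the sum is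
`pk (T (f i))`.  No bound better than `f i < 2 ^ 64` is needed for `stp_pk`.
`stp5_pk`: five applications; `T y ≤ 2 y` for all `y` (`T 0 = 0`, `T y ≤ (3 y + 1) / 2 ≤ 2 y`), so the
lanes stay below `2 ^ 64`; `T_iter_lt`: `T y ≤ (3 y + 1) / 2`, so from `y < 2 ^ 60`:
`T y < 3 * 2 ^ 59 + 1`, ... , `T^[5] y < 2 ^ 63` (`omega` with `T` unfolded at each step, or
`2 ^ 5 * T^[5] y ≤ 3 ^ 5 * (y + 1)` by `T y + 1 ≤ 3 * (y + 1) / 2`).
-/

namespace H86V

open H1Col

private theorem msk_eq : msk = 2 ^ 64 - 1 := by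
  unfold msk
  norm_num

private theorem T_two (y : ℕ) : T y ≤ 2 * y := by
  unfold T
  split_ifs with h
  · omega
  · omega

private theorem T_le (y : ℕ) : T y ≤ (3 * y + 1) / 2 := by
  unfold T
  split_ifs with h
  · omega
  · omega

theorem stp_pk {f : ℕ → ℕ} {n : ℕ} (hf : ∀ i < n, f i < 2 ^ 64) :
    stp (rep n) (pk 64 f n) = pk 64 (fun i => T (f i)) n := by
  have h1 : ∀ i < n, (1 : ℕ) < 2 ^ 64 := fun i _ => Nat.one_lt_two_pow (by omega)
  have hm : pk 64 f n &&& pk 64 (fun _ => 1) n = pk 64 (fun i => f i % 2) n := by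
    rw [pk_land hf h1]
    apply pk_congr
    intro i _
    exact land_one_eq _
  have hM : ∀ i < n, f i % 2 * (2 ^ 64 - 1) < 2 ^ 64 := by
    intro i _
    have : f i % 2 ≤ 1 := by omega
    calc f i % 2 * (2 ^ 64 - 1) ≤ 1 * (2 ^ 64 - 1) := Nat.mul_le_mul_right _ this
      _ < 2 ^ 64 := by norm_num
  rw [rep_eq]
  show ((pk 64 f n + (pk 64 f n &&& pk 64 (fun _ => 1) n)) >>> 1) +
    (((pk 64 f n &&& pk 64 (fun _ => 1) n) * msk) &&& pk 64 f n) = _
  rw [hm, msk_eq, pk_mul, pk_land hM hf, pk_add, Nat.shiftRight_eq_div_pow, pow_one]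
  have hh : ∀ i < n, f i + f i % 2 = 2 * ((f i + f i % 2) / 2) := by
    intro i _
    omega
  rw [pk_congr hh, pk_half, pk_add]
  apply pk_congr
  intro i hi
  rcases Nat.mod_two_eq_zero_or_one (f i) with e | e
  · rw [e, Nat.zero_mul, Nat.zero_and]
    unfold T
    rw [if_pos e]
    omega
  · rw [e, one_mul, land_mask_one (hf i hi)]
    unfold T
    rw [if_neg (by omega)]
    omega

theorem T5_lt {y : ℕ} (h : y < 2 ^ 60) : T^[5] y < 2 ^ 63 := by
  have e : T^[5] y = T (T (T (T (T y)))) := rfl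
  rw [e]
  have h1 := T_le y
  have h2 := T_le (T y)
  have h3 := T_le (T (T y))
  have h4 := T_le (T (T (T y)))
  have h5 := T_le (T (T (T (T y))))
  have h6 : T y < 1729382256910270464 := by
    have : y < 1152921504606846976 := by simpa using h
    omega
  have h7 : T (T y) < 2594073385365405696 := by omega
  have h8 : T (T (T y)) < 3891110078048108544 := by omega
  have h9 : T (T (T (T y))) < 5836665117072162816 := by omega
  have h10 : T (T (T (T (T y)))) < 8754997675608244224 := by omega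
  calc T (T (T (T (T y)))) < 8754997675608244224 := h10
    _ ≤ 2 ^ 63 := by norm_num

theorem b5_pk {f : ℕ → ℕ} {n : ℕ} (hf : ∀ i < n, f i < 2 ^ 60) :
    b5 n (pk 64 f n) = pk 64 (fun i => T^[5] (f i)) n := by
  have g0 : ∀ i < n, f i < 2 ^ 64 := fun i hi => lt_trans (hf i hi) (by norm_num)
  have g1 : ∀ i < n, T (f i) < 2 ^ 61 := by
    intro i hi
    have h1 := T_two (f i)
    have h2 := hf i hi
    calc T (f i) ≤ 2 * f i := h1
      _ < 2 * 2 ^ 60 := by omega
      _ = 2 ^ 61 := by norm_num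
  have g2 : ∀ i < n, T (T (f i)) < 2 ^ 62 := by
    intro i hi
    have h1 := T_two (T (f i))
    have h2 := g1 i hi
    calc T (T (f i)) ≤ 2 * T (f i) := h1
      _ < 2 * 2 ^ 61 := by omega
      _ = 2 ^ 62 := by norm_num
  have g3 : ∀ i < n, T (T (T (f i))) < 2 ^ 63 := by
    intro i hi
    have h1 := T_two (T (T (f i)))
    have h2 := g2 i hi
    calc T (T (T (f i))) ≤ 2 * T (T (f i)) := h1
      _ < 2 * 2 ^ 62 := by omega
      _ = 2 ^ 63 := by norm_num
  have g4 : ∀ i < n, T (T (T (T (f i)))) < 2 ^ 64 := by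
    intro i hi
    have h1 := T_two (T (T (T (f i))))
    have h2 := g3 i hi
    calc T (T (T (T (f i)))) ≤ 2 * T (T (T (f i))) := h1
      _ < 2 * 2 ^ 63 := by omega
      _ = 2 ^ 64 := by norm_num
  unfold b5 stp5
  rw [stp_pk g0, stp_pk (fun i hi => lt_trans (g1 i hi) (by norm_num)),
    stp_pk (fun i hi => lt_trans (g2 i hi) (by norm_num)),
    stp_pk (fun i hi => lt_trans (g3 i hi) (by norm_num)), stp_pk g4]
  rfl

end H86V
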