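import Mathlib
import Pool.Agent.H86.V.Base

/-!
Plan for the three theorems of `Top.lean`.

PART 1 (machine, `go_sound`).
* `rep n` has lanes `1` for `i < n`.  Work with numbers `V < 2^(64 n)` and their lanes; two such
  numbers with the same lanes are equal (or use `H1Col.pk 64`, `Pool.Agent.H1.Col.Pack`).
* `stp`: if the lanes are `< 2^63 - 1` then the lanes of `stp (rep n) N` are `T (lane N i)`
  (all sums stay below `2^64`; the shift by one is clean since every lane of `N + (N and O)` is even).
  Lanes `< 2^60` stay `< 2^63` during the five steps of `b5`, and `b5` gives `T^[5]`.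
* `geM O X N` (lanes `< 2^63`, `0 < X ≤ 2^62`): lane `2^63 - 1` if `X ≤ lane N i`, else `0`.
* `bK`, `bA`: with `y = T^[5] (lane A i)`: if `X ≤ y` then `bA` has `y` and `bK` has `lane F i`,
  otherwise `bA` has `lane F i` and `bK` has `0`.
* `cmp2 x y (keepY O x y)`: if `lane x i ≠ 0` both stay, otherwise the lane of `y` moves to `x`.
* `rot n x`: a permutation of the `n` lanes (`rotS n ≤ n`; for `n < 2` look at the small cases, the
  conclusion `every lane of x is a lane of rot n x` must hold for every `n` or the run must fail).
* `iLoad`: asks `R = 0` and that the head of `ls` is `≤ msk * rep n = 2^(64 n) - 1` with lanes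
  `< 2^60`; `R` is dropped, the head goes to `F`, the rotated `F, P, Q` go to `P, Q, R`.
  If `ls = []` the head is `0`, no problem.
* `iFoldH`: `P = Q = R = 0`, the new number of lanes is `h = (n + 1) / 2`; `A, F` are cut in two
  halves.  Loads waiting in `ls` are treated with `h` lanes from now on; the check at their loading
  shows that they are `< 2^(64 h)`, so the statement for `h` lanes implies the one for `n` lanes.
* `iScal`: lane `p` of `A` is removed after the scalar descent `desc X s y = true`, which gives
  `Desc X s y`.
* end (code `19` and more): `ls = []` and `A = F = P = Q = R = 0`.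
* Induction: outer on `b` (`vrun`), inner on the fuel `m` (`vin`), statement for all
  `n H A F P Q R ls`: if `A .. R < 2^(64 n)` with lanes `< 2^63` and the run returns `true` then
  all lanes of `A, F, P, Q, R` satisfy `Desc X (5 b + s)` and every `V ∈ ls` is `< 2^(64 n)` with
  lanes `< 2^60` satisfying `Desc X (5 b + s)`.  (A lane equal to `0` satisfies it trivially.)
* `dall`: `iota1 n` has lanes `1, .., n` (the product `rep n * rep n` has coefficients
  `1, 2, .., n, n - 1, .., 1`), so `dload n x` has lanes `x + 6 (i + 1)`.

PART 2 (classes, `piece_sound`).
Let `q = x / (27 * 2^k)`, `d = 27 * 3^(od x k)` (odd), `y = yy k x`.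
* `yy_spec`: `T^[k] x = y + d * q` and `y < d`.  Recurrence: if `T^[k] x` is even then
  `yy (k+1) x = (y + d * (y % 2)) / 2`, if it is odd then
  `yy (k+1) x = (3 * (y + d * (1 - y % 2)) + 1) / 2` (because `q = 2 q' + e` with `e` determined by the
  parities of `y` and `T^[k] x`, and `x / (27 * 2^(k+1)) = q'`).  At level `0`: `yy 0 x = x % 27`.
* `evC`, `odC` on lanes `< d`: the two recurrences, the new lanes are `< d` resp. `< 3 d`.
  All `d` are `≤ 27 * 3^29 < 2^51`.
* `r0 r`, `r1 r`: the residues modulo `9` of `T y` from `y % 9 = r` for `y` even resp. odd.
* `bfs k`: for every `x` with `Root x` and `Alive k x` there is an entry `(o, r, len, Y)` in `bfs k`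
  with `o = od x k`, `r = T^[k] x % 9`, and `i < len` with `lane Y i = yy k x`; and every entry of
  `bfs k` has `Y < 2^(64 len)`, lanes `< 27 * 3^o`, `o ≤ k`.  (`ins` appends the lanes of the
  new entry behind those of the entry with the same `(o, r)`.)
* `pfx`, `dfs`: the same for a single branch, from level `k` to level `k + f`: if the lane `i` of the
  input is `yy k x` and `x` is alive up to level `k + f`, then the output list contains an element
  with lane `i` equal to `yy (k + f) x`, and it contains the accumulator.
* `outsR O f k a b L i`: the outputs of the elements of `L` with numbers in `[a, b)` (counting from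
  `i`).
* `mkL Ol l c j L 0 0`: every `(o, Y) ∈ L` sits in one of the loads, in the lanes
  `[l * i, l * (i + 1))` for some `i < c`, with `j * d` added to each lane; the lanes stay
  `< 9 * 27 * 3^29 < 2^60`, and the loads have `l * c` lanes.
* At level `k0`: `x / (27 * 2^k0) = j` gives `T^[k0] x = yy k0 x + j * d`, which is a lane of a load,
  hence `Desc X (5 bl + s) (T^[k0] x)` by `go_sound`.
-/
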