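import Pool.Agent.H86.V.MRun
import Pool.Agent.H86.V.MDall
import Pool.Agent.H86.V.CTop

/-! Soundness of the engine (see `Base.lean`). -/

namespace H86V

open H1Col

theorem lenE_bfs : Nat.ble (lenE (bfs 16)) 25 = true := by decide +kernel

/-- (1) The machine. -/
theorem go_sound {X s b n H : ℕ} {L : List ℕ} (hX : 0 < X) (hX' : X ≤ 2 ^ 62)
    (h : go X s b n H L = true) : ∀ V ∈ L, V < 2 ^ (64 * n) ∧
      ∀ i < n, lane V i < 2 ^ 60 ∧ Desc X (5 * b + s) (lane V i) :=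
  go_sound_aux hX hX' h

/-- (2) Direct runs. -/
theorem dall_sound {X b n : ℕ} {Hs : List ℕ} {x : ℕ} (hX : 0 < X) (hX' : X ≤ 2 ^ 62)
    (hn : n ≤ 100000) (hx : x + 6 * n * Hs.length < 2 ^ 60)
    (h : dall X b n Hs x = true) : ∀ i < n * Hs.length, Desc X (5 * b) (x + 6 * (i + 1)) :=
  dall_sound_aux hX hX' hn hx h

/-- (3) Pieces. -/
theorem piece_sound {k0 j X s bl : ℕ} (hk : 16 ≤ k0) (hk' : k0 ≤ 29) (_hj : 1 ≤ j) (hj' : j ≤ 8)
    (hX : 0 < X) (hX' : X ≤ 2 ^ 62) (h : PieceOK k0 j X s bl) {x : ℕ} (hx : x / (27 * 2 ^ k0) = j)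
    (hr : Root x) (ha : Alive k0 x) : Desc X (k0 + 5 * bl + s) x :=
  piece_sound_of hk hk' hj' (fun h => go_sound hX hX' h) (Nat.le_of_ble_eq_true lenE_bfs) h hx hr ha

end H86V
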